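import Pool.Agent.K3G.SmoothDef

/-!
# The canonical map of `S_b` (definitions)

The canonical map of `S_b` is given by the three `2`-forms `η_{i+1} ∧ η_{i+2}`.
-/

set_option autoImplicit false

noncomputable section
namespace TripleBurger.Canon

open TripleBurger Pool.Agent.K3G

/-- the values of the three forms `η_{i+1} ∧ η_{i+2}` at two vectors with values `s`, `t` of the `η_i` -/
def cross (s t : Fin 3 → ℂ) (i : Fin 3) : ℂ := s (i + 1) * t (i + 2) - s (i + 2) * t (i + 1)

/-- `u` is tangent to the cone over `D_b` at `p` and `s i` is the value of `η_i` at `u` -/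
def TanEta (p : Cone) (u : V9) (s : Fin 3 → ℂ) : Prop := IsTan p u ∧ ∀ i, IsEta p i u (s i)

/-- at `p` one of the three forms does not vanish -/
def NoCommonZero (p : Cone) : Prop := ∃ u w s t, TanEta p u s ∧ TanEta p w t ∧ ∃ i, cross s t i ≠ 0

/-- the vector of the values of the three forms at every pair of tangent vectors at `p` is a multiple of `v` -/
def IsCanonicalImage (p : Cone) (v : Fin 3 → ℂ) : Prop :=
  ∀ u w s t, TanEta p u s → TanEta p w t → ∃ k : ℂ, ∀ i, cross s t i = k * v i

/-- the points of `S_b` with canonical image `v` -/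
def fibre (b : Param) (v : Fin 3 → ℂ) : Set Total :=
  {P | ∃ p : Cone, Total.mk p = P ∧ p.b = b ∧ IsCanonicalImage p v}

/-- **the canonical map is a finite morphism to `ℙ²`**: every point of `S_b` has an image `[v]`, which is
unique, and there are only finitely many points with a given image. -/
def FiniteCanonicalMap (b : Param) : Prop :=
  (∀ p : Cone, p.b = b → NoCommonZero p ∧ (∃ v : Fin 3 → ℂ, v ≠ 0 ∧ IsCanonicalImage p v) ∧
    ∀ v v' : Fin 3 → ℂ, IsCanonicalImage p v → IsCanonicalImage p v' → ∃ c : ℂ, ∀ i, v' i = c * v i) ∧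
  ∀ v, (fibre b v).Finite

end TripleBurger.Canon
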