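import Pool.Agent.K3G.SmoothDef

/-!
# Projective embedding of the surfaces `S_b` (definitions)

The forms of multidegree `(2,2,2)` on `E₀ × E₁ × E₂` (weights `(1,1,2)` in each factor) that are invariant
under `-1` are spanned by the `36` monomials `m₀ m₁ m₂` and `Y_{k+1} Y_{k+2} m_k`, where
`m_i ∈ {W_i², W_i X_i, X_i²}`.
-/

set_option autoImplicit false

noncomputable section
namespace TripleBurger.Proj

open TripleBurger Pool.Agent.K3G

/-- the monomials `W², W X, X²` -/
def m (W X : ℂ) : Fin 3 → ℂ := ![W ^ 2, W * X, X ^ 2]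

/-- index set of the 36 monomials -/
abbrev Idx : Type := (Fin 3 → Fin 3) ⊕ (Fin 3 × Fin 3)

/-- the vector of the 36 monomials in the homogeneous coordinates `(W, X, Y)` -/
def mon (v : V9) : Idx → ℂ
  | Sum.inl e => ∏ i, m (v.1 i) (v.2.1 i) (e i)
  | Sum.inr (k, a) => v.2.2 (k + 1) * v.2.2 (k + 2) * m (v.1 k) (v.2.1 k) a

/-- the vectors of monomials of `p` and `q` are proportional -/
def SameImage (p q : Cone) : Prop := ∃ c : ℂ, c ≠ 0 ∧ ∀ l, mon (coord q) l = c * mon (coord p) l

/-- the monomials have no common zero, and they separate the points over the same `b` -/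
def Separates : Prop := (∀ p : Cone, ∃ l, mon (coord p) l ≠ 0) ∧
  ∀ p q : Cone, Total.mk p = Total.mk q ↔ p.b = q.b ∧ SameImage p q

/-- `u` is a combination of the infinitesimal rescalings `(W_i, X_i, 2 Y_i)` of the three factors -/
def IsScaling (p : Cone) (u : V9) : Prop :=
  ∃ c : Fin 3 → ℂ, ∀ i, u.1 i = c i * p.W i ∧ u.2.1 i = c i * p.X i ∧ u.2.2 i = 2 * c i * p.Y i

/-- the monomials separate tangent vectors at `p`: a tangent vector in whose direction the vector of monomials
changes by a multiple of itself comes from the rescalings -/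
def Immersive (p : Cone) : Prop := ∀ u : V9, IsTan p u →
  (∃ μ : ℂ, ∀ l, HasDir (fun v => mon v l) p u (μ * mon (coord p) l)) → IsScaling p u

end TripleBurger.Proj
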