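import Pool.Agent.K3G.SmoothBridge
import Pool.Agent.helper10.K3S.ProjDef

/-!
# K3S: projective embedding of the surfaces `S_b`

The forms of multidegree `(2,2,2)` on `E₀ × E₁ × E₂` (weights `(1,1,2)` in each factor) that are invariant
under `-1` are spanned by the `36` monomials `m₀ m₁ m₂` and `Y_{k+1} Y_{k+2} m_k`, where
`m_i ∈ {W_i², W_i X_i, X_i²}`.  They have no common zero (`mon_ne_zero`), two points of the total space `S` over the
same `b` coincide exactly when their vectors of monomials are proportional (`mk_eq_mk_iff`), and they separate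
tangent vectors (`immersion`).  So they embed `S_b` in `ℙ³⁵` (and the total space in `B × ℙ³⁵`).
-/

set_option autoImplicit false

namespace TripleBurger.Proj

open TripleBurger Pool.Agent.K3G

theorem card_idx : Fintype.card Idx = 36 := by
  simp [Idx]

theorem prod3 (f : Fin 3 → ℂ) (i : Fin 3) : ∏ j, f j = f i * (f (i + 1) * f (i + 2)) := by
  rw [Fin.prod_univ_three]
  fin_cases i
  · simp; ring
  · simp [(by decide : (1 : Fin 3) + 1 = 2), (by decide : (1 : Fin 3) + 2 = 0)]; ring
  · simp [(by decide : (2 : Fin 3) + 1 = 0), (by decide : (2 : Fin 3) + 2 = 1)]; ring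

theorem ne1 (i : Fin 3) : i + 1 ≠ i := by fin_cases i <;> decide
theorem ne2 (i : Fin 3) : i + 2 ≠ i := by fin_cases i <;> decide
theorem e11 : ∀ i : Fin 3, i + 1 + 1 = i + 2 := by decide
theorem e12 : ∀ i : Fin 3, i + 1 + 2 = i := by decide
theorem e21 : ∀ i : Fin 3, i + 2 + 1 = i := by decide
theorem e22 : ∀ i : Fin 3, i + 2 + 2 = i + 1 := by decide
theorem exists_l : ∀ i j : Fin 3, j ≠ i → ∃ l : Fin 3, (l + 1 = i ∧ l + 2 = j) ∨ (l + 1 = j ∧ l + 2 = i) := by
  decide

theorem sum3 (f : Fin 3 → ℂ) (i : Fin 3) : ∑ j, f j = f i + (f (i + 1) + f (i + 2)) := by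
  rw [Fin.sum_univ_three]
  fin_cases i
  · simp; ring
  · simp [(by decide : (1 : Fin 3) + 1 = 2), (by decide : (1 : Fin 3) + 2 = 0)]; ring
  · simp [(by decide : (2 : Fin 3) + 1 = 0), (by decide : (2 : Fin 3) + 2 = 1)]; ring

/-- one of the homogeneous coordinates `W_i`, `X_i` is not zero -/
theorem cne (p : Cone) (i : Fin 3) : p.W i ≠ 0 ∨ p.X i ≠ 0 := p.2.2.1 i

theorem m_smul (c W X : ℂ) (a : Fin 3) : m (c * W) (c * X) a = c ^ 2 * m W X a := by
  fin_cases a
  · simp [m]; ring
  · simp [m]; ring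
  · simp [m]; ring

theorem exists_m_ne {W X : ℂ} (h : W ≠ 0 ∨ X ≠ 0) : ∃ a, m W X a ≠ 0 := by
  rcases h with h | h
  · exact ⟨0, by simpa [m] using h⟩
  · exact ⟨2, by simpa [m] using h⟩

/-- the monomials have no common zero -/
theorem mon_ne_zero (p : Cone) : mon (coord p) ≠ 0 := by
  choose e he using fun i => exists_m_ne (cne p i)
  intro h
  have h1 := congrFun h (Sum.inl e)
  simp only [mon, coord, Pi.zero_apply] at h1
  exact Finset.prod_ne_zero_iff.mpr (fun i _ => he i) h1

theorem mon_of_rel {p q : Cone} (h : SameRel p q) :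
    ∃ c : ℂ, c ≠ 0 ∧ mon (coord q) = c • mon (coord p) := by
  obtain ⟨-, c, σ, hc, hσ, h⟩ := h
  have hσ2 : σ * σ = 1 := by rcases hσ with rfl | rfl <;> norm_num
  refine ⟨∏ i, c i ^ 2, Finset.prod_ne_zero_iff.mpr (fun i _ => pow_ne_zero 2 (hc i)), ?_⟩
  funext j
  rcases j with e | ⟨k, a⟩
  · simp only [mon, coord, Pi.smul_apply, smul_eq_mul]
    rw [← Finset.prod_mul_distrib]
    refine Finset.prod_congr rfl fun i _ => ?_
    rw [(h i).1, (h i).2.1, m_smul]
  · simp only [mon, coord, Pi.smul_apply, smul_eq_mul]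
    rw [(h (k + 1)).2.2, (h (k + 2)).2.2, (h k).1, (h k).2.1, m_smul, prod3 _ k]
    linear_combination (c (k + 1) ^ 2 * p.Y (k + 1) * c (k + 2) ^ 2 * p.Y (k + 2) *
      (c k ^ 2 * m (p.W k) (p.X k) a)) * hσ2

/-- two proportional vectors of monomials in one block -/
theorem block {W X W' X' k : ℂ} (hk : k ≠ 0) (h : W ≠ 0 ∨ X ≠ 0)
    (hm : ∀ a, m W' X' a = k * m W X a) : ∃ c : ℂ, c ^ 2 = k ∧ W' = c * W ∧ X' = c * X := by
  have h0 : W' ^ 2 = k * W ^ 2 := by simpa [m] using hm 0
  have h1 : W' * X' = k * (W * X) := by simpa [m] using hm 1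
  have h2 : X' ^ 2 = k * X ^ 2 := by simpa [m] using hm 2
  rcases h with h | h
  · have hW' : W' ≠ 0 := by
      intro h3
      rw [h3] at h0
      exact mul_ne_zero hk (pow_ne_zero 2 h) (by rw [← h0]; norm_num)
    refine ⟨W' / W, ?_, ?_, ?_⟩
    · rw [div_pow, h0]; field_simp
    · field_simp
    · have : W' * (X' * W) = W' * (W' * X) := by linear_combination W * h1 - X * h0
      have := mul_left_cancel₀ hW' this
      field_simp
      linear_combination this
  · have hX' : X' ≠ 0 := by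
      intro h3
      rw [h3] at h2
      exact mul_ne_zero hk (pow_ne_zero 2 h) (by rw [← h2]; norm_num)
    refine ⟨X' / X, ?_, ?_, ?_⟩
    · rw [div_pow, h2]; field_simp
    · have : X' * (W' * X) = X' * (X' * W) := by linear_combination X * h1 - W * h2
      have := mul_left_cancel₀ hX' this
      field_simp
      linear_combination this
    · field_simp

theorem quartic_smul (b : Param) (i : Fin 3) (c W X : ℂ) :
    quartic b i (c * W) (c * X) = c ^ 4 * quartic b i W X := by
  simp only [quartic, Fin.prod_univ_four]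
  ring

theorem rel_of_mon {p q : Cone} (hb : p.b = q.b) {c : ℂ} (hc : c ≠ 0)
    (h : mon (coord q) = c • mon (coord p)) : SameRel p q := by
  choose e he using fun i => exists_m_ne (cne p i)
  -- the condition in one block
  have key1 : ∀ i a, m (q.W i) (q.X i) a * (m (q.W (i + 1)) (q.X (i + 1)) (e (i + 1)) *
      m (q.W (i + 2)) (q.X (i + 2)) (e (i + 2))) = c * (m (p.W i) (p.X i) a *
      (m (p.W (i + 1)) (p.X (i + 1)) (e (i + 1)) * m (p.W (i + 2)) (p.X (i + 2)) (e (i + 2)))) := by
    intro i a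
    have h1 := congrFun h (Sum.inl (Function.update e i a))
    simp only [mon, coord, Pi.smul_apply, smul_eq_mul] at h1
    rw [prod3 _ i, prod3 _ i, Function.update_self, Function.update_of_ne (ne1 i),
      Function.update_of_ne (ne2 i)] at h1
    exact h1
  have key2 : ∀ i, ∃ k : ℂ, k ≠ 0 ∧ ∀ a, m (q.W i) (q.X i) a = k * m (p.W i) (p.X i) a := by
    intro i
    have hM : m (p.W (i + 1)) (p.X (i + 1)) (e (i + 1)) * m (p.W (i + 2)) (p.X (i + 2)) (e (i + 2)) ≠ 0 :=
      mul_ne_zero (he _) (he _)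
    have hN : m (q.W (i + 1)) (q.X (i + 1)) (e (i + 1)) * m (q.W (i + 2)) (q.X (i + 2)) (e (i + 2)) ≠ 0 := by
      intro h0
      have h1 := key1 i (e i)
      rw [h0, mul_zero] at h1
      exact mul_ne_zero hc (mul_ne_zero (he i) hM) h1.symm
    refine ⟨c * (m (p.W (i + 1)) (p.X (i + 1)) (e (i + 1)) * m (p.W (i + 2)) (p.X (i + 2)) (e (i + 2))) /
      (m (q.W (i + 1)) (q.X (i + 1)) (e (i + 1)) * m (q.W (i + 2)) (q.X (i + 2)) (e (i + 2))),
      div_ne_zero (mul_ne_zero hc hM) hN, fun a => ?_⟩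
    rw [div_mul_eq_mul_div, eq_div_iff hN, key1 i a]
    ring
  choose k hk hk1 using key2
  choose d hd hW hX using fun i => block (hk i) (cne p i) (hk1 i)
  have hd0 : ∀ i, d i ≠ 0 := by
    intro i h0
    apply hk i
    rw [← hd i]
    simp [h0]
  -- the product of the factors is `c`
  have hprod : ∀ i, c = k i * (k (i + 1) * k (i + 2)) := by
    intro i
    have h1 := key1 i (e i)
    rw [hk1, hk1, hk1] at h1
    have hM : m (p.W i) (p.X i) (e i) * (m (p.W (i + 1)) (p.X (i + 1)) (e (i + 1)) *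
      m (p.W (i + 2)) (p.X (i + 2)) (e (i + 2))) ≠ 0 := mul_ne_zero (he i) (mul_ne_zero (he _) (he _))
    apply mul_right_cancel₀ hM
    linear_combination -h1
  -- the products `Y_i Y_j`
  have hYY : ∀ i, q.Y (i + 1) * q.Y (i + 2) = k (i + 1) * k (i + 2) * (p.Y (i + 1) * p.Y (i + 2)) := by
    intro i
    have h1 := congrFun h (Sum.inr (i, e i))
    simp only [mon, coord, Pi.smul_apply, smul_eq_mul] at h1
    rw [hk1, hprod i] at h1
    apply mul_right_cancel₀ (mul_ne_zero (hk i) (he i))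
    linear_combination h1
  have hY2 : ∀ i, q.Y i ^ 2 = k i ^ 2 * p.Y i ^ 2 := by
    intro i
    have h1 : q.Y i ^ 2 = quartic q.b i (q.W i) (q.X i) := q.2.2.2.1 i
    have h2 : p.Y i ^ 2 = quartic p.b i (p.W i) (p.X i) := p.2.2.2.1 i
    rw [h1, h2, ← hb, hW, hX, quartic_smul, ← hd i]
    ring
  obtain ⟨i, hi⟩ := exists_Y_ne p
  -- the sign
  obtain ⟨σ, hσ, hσi⟩ : ∃ σ : ℂ, (σ = 1 ∨ σ = -1) ∧ q.Y i = σ * (k i * p.Y i) := by
    have h1 : (q.Y i - k i * p.Y i) * (q.Y i + k i * p.Y i) = 0 := by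
      linear_combination hY2 i
    rcases mul_eq_zero.mp h1 with h2 | h2
    · exact ⟨1, Or.inl rfl, by linear_combination h2⟩
    · exact ⟨-1, Or.inr rfl, by linear_combination h2⟩
  have hσ2 : σ * σ = 1 := by rcases hσ with rfl | rfl <;> norm_num
  have hσ0 : σ ≠ 0 := by rintro rfl; norm_num at hσ2
  have hne : σ * (k i * p.Y i) ≠ 0 := mul_ne_zero hσ0 (mul_ne_zero (hk i) hi)
  have hall : ∀ j, q.Y j = σ * (k j * p.Y j) := by
    intro j
    by_cases hj : j = i
    · rw [hj]; exact hσi
    · have hYij : q.Y i * q.Y j = k i * k j * (p.Y i * p.Y j) := by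
        have h3 := exists_l i j hj
        obtain ⟨l, ⟨h4, h5⟩ | ⟨h4, h5⟩⟩ := h3
        · have := hYY l
          rw [h4, h5] at this
          exact this
        · have := hYY l
          rw [h4, h5] at this
          linear_combination this
      rw [hσi] at hYij
      apply mul_left_cancel₀ hne
      rw [hYij]
      linear_combination (-(k i * p.Y i * (k j * p.Y j))) * hσ2
  refine ⟨hb, d, σ, hd0, hσ, fun j => ⟨hW j, hX j, ?_⟩⟩
  rw [hall j, hd j]

/-- **The 36 monomials separate the points of the fibres.** -/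
theorem mk_eq_mk_iff (p q : Cone) : Total.mk p = Total.mk q ↔
    p.b = q.b ∧ ∃ c : ℂ, c ≠ 0 ∧ mon (coord q) = c • mon (coord p) := by
  constructor
  · intro h
    have h1 : SameRel p q := Quotient.exact h
    exact ⟨h1.1, mon_of_rel h1⟩
  · rintro ⟨hb, c, hc, h⟩
    exact Quotient.sound (rel_of_mon hb hc h)

/-! ### Tangent vectors -/

/-- the differentials of the monomials `W², W X, X²` -/
def dm (W X dW dX : ℂ) : Fin 3 → ℂ := ![2 * W * dW, dW * X + W * dX, 2 * X * dX]

theorem hasDerivAt_m (W X dW dX : ℂ) (a : Fin 3) :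
    HasDerivAt (fun ε : ℂ => m (W + ε * dW) (X + ε * dX) a) (dm W X dW dX a) 0 := by
  have hl : ∀ a c : ℂ, HasDerivAt (fun ε : ℂ => a + ε * c) c 0 := fun a c => by
    simpa using ((hasDerivAt_id (0:ℂ)).mul_const c).const_add a
  fin_cases a
  · refine ((hl W dW).pow 2).congr_deriv ?_
    simp [dm]
  · refine ((hl W dW).mul (hl X dX)).congr_deriv ?_
    simp [dm]
  · refine ((hl X dX).pow 2).congr_deriv ?_
    simp [dm]

/-- the differential of the vector of monomials -/
def dmon (v u : V9) : Idx → ℂ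
  | Sum.inl e => ∑ i, dm (v.1 i) (v.2.1 i) (u.1 i) (u.2.1 i) (e i) *
      (m (v.1 (i + 1)) (v.2.1 (i + 1)) (e (i + 1)) * m (v.1 (i + 2)) (v.2.1 (i + 2)) (e (i + 2)))
  | Sum.inr (k, a) => (u.2.2 (k + 1) * v.2.2 (k + 2) + v.2.2 (k + 1) * u.2.2 (k + 2)) *
      m (v.1 k) (v.2.1 k) a + v.2.2 (k + 1) * v.2.2 (k + 2) * dm (v.1 k) (v.2.1 k) (u.1 k) (u.2.1 k) a

theorem differentiable_mon : Differentiable ℂ mon := by
  have hm : ∀ (i a : Fin 3), Differentiable ℂ fun v : V9 => m (v.1 i) (v.2.1 i) a := by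
    intro i a
    fin_cases a
    · simp only [m, Fin.zero_eta, Matrix.cons_val_zero]
      fun_prop
    · simp only [m, Fin.mk_one, Matrix.cons_val_one, Matrix.cons_val_zero]
      fun_prop
    · simp only [m, Fin.reduceFinMk, Matrix.cons_val]
      fun_prop
  rw [differentiable_pi]
  intro j
  rcases j with e | ⟨k, a⟩
  · simp only [mon, Fin.prod_univ_three]
    exact ((hm 0 _).mul (hm 1 _)).mul (hm 2 _)
  · simp only [mon]
    have := hm k a
    fun_prop

theorem fderiv_mon (v u : V9) : fderiv ℂ mon v u = dmon v u := by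
  rw [← (differentiable_mon v).lineDeriv_eq_fderiv]
  unfold lineDeriv
  apply HasDerivAt.deriv
  have hl : ∀ a c : ℂ, HasDerivAt (fun ε : ℂ => a + ε * c) c 0 := fun a c => by
    simpa using ((hasDerivAt_id (0:ℂ)).mul_const c).const_add a
  rw [hasDerivAt_pi]
  intro j
  rcases j with e | ⟨k, a⟩
  · have h := fun i => hasDerivAt_m (v.1 i) (v.2.1 i) (u.1 i) (u.2.1 i) (e i)
    have h3 := ((h 0).mul (h 1)).mul (h 2)
    refine (h3.congr_of_eventuallyEq ?_).congr_deriv ?_
    · refine Filter.Eventually.of_forall fun ε => ?_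
      simp only [mon, Fin.prod_univ_three, Pi.mul_apply, Prod.snd_add, Prod.fst_add, Prod.smul_fst, Prod.smul_snd,
        Pi.add_apply, Pi.smul_apply, smul_eq_mul]
    · simp only [dmon, Fin.sum_univ_three, Pi.mul_apply, zero_mul, add_zero, zero_add,
        (by decide : (1 : Fin 3) + 1 = 2), (by decide : (1 : Fin 3) + 2 = 0),
        (by decide : (2 : Fin 3) + 1 = 0), (by decide : (2 : Fin 3) + 2 = 1)]
      ring
  · have h1 := ((hl (v.2.2 (k + 1)) (u.2.2 (k + 1))).mul (hl (v.2.2 (k + 2)) (u.2.2 (k + 2)))).mul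
      (hasDerivAt_m (v.1 k) (v.2.1 k) (u.1 k) (u.2.1 k) a)
    refine (h1.congr_of_eventuallyEq ?_).congr_deriv ?_
    · refine Filter.Eventually.of_forall fun ε => ?_
      simp only [mon, Pi.mul_apply, Prod.snd_add, Prod.fst_add, Prod.smul_fst, Prod.smul_snd,
        Pi.add_apply, Pi.smul_apply, smul_eq_mul]
    · simp only [dmon, Pi.mul_apply, zero_mul, add_zero]

theorem dblock {W X dW dX κ : ℂ} (h : W ≠ 0 ∨ X ≠ 0)
    (hm : ∀ a, dm W X dW dX a = κ * m W X a) : dW = κ / 2 * W ∧ dX = κ / 2 * X := by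
  have h0 : 2 * W * dW = κ * W ^ 2 := by simpa [m, dm] using hm 0
  have h1 : dW * X + W * dX = κ * (W * X) := by simpa [m, dm] using hm 1
  have h2 : 2 * X * dX = κ * X ^ 2 := by simpa [m, dm] using hm 2
  rcases h with h | h
  · have h3 : dW = κ / 2 * W := by
      apply mul_left_cancel₀ h
      linear_combination h0 / 2
    refine ⟨h3, ?_⟩
    apply mul_left_cancel₀ h
    rw [h3] at h1
    linear_combination h1
  · have h3 : dX = κ / 2 * X := by
      apply mul_left_cancel₀ h
      linear_combination h2 / 2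
    refine ⟨?_, h3⟩
    apply mul_left_cancel₀ h
    rw [h3] at h1
    linear_combination h1

/-- **The 36 monomials separate tangent vectors**: a tangent vector of the cone over `D_b` on which the
differential of the vector of monomials is proportional to the vector of monomials is a combination of the
infinitesimal rescalings `(W_i, X_i, 2 Y_i)` of the three factors. -/
theorem immersion (p : Cone) {u : V9} (hu : u ∈ Tan p)
    (h : ∃ μ : ℂ, fderiv ℂ mon (coord p) u = μ • mon (coord p)) :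
    ∃ c : Fin 3 → ℂ, ∀ i, u.1 i = c i * p.W i ∧ u.2.1 i = c i * p.X i ∧ u.2.2 i = 2 * c i * p.Y i := by
  obtain ⟨μ, h⟩ := h
  rw [fderiv_mon] at h
  choose e he using fun i => exists_m_ne (cne p i)
  have key1 : ∀ i, ∃ κ : ℂ, ∀ a, dm (p.W i) (p.X i) (u.1 i) (u.2.1 i) a = κ * m (p.W i) (p.X i) a := by
    intro i
    let M := m (p.W (i + 1)) (p.X (i + 1)) (e (i + 1)) * m (p.W (i + 2)) (p.X (i + 2)) (e (i + 2))
    let M' := dm (p.W (i + 1)) (p.X (i + 1)) (u.1 (i + 1)) (u.2.1 (i + 1)) (e (i + 1)) *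
        m (p.W (i + 2)) (p.X (i + 2)) (e (i + 2)) +
      m (p.W (i + 1)) (p.X (i + 1)) (e (i + 1)) *
        dm (p.W (i + 2)) (p.X (i + 2)) (u.1 (i + 2)) (u.2.1 (i + 2)) (e (i + 2))
    have hM : M ≠ 0 := mul_ne_zero (he _) (he _)
    refine ⟨(μ * M - M') / M, fun a => ?_⟩
    have h1 := congrFun h (Sum.inl (Function.update e i a))
    simp only [mon, dmon, coord, Pi.smul_apply, smul_eq_mul] at h1
    rw [sum3 _ i, prod3 _ i, e11, e12, e21, e22, Function.update_self, Function.update_of_ne (ne1 i),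
      Function.update_of_ne (ne2 i)] at h1
    rw [div_mul_eq_mul_div, eq_div_iff hM]
    simp only [M, M']
    linear_combination h1
  choose κ hκ using key1
  choose hW hX using fun i => dblock (cne p i) (hκ i)
  have hsum : ∀ i, μ = κ i + (κ (i + 1) + κ (i + 2)) := by
    intro i
    have h1 := congrFun h (Sum.inl e)
    simp only [mon, dmon, coord, Pi.smul_apply, smul_eq_mul] at h1
    rw [sum3 _ i, prod3 _ i, e11, e12, e21, e22, hκ, hκ, hκ] at h1
    have hM : m (p.W i) (p.X i) (e i) * (m (p.W (i + 1)) (p.X (i + 1)) (e (i + 1)) *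
      m (p.W (i + 2)) (p.X (i + 2)) (e (i + 2))) ≠ 0 := mul_ne_zero (he i) (mul_ne_zero (he _) (he _))
    apply mul_right_cancel₀ hM
    linear_combination -h1
  -- the coordinates `Y`
  have hYY : ∀ i, (u.2.2 (i + 1) - κ (i + 1) * p.Y (i + 1)) * p.Y (i + 2) +
      p.Y (i + 1) * (u.2.2 (i + 2) - κ (i + 2) * p.Y (i + 2)) = 0 := by
    intro i
    have h1 := congrFun h (Sum.inr (i, e i))
    simp only [mon, dmon, coord, Pi.smul_apply, smul_eq_mul] at h1
    rw [hκ, hsum i] at h1
    apply (mul_eq_zero.mp ?_).resolve_right (he i)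
    linear_combination h1
  have hT : ∀ i, p.Y i * (u.2.2 i - κ i * p.Y i) = 0 := by
    intro i
    rw [mem_Tan] at hu
    have h1 := congrFun (congrArg Prod.fst hu) i
    simp only [deqs, coord, Prod.fst_zero, Pi.zero_apply] at h1
    rw [hW i, hX i] at h1
    have h2 : p.Y i ^ 2 = quartic p.b i (p.W i) (p.X i) := p.2.2.2.1 i
    have h3 := euler p.b i (p.W i) (p.X i)
    linear_combination h1 / 2 + κ i / 4 * h3 - κ i * h2
  obtain ⟨i, hi⟩ := exists_Y_ne p
  have hwi : u.2.2 i - κ i * p.Y i = 0 := (mul_eq_zero.mp (hT i)).resolve_left hi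
  have hall : ∀ j, u.2.2 j - κ j * p.Y j = 0 := by
    intro j
    by_cases hj : j = i
    · rw [hj]; exact hwi
    · have h3 := exists_l i j hj
      apply (mul_eq_zero.mp ?_).resolve_left hi
      obtain ⟨l, ⟨h4, h5⟩ | ⟨h4, h5⟩⟩ := h3
      · have := hYY l
        rw [h4, h5, hwi] at this
        linear_combination this
      · have := hYY l
        rw [h4, h5, hwi] at this
        linear_combination this
  refine ⟨fun i => κ i / 2, fun j => ⟨hW j, hX j, ?_⟩⟩
  linear_combination hall j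

/-- **The 36 monomials give an injective map of every fibre to `ℙ³⁵`.** -/
theorem separates : Separates := by
  refine ⟨fun p => ?_, fun p q => ?_⟩
  · by_contra h
    push Not at h
    exact mon_ne_zero p (funext h)
  · rw [mk_eq_mk_iff]
    refine and_congr_right fun _ => exists_congr fun c => and_congr_right fun _ => ?_
    exact ⟨fun h l => congrFun h l, fun h => funext h⟩

/-- **The 36 monomials give an immersion of every fibre in `ℙ³⁵`.** -/
theorem immersive (p : Cone) : Immersive p := by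
  rintro u hu ⟨μ, h⟩
  refine immersion p (isTan_iff.mp hu) ⟨μ, funext fun l => ?_⟩
  have h1 : Differentiable ℂ fun v => mon v l := (differentiable_pi.mp differentiable_mon) l
  have h2 := (hasDir_iff h1 p u _).mp (h l)
  have h3 : HasFDerivAt mon (fderiv ℂ mon (coord p)) (coord p) := (differentiable_mon _).hasFDerivAt
  have h4 := (hasFDerivAt_pi'.mp h3) l
  have h5 := congrArg (fun L => L u) h4.fderiv
  exact h5.symm.trans h2

end TripleBurger.Proj
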