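import Pool.Agent.helper10.K3S.CanonAlg
import Pool.Agent.helper10.K3S.Proj
import Pool.Agent.helper10.K3S.CanonDef

/-!
# K3S: the canonical map of `S_b` is a finite morphism to `ℙ²`

The canonical map of `S_b` is given by the three `2`-forms `η_{i+1} ∧ η_{i+2}`, which have no common zero
(`Pool.Agent.K3G.no_common_zero`).  `CI p v`: the vector of the values of the three forms at every pair
of tangent vectors at `p` is a multiple of `v`.  Every point has a non-zero `v`, unique up to a factor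
(`exists_ci`, `ci_unique`), and for every `v` only finitely many points of `S_b` have the image
`v` (`ci_finite`).  Hence `K_S` is the pull-back of `O(1)` under a finite morphism `S_b → ℙ²`, so it
is ample: `S_b` is minimal and of general type.
-/

set_option autoImplicit false

noncomputable section
namespace TripleBurger.Canon

open TripleBurger Pool.Agent.K3G TripleBurger.Proj

/-- `IsCanonicalImage` with the Fréchet derivative -/
def CI (p : Cone) (v : Fin 3 → ℂ) : Prop :=
  ∀ u ∈ Tan p, ∀ w ∈ Tan p, ∀ s t : Fin 3 → ℂ, (∀ j, IsEta p j u (s j)) → (∀ j, IsEta p j w (t j)) →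
    ∃ k : ℂ, ∀ i, s (i + 1) * t (i + 2) - s (i + 2) * t (i + 1) = k * v i

/-- the coefficients of the relation between the three differentials -/
structure IsLam (p : Cone) (lam : Fin 3 → ℂ) : Prop where
  h0 : p.X 2 * p.W 1 = lam 0 * p.W 0 ∧ p.b 4 * p.X 1 * p.W 2 = lam 0 * p.X 0
  h1 : p.X 0 * p.X 2 = lam 1 * p.X 1 ∧ p.b 4 * p.W 0 * p.W 2 = lam 1 * p.W 1
  h2 : p.X 0 * p.W 1 = lam 2 * p.W 2 ∧ p.b 4 * p.X 1 * p.W 0 = lam 2 * p.X 2
  ne : ∃ i, lam i * p.Y i ≠ 0

theorem exists_isLam (p : Cone) : ∃ lam, IsLam p lam := by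
  obtain ⟨lam, h0, h1, h2, h⟩ := exists_lam p
  exact ⟨lam, h0, h1, h2, h⟩

/-- the normal vector -/
def nrm (p : Cone) (lam : Fin 3 → ℂ) (i : Fin 3) : ℂ := sgn i * (lam i * p.Y i)

variable {p : Cone} {lam v : Fin 3 → ℂ}

theorem nrm_ne (h : IsLam p lam) : ∃ i, nrm p lam i ≠ 0 := by
  obtain ⟨i, hi⟩ := h.ne
  refine ⟨i, mul_ne_zero ?_ hi⟩
  intro h0
  have := sgn_mul_self i
  rw [h0] at this
  norm_num at this

/-- the relation between the three differentials at a tangent vector -/
theorem nrm_eta (h : IsLam p lam) {u : V9} (hu : u ∈ Tan p) {s : Fin 3 → ℂ} (hs : ∀ j, IsEta p j u (s j)) :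
    nrm p lam 0 * s 0 + nrm p lam 1 * s 1 + nrm p lam 2 * s 2 = 0 := by
  rw [mem_Tan] at hu
  have h1 := congrArg Prod.snd hu
  rw [deqs_snd p h.h0 h.h1 h.h2, ← (hs 0).1, ← (hs 1).1, ← (hs 2).1, Prod.snd_zero] at h1
  have s0 : sgn 0 = 1 := by simp [sgn]
  have s1 : sgn 1 = -1 := by simp [sgn]
  have s2 : sgn 2 = 1 := by simp [sgn]
  simp only [nrm, s0, s1, s2]
  linear_combination h1

/-- the vector of the values of the forms is parallel to the normal vector -/
theorem nrm_cross (h : IsLam p lam) {u w : V9} (hu : u ∈ Tan p) (hw : w ∈ Tan p) {s t : Fin 3 → ℂ}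
    (hs : ∀ j, IsEta p j u (s j)) (ht : ∀ j, IsEta p j w (t j)) (i j : Fin 3) :
    nrm p lam i * (s (j + 1) * t (j + 2) - s (j + 2) * t (j + 1)) =
      nrm p lam j * (s (i + 1) * t (i + 2) - s (i + 2) * t (i + 1)) := by
  have h1 := nrm_eta h hu hs
  have h2 := nrm_eta h hw ht
  have e1 : (1 : Fin 3) + 1 = 2 := rfl
  have e2 : (1 : Fin 3) + 2 = 0 := rfl
  have e3 : (2 : Fin 3) + 1 = 0 := rfl
  have e4 : (2 : Fin 3) + 2 = 1 := rfl
  generalize nrm p lam = n at h1 h2 ⊢
  fin_cases i <;> fin_cases j <;>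
    simp only [Fin.zero_eta, Fin.mk_one, Fin.reduceFinMk, Fin.isValue, zero_add, e1, e2, e3, e4]
  · linear_combination s 2 * h2 - t 2 * h1
  · linear_combination t 1 * h1 - s 1 * h2
  · linear_combination t 2 * h1 - s 2 * h2
  · linear_combination s 0 * h2 - t 0 * h1
  · linear_combination s 1 * h2 - t 1 * h1
  · linear_combination t 0 * h1 - s 0 * h2

/-- the canonical image is the class of the normal vector -/
theorem ci_nrm (h : IsLam p lam) : CI p (nrm p lam) := by
  intro u hu w hw s t hs ht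
  obtain ⟨i, hi⟩ := nrm_ne h
  refine ⟨(s (i + 1) * t (i + 2) - s (i + 2) * t (i + 1)) / nrm p lam i, fun j => ?_⟩
  rw [div_mul_eq_mul_div, eq_div_iff hi]
  linear_combination nrm_cross h hu hw hs ht i j

theorem par (h : IsLam p lam) (hv : CI p v) :
    (∃ i, v i ≠ 0) ∧ ∀ i j, nrm p lam i * v j = nrm p lam j * v i := by
  obtain ⟨i, u, hu, w, hw, s, t, hs, ht, hne⟩ := no_common_zero p
  obtain ⟨k, hk⟩ := hv u hu w hw s t hs ht
  have hk0 : k ≠ 0 := by
    rintro rfl
    exact hne (by rw [hk i, zero_mul])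
  refine ⟨⟨i, fun h0 => hne (by rw [hk i, h0, mul_zero])⟩, fun i j => ?_⟩
  have h1 := nrm_cross h hu hw hs ht i j
  rw [hk, hk] at h1
  apply mul_left_cancel₀ hk0
  linear_combination h1

/-- every point has a canonical image -/
theorem exists_ci (p : Cone) : ∃ v : Fin 3 → ℂ, v ≠ 0 ∧ CI p v := by
  obtain ⟨lam, h⟩ := exists_isLam p
  obtain ⟨i, hi⟩ := nrm_ne h
  exact ⟨nrm p lam, fun h0 => hi (congrFun h0 i), ci_nrm h⟩

/-- the canonical image is unique up to a factor -/
theorem ci_unique {v' : Fin 3 → ℂ} (hv : CI p v) (hv' : CI p v') :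
    ∃ c : ℂ, c ≠ 0 ∧ v' = c • v := by
  obtain ⟨lam, h⟩ := exists_isLam p
  obtain ⟨i, hi⟩ := nrm_ne h
  obtain ⟨⟨j, hj⟩, hp⟩ := par h hv
  obtain ⟨⟨j', hj'⟩, hp'⟩ := par h hv'
  have hvi : v i ≠ 0 := by
    intro h0
    have := hp i j
    rw [h0, mul_zero] at this
    exact mul_ne_zero hi hj this
  have hvi' : v' i ≠ 0 := by
    intro h0
    have := hp' i j'
    rw [h0, mul_zero] at this
    exact mul_ne_zero hi hj' this
  refine ⟨v' i / v i, div_ne_zero hvi' hvi, ?_⟩
  funext k
  simp only [Pi.smul_apply, smul_eq_mul]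
  rw [div_mul_eq_mul_div, eq_div_iff hvi]
  apply mul_left_cancel₀ hi
  linear_combination v i * hp' i k - v' i * hp i k

/-! ### The coordinates of the points of a fibre -/

/-- the coordinate `X_i / W_i ∈ ℂ ∪ {∞}` -/
def rat (p : Cone) (i : Fin 3) : Option ℂ := if p.W i = 0 then none else some (p.X i / p.W i)

/-- the solutions of `A X² = B W²` if not both of `A`, `B` are zero -/
def E (A B : ℂ) : Set (Option ℂ) := {r | (A ≠ 0 ∨ B ≠ 0) ∧ (r = none ∨ ∃ x, r = some x ∧ A * x ^ 2 = B)}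

theorem E_finite (A B : ℂ) : (E A B).Finite := by
  by_cases h : A ≠ 0 ∨ B ≠ 0
  · have h1 : {x : ℂ | A * x ^ 2 = B}.Finite := by
      by_cases hA : A = 0
      · have hB : B ≠ 0 := h.resolve_left (fun h => h hA)
        refine Set.finite_empty.subset ?_
        intro x hx
        rw [Set.mem_ofPred_eq, hA, zero_mul] at hx
        exact hB hx.symm
      · have h2 : (Polynomial.C A * Polynomial.X ^ 2 - Polynomial.C B : Polynomial ℂ) ≠ 0 := by
          intro h3
          have h4 := congrArg (fun f => Polynomial.coeff f 2) h3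
          simp at h4
          exact hA h4
        refine (Polynomial.finite_setOfPred_isRoot h2).subset ?_
        intro x hx
        rw [Set.mem_ofPred_eq] at hx ⊢
        simp [Polynomial.IsRoot.def, hx]
    refine ((Set.finite_singleton (none : Option ℂ)).union (h1.image some)).subset ?_
    rintro r ⟨-, h2 | ⟨x, rfl, hx⟩⟩
    · exact Or.inl h2
    · exact Or.inr ⟨x, hx, rfl⟩
  · exact Set.finite_empty.subset fun r hr => absurd hr.1 h

theorem rat_mem_E {A B : ℂ} {i : Fin 3} (h : A ≠ 0 ∨ B ≠ 0) (he : A * p.X i ^ 2 = B * p.W i ^ 2) :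
    rat p i ∈ E A B := by
  refine ⟨h, ?_⟩
  unfold rat
  split_ifs with hW
  · exact Or.inl rfl
  · refine Or.inr ⟨_, rfl, ?_⟩
    rw [div_pow, ← mul_div_assoc, he, mul_div_assoc, div_self (pow_ne_zero 2 hW), mul_one]

theorem quartic_X_zero (b : Param) (i : Fin 3) (W : ℂ) : quartic b i W 0 = quartic b i 1 0 * W ^ 4 := by
  simp only [quartic, Fin.prod_univ_four]
  ring

theorem quartic_W_zero (b : Param) (i : Fin 3) (X : ℂ) : quartic b i 0 X = X ^ 4 := by
  simp only [quartic, Fin.prod_univ_four]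
  ring

theorem quartic_affine (b : Param) (i : Fin 3) {W : ℂ} (hW : W ≠ 0) (X : ℂ) :
    quartic b i W X = W ^ 4 * quartic b i 1 (X / W) := by
  rw [← quartic_smul, mul_one, mul_div_cancel₀ _ hW]

theorem quartic_one_zero_ne {b : Param} (hb : b ∈ BaseSet) (i : Fin 3) : quartic b i 1 0 ≠ 0 := by
  simp only [quartic, mul_one, zero_sub]
  exact Finset.prod_ne_zero_iff.mpr fun j _ => neg_ne_zero.mpr (hb.2.1 i j)

/-- a vanishing component of the normal vector -/
theorem v_zero (h : IsLam p lam) (hv : CI p v) {k : Fin 3} (hk : lam k = 0) : v k = 0 := by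
  obtain ⟨i, hi⟩ := nrm_ne h
  have h1 := (par h hv).2 i k
  have h2 : nrm p lam k = 0 := by simp [nrm, hk]
  rw [h2, zero_mul] at h1
  exact (mul_eq_zero.mp h1).resolve_left hi

theorem sq_par (h : IsLam p lam) (hv : CI p v) (i j : Fin 3) :
    (lam i * p.Y i) ^ 2 * v j ^ 2 = (lam j * p.Y j) ^ 2 * v i ^ 2 := by
  have h1 := (par h hv).2 i j
  have h2 : (nrm p lam i) ^ 2 = (lam i * p.Y i) ^ 2 := by
    simp only [nrm]
    linear_combination (lam i * p.Y i) ^ 2 * sgn_mul_self i
  have h3 : (nrm p lam j) ^ 2 = (lam j * p.Y j) ^ 2 := by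
    simp only [nrm]
    linear_combination (lam j * p.Y j) ^ 2 * sgn_mul_self j
  rw [← h2, ← h3]
  linear_combination (nrm p lam i * v j + nrm p lam j * v i) * h1

/-- the candidates for the `i`-th coordinate of the points of the fibre over `v` -/
def cand (b : Param) (v : Fin 3 → ℂ) (i : Fin 3) : Set (Option ℂ) :=
  {none, some 0} ∪ some '' ((fun x : Fin 3 → ℂ => x i) '' Z b v) ∪
  (match i with
   | 0 => E (quartic b 2 1 0 * v 1 ^ 2) (b 4 ^ 2 * quartic b 1 1 0 * v 2 ^ 2) ∪ E (v 2 ^ 2) (b 4 ^ 2 * v 1 ^ 2)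
   | 1 => E (b 4 ^ 2 * v 0 ^ 2) (quartic b 0 1 0 * v 2 ^ 2) ∪ E (b 4 ^ 2 * v 2 ^ 2) (quartic b 2 1 0 * v 0 ^ 2)
   | 2 => E (quartic b 0 1 0 * v 1 ^ 2) (b 4 ^ 2 * quartic b 1 1 0 * v 0 ^ 2) ∪ E (v 0 ^ 2) (b 4 ^ 2 * v 1 ^ 2))

theorem cand_finite {b : Param} (hb : b ∈ BaseSet) (v : Fin 3 → ℂ) (i : Fin 3) : (cand b v i).Finite := by
  refine Set.Finite.union (Set.Finite.union ?_ (((Z_finite v hb).image _).image _)) ?_
  · exact (Set.finite_singleton _).insert _
  · fin_cases i
    · exact (E_finite _ _).union (E_finite _ _)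
    · exact (E_finite _ _).union (E_finite _ _)
    · exact (E_finite _ _).union (E_finite _ _)

theorem rat_of_W {i : Fin 3} {b : Param} (h : p.W i = 0) : rat p i ∈ cand b v i := by
  refine Or.inl (Or.inl (Or.inl ?_))
  simp [rat, h]

theorem rat_of_X {i : Fin 3} {b : Param} (h : p.X i = 0) : rat p i ∈ cand b v i := by
  have hW : p.W i ≠ 0 := (cne p i).resolve_right (fun h2 => h2 h)
  refine Or.inl (Or.inl (Or.inr ?_))
  simp [rat, h, hW]

/-- the common form of the six boundary cases -/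
theorem star {li lj Yi Yj Pi Pj Qi Qj Ui Uj vi vj : ℂ} (ai : Ui = li * Pi) (aj : Uj = lj * Pj)
    (yi : Yi ^ 2 = Qi * Pi ^ 4) (yj : Yj ^ 2 = Qj * Pj ^ 4) (s : (li * Yi) ^ 2 * vj ^ 2 = (lj * Yj) ^ 2 * vi ^ 2) :
    Qi * Pi ^ 2 * Ui ^ 2 * vj ^ 2 = Qj * Pj ^ 2 * Uj ^ 2 * vi ^ 2 := by
  rw [ai, aj]
  linear_combination s - li ^ 2 * vj ^ 2 * yi + lj ^ 2 * vi ^ 2 * yj

theorem v_ne {i j k : Fin 3} (hij : ∀ l : Fin 3, l = i ∨ l = j ∨ l = k) (h : IsLam p lam)
    (hv : CI p v) (hk : lam k = 0) : v i ≠ 0 ∨ v j ≠ 0 := by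
  obtain ⟨⟨l, hl⟩, -⟩ := par h hv
  have h0 := v_zero h hv hk
  rcases hij l with rfl | rfl | rfl
  · exact Or.inl hl
  · exact Or.inr hl
  · exact absurd h0 hl

theorem curve (p : Cone) (i : Fin 3) : p.Y i ^ 2 = quartic p.b i (p.W i) (p.X i) := p.2.2.2.1 i

theorem Y_sq_X {i : Fin 3} (h : p.X i = 0) : p.Y i ^ 2 = quartic p.b i 1 0 * p.W i ^ 4 := by
  rw [curve, h, quartic_X_zero]

theorem Y_sq_W {i : Fin 3} (h : p.W i = 0) : p.Y i ^ 2 = 1 * p.X i ^ 4 := by
  rw [curve, h, quartic_W_zero, one_mul]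

/-- the coordinates of a point with canonical image `v` are among the candidates -/
theorem rat_mem_cand (hv : CI p v) (i : Fin 3) : rat p i ∈ cand p.b v i := by
  obtain ⟨lam, h⟩ := exists_isLam p
  have hb : p.b ∈ BaseSet := p.2.1
  have hb4 : p.b 4 ≠ 0 := hb.2.2.1
  have hrel : p.X 0 * p.X 2 * p.W 1 = p.b 4 * p.X 1 * p.W 0 * p.W 2 := p.2.2.2.2
  have s01 := sq_par h hv 0 1
  have s02 := sq_par h hv 0 2
  have s12 := sq_par h hv 1 2
  have three : ∀ i : Fin 3, i = 0 ∨ i = 1 ∨ i = 2 := by decide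
  by_cases hX0 : p.X 0 = 0
  · have hW0 : p.W 0 ≠ 0 := (cne p 0).resolve_right (fun h2 => h2 hX0)
    rw [hX0, zero_mul, zero_mul] at hrel
    have h12 : p.X 1 = 0 ∨ p.W 2 = 0 := by
      rcases mul_eq_zero.mp hrel.symm with h1 | h1
      · rcases mul_eq_zero.mp h1 with h1 | h1
        · exact Or.inl ((mul_eq_zero.mp h1).resolve_left hb4)
        · exact absurd h1 hW0
      · exact Or.inr h1
    rcases h12 with hX1 | hW2
    · -- case 1
      have hW1 : p.W 1 ≠ 0 := (cne p 1).resolve_right (fun h2 => h2 hX1)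
      have hl2 : lam 2 = 0 := by
        rcases cne p 2 with h2 | h2
        · have := h.h2.1
          rw [hX0, zero_mul] at this
          exact (mul_eq_zero.mp this.symm).resolve_right h2
        · have := h.h2.2
          rw [hX1, mul_zero, zero_mul] at this
          exact (mul_eq_zero.mp this.symm).resolve_right h2
      rcases three i with rfl | rfl | rfl
      · exact rat_of_X hX0
      · exact rat_of_X hX1
      · refine Or.inr (Or.inl (rat_mem_E ?_ ?_))
        · rcases v_ne (i := 0) (j := 1) (k := 2) three h hv hl2 with h3 | h3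
          · exact Or.inr (mul_ne_zero (mul_ne_zero (pow_ne_zero 2 hb4) (quartic_one_zero_ne hb 1)) (pow_ne_zero 2 h3))
          · exact Or.inl (mul_ne_zero (quartic_one_zero_ne hb 0) (pow_ne_zero 2 h3))
        · have := star h.h0.1 h.h1.2 (Y_sq_X hX0) (Y_sq_X hX1) s01
          apply mul_left_cancel₀ (pow_ne_zero 2 (mul_ne_zero hW0 hW1))
          linear_combination this
    · -- case 2
      have hX2 : p.X 2 ≠ 0 := (cne p 2).resolve_left (fun h2 => h2 hW2)
      have hl1 : lam 1 = 0 := by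
        rcases cne p 1 with h2 | h2
        · have := h.h1.2
          rw [hW2, mul_zero] at this
          exact (mul_eq_zero.mp this.symm).resolve_right h2
        · have := h.h1.1
          rw [hX0, zero_mul] at this
          exact (mul_eq_zero.mp this.symm).resolve_right h2
      rcases three i with rfl | rfl | rfl
      · exact rat_of_X hX0
      · refine Or.inr (Or.inl (rat_mem_E ?_ ?_))
        · rcases v_ne (i := 0) (j := 2) (k := 1) (by decide) h hv hl1 with h3 | h3
          · exact Or.inl (mul_ne_zero (pow_ne_zero 2 hb4) (pow_ne_zero 2 h3))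
          · exact Or.inr (mul_ne_zero (quartic_one_zero_ne hb 0) (pow_ne_zero 2 h3))
        · have := star h.h0.1 h.h2.2 (Y_sq_X hX0) (Y_sq_W hW2) s02
          apply mul_left_cancel₀ (pow_ne_zero 2 (mul_ne_zero hW0 hX2))
          linear_combination -this
      · exact rat_of_W hW2
  by_cases hW0 : p.W 0 = 0
  · rw [hW0, mul_zero, zero_mul] at hrel
    have h12 : p.X 2 = 0 ∨ p.W 1 = 0 := by
      rcases mul_eq_zero.mp hrel with h1 | h1
      · exact Or.inl ((mul_eq_zero.mp h1).resolve_left hX0)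
      · exact Or.inr h1
    rcases h12 with hX2 | hW1
    · -- case 3
      have hW2 : p.W 2 ≠ 0 := (cne p 2).resolve_right (fun h2 => h2 hX2)
      have hl1 : lam 1 = 0 := by
        rcases cne p 1 with h2 | h2
        · have := h.h1.2
          rw [hW0, mul_zero, zero_mul] at this
          exact (mul_eq_zero.mp this.symm).resolve_right h2
        · have := h.h1.1
          rw [hX2, mul_zero] at this
          exact (mul_eq_zero.mp this.symm).resolve_right h2
      rcases three i with rfl | rfl | rfl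
      · exact rat_of_W hW0
      · refine Or.inr (Or.inr (rat_mem_E ?_ ?_))
        · rcases v_ne (i := 0) (j := 2) (k := 1) (by decide) h hv hl1 with h3 | h3
          · exact Or.inr (mul_ne_zero (quartic_one_zero_ne hb 2) (pow_ne_zero 2 h3))
          · exact Or.inl (mul_ne_zero (pow_ne_zero 2 hb4) (pow_ne_zero 2 h3))
        · have := star h.h0.2 h.h2.1 (Y_sq_W hW0) (Y_sq_X hX2) s02
          apply mul_left_cancel₀ (pow_ne_zero 2 (mul_ne_zero hX0 hW2))
          linear_combination this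
      · exact rat_of_X hX2
    · -- case 4
      have hX1 : p.X 1 ≠ 0 := (cne p 1).resolve_left (fun h2 => h2 hW1)
      have hl2 : lam 2 = 0 := by
        rcases cne p 2 with h2 | h2
        · have := h.h2.1
          rw [hW1, mul_zero] at this
          exact (mul_eq_zero.mp this.symm).resolve_right h2
        · have := h.h2.2
          rw [hW0, mul_zero] at this
          exact (mul_eq_zero.mp this.symm).resolve_right h2
      rcases three i with rfl | rfl | rfl
      · exact rat_of_W hW0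
      · exact rat_of_W hW1
      · refine Or.inr (Or.inr (rat_mem_E ?_ ?_))
        · rcases v_ne (i := 0) (j := 1) (k := 2) three h hv hl2 with h3 | h3
          · exact Or.inl (pow_ne_zero 2 h3)
          · exact Or.inr (mul_ne_zero (pow_ne_zero 2 hb4) (pow_ne_zero 2 h3))
        · have := star h.h0.2 h.h1.1 (Y_sq_W hW0) (Y_sq_W hW1) s01
          apply mul_left_cancel₀ (pow_ne_zero 2 (mul_ne_zero hX0 hX1))
          linear_combination -this
  by_cases hX1 : p.X 1 = 0
  · -- case 5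
    have hW1 : p.W 1 ≠ 0 := (cne p 1).resolve_right (fun h2 => h2 hX1)
    rw [hX1, mul_zero, zero_mul, zero_mul] at hrel
    have hX2 : p.X 2 = 0 := by
      rcases mul_eq_zero.mp hrel with h1 | h1
      · exact (mul_eq_zero.mp h1).resolve_left hX0
      · exact absurd h1 hW1
    have hW2 : p.W 2 ≠ 0 := (cne p 2).resolve_right (fun h2 => h2 hX2)
    have hl0 : lam 0 = 0 := by
      have := h.h0.1
      rw [hX2, zero_mul] at this
      exact (mul_eq_zero.mp this.symm).resolve_right hW0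
    rcases three i with rfl | rfl | rfl
    · refine Or.inr (Or.inl (rat_mem_E ?_ ?_))
      · rcases v_ne (i := 1) (j := 2) (k := 0) (by decide) h hv hl0 with h3 | h3
        · exact Or.inl (mul_ne_zero (quartic_one_zero_ne hb 2) (pow_ne_zero 2 h3))
        · exact Or.inr (mul_ne_zero (mul_ne_zero (pow_ne_zero 2 hb4) (quartic_one_zero_ne hb 1)) (pow_ne_zero 2 h3))
      · have := star h.h1.2 h.h2.1 (Y_sq_X hX1) (Y_sq_X hX2) s12
        apply mul_left_cancel₀ (pow_ne_zero 2 (mul_ne_zero hW1 hW2))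
        linear_combination -this
    · exact rat_of_X hX1
    · exact rat_of_X hX2
  by_cases hW1 : p.W 1 = 0
  · -- case 6
    rw [hW1, mul_zero] at hrel
    have hW2 : p.W 2 = 0 := by
      rcases mul_eq_zero.mp hrel.symm with h1 | h1
      · rcases mul_eq_zero.mp h1 with h1 | h1
        · rcases mul_eq_zero.mp h1 with h1 | h1
          · exact absurd h1 hb4
          · exact absurd h1 hX1
        · exact absurd h1 hW0
      · exact h1
    have hX2 : p.X 2 ≠ 0 := (cne p 2).resolve_left (fun h2 => h2 hW2)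
    have hl0 : lam 0 = 0 := by
      have := h.h0.1
      rw [hW1, mul_zero] at this
      exact (mul_eq_zero.mp this.symm).resolve_right hW0
    rcases three i with rfl | rfl | rfl
    · refine Or.inr (Or.inr (rat_mem_E ?_ ?_))
      · rcases v_ne (i := 1) (j := 2) (k := 0) (by decide) h hv hl0 with h3 | h3
        · exact Or.inr (mul_ne_zero (pow_ne_zero 2 hb4) (pow_ne_zero 2 h3))
        · exact Or.inl (pow_ne_zero 2 h3)
      · have := star h.h1.1 h.h2.2 (Y_sq_W hW1) (Y_sq_W hW2) s12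
        apply mul_left_cancel₀ (pow_ne_zero 2 (mul_ne_zero hX1 hX2))
        linear_combination this
    · exact rat_of_W hW1
    · exact rat_of_W hW2
  -- the torus part
  have hW2 : p.W 2 ≠ 0 := by
    intro h2
    rw [h2, mul_zero] at hrel
    rcases mul_eq_zero.mp hrel with h3 | h3
    · rcases mul_eq_zero.mp h3 with h3 | h3
      · exact hX0 h3
      · exact (cne p 2).elim (fun h4 => h4 h2) (fun h4 => h4 h3)
    · exact hW1 h3
  have hX2 : p.X 2 ≠ 0 := by
    intro h2
    rw [h2, mul_zero, zero_mul] at hrel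
    exact mul_ne_zero (mul_ne_zero (mul_ne_zero hb4 hX1) hW0) hW2 hrel.symm
  have hW : ∀ i, p.W i ≠ 0 := by
    intro i
    rcases three i with rfl | rfl | rfl <;> assumption
  have hX : ∀ i, p.X i ≠ 0 := by
    intro i
    rcases three i with rfl | rfl | rfl <;> assumption
  have hlam : ∀ i, lam i * (p.W i * p.X i) = p.X 0 * p.X 2 * p.W 1 := by
    intro i
    rcases three i with rfl | rfl | rfl
    · linear_combination -p.X 0 * h.h0.1
    · linear_combination -p.W 1 * h.h1.1
    · linear_combination -p.X 2 * h.h2.1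
  have hρ : p.X 0 * p.X 2 * p.W 1 ≠ 0 := mul_ne_zero (mul_ne_zero hX0 hX2) hW1
  have hq : ∀ i, (lam i * p.Y i) ^ 2 * (p.X i / p.W i) ^ 2 =
      (p.X 0 * p.X 2 * p.W 1) ^ 2 * quartic p.b i 1 (p.X i / p.W i) := by
    intro i
    have hWi := hW i
    have h1 := curve p i
    rw [quartic_affine p.b i hWi] at h1
    rw [← hlam i, mul_pow, h1]
    field_simp
  have hZ : (fun i => p.X i / p.W i) ∈ Z p.b v := by
    obtain ⟨⟨j, hj⟩, -⟩ := par h hv
    have hxj : p.X j / p.W j ≠ 0 := div_ne_zero (hX j) (hW j)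
    refine ⟨⟨quartic p.b j 1 (p.X j / p.W j) / (v j ^ 2 * (p.X j / p.W j) ^ 2), fun i => ?_⟩, ?_⟩
    · have h1 := sq_par h hv i j
      have hne : v j ^ 2 * (p.X j / p.W j) ^ 2 ≠ 0 := mul_ne_zero (pow_ne_zero 2 hj) (pow_ne_zero 2 hxj)
      rw [div_mul_eq_mul_div, eq_div_iff hne]
      apply mul_left_cancel₀ (pow_ne_zero 2 hρ)
      linear_combination (p.X i / p.W i) ^ 2 * (p.X j / p.W j) ^ 2 * h1
        - v j ^ 2 * (p.X j / p.W j) ^ 2 * hq i + v i ^ 2 * (p.X i / p.W i) ^ 2 * hq j
    · have h0 := hW 0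
      have h1 := hW 1
      have h2 := hW 2
      simp only
      field_simp
      linear_combination hrel
  refine Or.inl (Or.inr ⟨p.X i / p.W i, ⟨_, hZ, rfl⟩, ?_⟩)
  simp [rat, hW i]

/-! ### Finitely many points with given coordinates -/

/-- rescaling of the homogeneous coordinates -/
def scale (p : Cone) (c : Fin 3 → ℂ) (hc : ∀ i, c i ≠ 0) : Cone :=
  ⟨(p.b, fun i => c i * p.W i, fun i => c i * p.X i, fun i => c i ^ 2 * p.Y i), p.2.1,
    fun i => (cne p i).imp (mul_ne_zero (hc i)) (mul_ne_zero (hc i)),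
    fun i => by
      have h1 := curve p i
      simp only
      rw [quartic_smul, ← h1]
      ring,
    by
      have h1 : p.X 0 * p.X 2 * p.W 1 = p.b 4 * p.X 1 * p.W 0 * p.W 2 := p.2.2.2.2
      simp only
      linear_combination (c 0 * c 1 * c 2) * h1⟩

theorem mk_scale (p : Cone) (c : Fin 3 → ℂ) (hc : ∀ i, c i ≠ 0) : Total.mk (scale p c hc) = Total.mk p := by
  refine (Quotient.sound ?_).symm
  refine ⟨rfl, c, 1, hc, Or.inl rfl, fun i => ⟨rfl, rfl, ?_⟩⟩
  rw [one_mul]
  rfl

/-- the normalised coordinate `W` -/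
def nw : Option ℂ → ℂ
  | none => 0
  | some _ => 1

/-- the normalised coordinate `X` -/
def nx : Option ℂ → ℂ
  | none => 1
  | some x => x

theorem exists_normal (p : Cone) : ∃ q : Cone, Total.mk q = Total.mk p ∧ q.b = p.b ∧
    ∀ i, q.W i = nw (rat p i) ∧ q.X i = nx (rat p i) := by
  classical
  have hc : ∀ i, (if p.W i = 0 then (p.X i)⁻¹ else (p.W i)⁻¹) ≠ 0 := by
    intro i
    split_ifs with h
    · exact inv_ne_zero ((cne p i).resolve_left (fun h2 => h2 h))
    · exact inv_ne_zero h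
  refine ⟨scale p (fun i => if p.W i = 0 then (p.X i)⁻¹ else (p.W i)⁻¹) hc, mk_scale _ _ _, rfl, fun i => ?_⟩
  have e1 : (scale p (fun i => if p.W i = 0 then (p.X i)⁻¹ else (p.W i)⁻¹) hc).W i =
      (if p.W i = 0 then (p.X i)⁻¹ else (p.W i)⁻¹) * p.W i := rfl
  have e2 : (scale p (fun i => if p.W i = 0 then (p.X i)⁻¹ else (p.W i)⁻¹) hc).X i =
      (if p.W i = 0 then (p.X i)⁻¹ else (p.W i)⁻¹) * p.X i := rfl
  rw [e1, e2]
  by_cases h : p.W i = 0
  · have hX : p.X i ≠ 0 := (cne p i).resolve_left (fun h2 => h2 h)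
    simp [rat, h, nw, nx, hX]
  · simp only [rat, h, nw, nx, if_false]
    exact ⟨inv_mul_cancel₀ h, by field_simp⟩

theorem finite_of_rat (b : Param) (ρ : Fin 3 → Option ℂ) :
    {q : Cone | q.b = b ∧ ∀ i, q.W i = nw (ρ i) ∧ q.X i = nx (ρ i)}.Finite := by
  have h1 : ∀ c : ℂ, {y : ℂ | y ^ 2 = c}.Finite := by
    intro c
    have h2 : (Polynomial.X ^ 2 - Polynomial.C c : Polynomial ℂ) ≠ 0 := Polynomial.X_pow_sub_C_ne_zero (by norm_num) c
    refine (Polynomial.finite_setOfPred_isRoot h2).subset ?_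
    intro y hy
    rw [Set.mem_ofPred_eq] at hy ⊢
    simp [Polynomial.IsRoot.def, hy]
  refine Set.Finite.of_finite_image (f := fun q : Cone => q.Y)
    ((Set.Finite.pi' fun i => h1 (quartic b i (nw (ρ i)) (nx (ρ i)))).subset ?_) ?_
  · rintro _ ⟨q, ⟨hb, hq⟩, rfl⟩ i
    rw [Set.mem_ofPred_eq, curve, hb, (hq i).1, (hq i).2]
  · rintro q ⟨hb, hq⟩ q' ⟨hb', hq'⟩ hY
    refine Subtype.ext (Prod.ext (hb.trans hb'.symm) (Prod.ext ?_ (Prod.ext ?_ hY)))
    · funext i
      exact (hq i).1.trans (hq' i).1.symm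
    · funext i
      exact (hq i).2.trans (hq' i).2.symm

/-- **The canonical map is finite.**  For every `b` and every `v` only finitely many points of `S_b` have the
canonical image `[v] ∈ ℙ²`. -/
theorem ci_finite (b : Param) (v : Fin 3 → ℂ) :
    {P : Total | ∃ p : Cone, Total.mk p = P ∧ p.b = b ∧ CI p v}.Finite := by
  by_cases hb : b ∈ BaseSet
  · refine ((Set.Finite.pi' fun i => cand_finite hb v i).biUnion
      (fun ρ _ => (finite_of_rat b ρ).image Total.mk)).subset ?_
    rintro P ⟨p, rfl, hpb, hv⟩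
    obtain ⟨q, hq, hqb, h⟩ := exists_normal p
    simp only [Set.mem_iUnion, exists_prop]
    refine ⟨rat p, fun i => ?_, q, ⟨hqb.trans hpb, h⟩, hq⟩
    rw [← hpb]
    exact rat_mem_cand hv i
  · refine Set.finite_empty.subset ?_
    rintro P ⟨p, rfl, hpb, -⟩
    exact hb (hpb ▸ p.2.1)

/-! ### The statements of `CanonDef.lean` -/

theorem isCanonicalImage_iff : IsCanonicalImage p v ↔ CI p v := by
  constructor
  · intro h u hu w hw s t hs ht
    exact h u w s t ⟨isTan_iff.mpr hu, hs⟩ ⟨isTan_iff.mpr hw, ht⟩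
  · rintro h u w s t ⟨hu, hs⟩ ⟨hw, ht⟩
    exact h u (isTan_iff.mp hu) w (isTan_iff.mp hw) s t hs ht

/-- every point has a canonical image -/
theorem exists_canonicalImage (p : Cone) : ∃ v : Fin 3 → ℂ, v ≠ 0 ∧ IsCanonicalImage p v := by
  obtain ⟨v, h0, h⟩ := exists_ci p
  exact ⟨v, h0, isCanonicalImage_iff.mpr h⟩

/-- the canonical image is unique up to a factor -/
theorem canonicalImage_unique {v' : Fin 3 → ℂ} (hv : IsCanonicalImage p v) (hv' : IsCanonicalImage p v') :
    ∃ c : ℂ, c ≠ 0 ∧ v' = c • v :=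
  ci_unique (isCanonicalImage_iff.mp hv) (isCanonicalImage_iff.mp hv')

/-- **The canonical map is finite.**  For every `b` and every `v` only finitely many points of `S_b` have the
canonical image `[v] ∈ ℙ²`. -/
theorem canonical_finite (b : Param) (v : Fin 3 → ℂ) :
    {P : Total | ∃ p : Cone, Total.mk p = P ∧ p.b = b ∧ IsCanonicalImage p v}.Finite := by
  refine (ci_finite b v).subset ?_
  rintro P ⟨p, hP, hb, h⟩
  exact ⟨p, hP, hb, isCanonicalImage_iff.mp h⟩

/-- the three forms have no common zero -/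
theorem noCommonZero (p : Cone) : NoCommonZero p := by
  obtain ⟨i, u, hu, w, hw, s, t, hs, ht, h⟩ := no_common_zero p
  exact ⟨u, w, s, t, ⟨isTan_iff.mpr hu, hs⟩, ⟨isTan_iff.mpr hw, ht⟩, i, h⟩

/-- **The canonical map of `S_b` is a finite morphism to `ℙ²`.** -/
theorem finiteCanonicalMap (b : Param) : FiniteCanonicalMap b := by
  refine ⟨fun p _ => ⟨noCommonZero p, exists_canonicalImage p, fun v v' h h' => ?_⟩, fun v => canonical_finite b v⟩
  obtain ⟨c, -, rfl⟩ := canonicalImage_unique h h'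
  exact ⟨c, fun _ => rfl⟩

end TripleBurger.Canon
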