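import Pool.Agent.K3G.Exist

/-!
# The affine coordinate ring of `S_b`

`A b` is the `ℂ`-algebra with generators `x₀, x₁, x₂, w₀, w₁, w₂` and relations
`x₀ x₂ = μ x₁`, `wᵢ² = f_{i+1}(x_{i+1}) f_{i+2}(x_{i+2})`, `w_{i+1} w_{i+2} = f_i(x_i) w_i`.
It is a domain, its field of fractions is the function field of `S_b`, and its `ℂ`-points are the
solutions of the six equations.
-/

set_option autoImplicit false

noncomputable section
namespace Pool.Agent.K3G

open Polynomial TripleBurger Exist

/-- the generators `x i` as polynomials -/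
def gx (i : Fin 3) : P6 := MvPolynomial.X (Sum.inl i)

/-- the generators `w i` as polynomials -/
def gw (i : Fin 3) : P6 := MvPolynomial.X (Sum.inr i)

/-- the relation `x₀ x₂ = μ x₁` -/
def rel0 (b : Param) : P6 := gx 0 * gx 2 - MvPolynomial.C (b 4) * gx 1

/-- the relations `wᵢ² = f_{i+1}(x_{i+1}) f_{i+2}(x_{i+2})` -/
def rel1 (b : Param) (i : Fin 3) : P6 :=
  gw i ^ 2 - Polynomial.aeval (gx (i + 1)) (fpoly b (i + 1)) *
    Polynomial.aeval (gx (i + 2)) (fpoly b (i + 2))

/-- the relations `w_{i+1} w_{i+2} = f_i(x_i) w_i` -/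
def rel2 (b : Param) (i : Fin 3) : P6 :=
  gw (i + 1) * gw (i + 2) - Polynomial.aeval (gx i) (fpoly b i) * gw i

/-- the ideal of the relations -/
def relIdeal (b : Param) : Ideal P6 :=
  Ideal.span ({rel0 b} ∪ Set.range (rel1 b) ∪ Set.range (rel2 b))

/-- the affine coordinate ring of the chart of `S_b` -/
abbrev CoordRing (b : Param) : Type := P6 ⧸ relIdeal b

variable {b : Param}

theorem aeval_rel0 {R : Type*} [CommRing R] [Algebra ℂ R] (x w : Fin 3 → R) :
    MvPolynomial.aeval (Sum.elim x w) (rel0 b) = x 0 * x 2 - algebraMap ℂ R (b 4) * x 1 := by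
  simp [rel0, gx]

theorem aeval_rel1 {R : Type*} [CommRing R] [Algebra ℂ R] (x w : Fin 3 → R) (i : Fin 3) :
    MvPolynomial.aeval (Sum.elim x w) (rel1 b i) = w i ^ 2 -
      aeval (x (i + 1)) (fpoly b (i + 1)) * aeval (x (i + 2)) (fpoly b (i + 2)) := by
  simp [rel1, gx, gw, ← Polynomial.aeval_algHom_apply]

theorem aeval_rel2 {R : Type*} [CommRing R] [Algebra ℂ R] (x w : Fin 3 → R) (i : Fin 3) :
    MvPolynomial.aeval (Sum.elim x w) (rel2 b i) = w (i + 1) * w (i + 2) -
      aeval (x i) (fpoly b i) * w i := by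
  simp [rel2, gx, gw, ← Polynomial.aeval_algHom_apply]

/-- the relations hold for `(x, w)` if and only if the ideal is mapped to zero -/
theorem relIdeal_le_ker_iff {R : Type} [CommRing R] [Algebra ℂ R] (x w : Fin 3 → R) :
    relIdeal b ≤ RingHom.ker (MvPolynomial.aeval (R := ℂ) (Sum.elim x w)) ↔ Rel b x w := by
  rw [relIdeal, Ideal.span_le]
  constructor
  · intro h
    refine ⟨?_, fun i => ?_, fun i => ?_⟩
    · have h0 := h (Or.inl (Or.inl rfl))
      rw [SetLike.mem_coe, RingHom.mem_ker, aeval_rel0] at h0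
      exact sub_eq_zero.1 h0
    · have h0 := h (Or.inl (Or.inr ⟨i, rfl⟩))
      rw [SetLike.mem_coe, RingHom.mem_ker, aeval_rel1] at h0
      exact sub_eq_zero.1 h0
    · have h0 := h (Or.inr ⟨i, rfl⟩)
      rw [SetLike.mem_coe, RingHom.mem_ker, aeval_rel2] at h0
      exact sub_eq_zero.1 h0
  · rintro ⟨h0, h1, h2⟩ P ((hP | ⟨i, hP⟩) | ⟨i, hP⟩)
    · rw [Set.mem_singleton_iff] at hP
      rw [hP, SetLike.mem_coe, RingHom.mem_ker, aeval_rel0, h0, sub_self]
    · rw [← hP, SetLike.mem_coe, RingHom.mem_ker, aeval_rel1, h1, sub_self]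
    · rw [← hP, SetLike.mem_coe, RingHom.mem_ker, aeval_rel2, h2, sub_self]

/-- the class of `x i` -/
def cx (b : Param) (i : Fin 3) : CoordRing b := Ideal.Quotient.mk _ (gx i)

/-- the class of `w i` -/
def cw (b : Param) (i : Fin 3) : CoordRing b := Ideal.Quotient.mk _ (gw i)

theorem aeval_class (P : P6) :
    MvPolynomial.aeval (Sum.elim (cx b) (cw b)) P = Ideal.Quotient.mk (relIdeal b) P := by
  have h : MvPolynomial.aeval (Sum.elim (cx b) (cw b)) = Ideal.Quotient.mkₐ ℂ (relIdeal b) := by
    apply MvPolynomial.algHom_ext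
    intro i
    rw [MvPolynomial.aeval_X]
    rcases i with i | i <;> rfl
  rw [h]
  rfl

theorem rel_class (b : Param) : Rel b (cx b) (cw b) := by
  rw [← relIdeal_le_ker_iff]
  intro P hP
  rw [RingHom.mem_ker, aeval_class, Ideal.Quotient.eq_zero_iff_mem]
  exact hP

/-- a polynomial is in the ideal if and only if it vanishes at all points of the chart -/
theorem mem_relIdeal_iff (hb : b ∈ BaseSet) (P : P6) : P ∈ relIdeal b ↔
    ∀ p : Cone, p.b = b → (∀ i, p.W i = 1) →
      MvPolynomial.eval (Sum.elim p.X (fun i => p.Y (i + 1) * p.Y (i + 2))) P = 0 := by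
  constructor
  · intro hP p hp hW
    have h := (relIdeal_le_ker_iff (b := b) p.X (fun i => p.Y (i + 1) * p.Y (i + 2))).2
      (rel_point hp hW) hP
    rwa [RingHom.mem_ker, aev] at h
  · intro hP
    obtain ⟨p, q, h⟩ := normal_form hb P
    obtain ⟨hp, hq⟩ := vanish_iff hb P p q h hP
    have h1 := h _ (cx b) (cw b) (rel_class b)
    rw [aeval_class, hp, hq 0, hq 1, hq 2] at h1
    simp only [map_zero, zero_mul, add_zero] at h1
    rwa [Ideal.Quotient.eq_zero_iff_mem] at h1

section Field

variable {K : Type} [Field K] [Algebra ℂ K] {x w : Fin 3 → K}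

theorem IsFunctionField.relOf (h : IsFunctionField b K x w) : Rel b x w := by
  rw [← relIdeal_le_ker_iff]
  intro P hP
  rw [RingHom.mem_ker, h.zero_iff]
  intro p hp hW
  have h1 := (relIdeal_le_ker_iff (b := b) p.X (fun i => p.Y (i + 1) * p.Y (i + 2))).2
    (rel_point hp hW) hP
  rwa [RingHom.mem_ker, aev] at h1

theorem IsFunctionField.ker_eq (hb : b ∈ BaseSet) (h : IsFunctionField b K x w) :
    RingHom.ker (MvPolynomial.aeval (R := ℂ) (Sum.elim x w)) = relIdeal b := by
  ext P
  rw [RingHom.mem_ker, h.zero_iff, mem_relIdeal_iff hb]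

/-- the map from the coordinate ring to the function field -/
def toField (h : IsFunctionField b K x w) : CoordRing b →ₐ[ℂ] K :=
  Ideal.Quotient.liftₐ (relIdeal b) (MvPolynomial.aeval (Sum.elim x w))
    (fun P hP => (relIdeal_le_ker_iff x w).2 h.relOf hP)

theorem toField_mk (h : IsFunctionField b K x w) (P : P6) :
    toField h (Ideal.Quotient.mk _ P) = MvPolynomial.aeval (Sum.elim x w) P := rfl

@[simp] theorem toField_cx (h : IsFunctionField b K x w) (i : Fin 3) : toField h (cx b i) = x i := by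
  rw [cx, toField_mk, gx, MvPolynomial.aeval_X, Sum.elim_inl]

@[simp] theorem toField_cw (h : IsFunctionField b K x w) (i : Fin 3) : toField h (cw b i) = w i := by
  rw [cw, toField_mk, gw, MvPolynomial.aeval_X, Sum.elim_inr]

theorem toField_injective (hb : b ∈ BaseSet) (h : IsFunctionField b K x w) :
    Function.Injective (toField h) := by
  rw [injective_iff_map_eq_zero]
  intro a ha
  obtain ⟨P, rfl⟩ := Ideal.Quotient.mk_surjective a
  rw [toField_mk, h.zero_iff, ← mem_relIdeal_iff hb] at ha
  rwa [Ideal.Quotient.eq_zero_iff_mem]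

/-- every element of the function field is a quotient of two elements of the coordinate ring -/
theorem exists_div (h : IsFunctionField b K x w) (z : K) :
    ∃ a c : CoordRing b, z = toField h a / toField h c := by
  have hz : z ∈ IntermediateField.adjoin ℂ (Set.range x ∪ Set.range w) := by
    rw [h.gen]
    trivial
  rw [IntermediateField.mem_adjoin_iff_div] at hz
  obtain ⟨r, hr, s, hs, rfl⟩ := hz
  have hsub : Algebra.adjoin ℂ (Set.range x ∪ Set.range w) ≤ (toField h).range := by
    rw [Algebra.adjoin_le_iff]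
    rintro y (⟨i, rfl⟩ | ⟨i, rfl⟩)
    · exact ⟨cx b i, toField_cx h i⟩
    · exact ⟨cw b i, toField_cw h i⟩
  obtain ⟨a, ha⟩ := hsub hr
  obtain ⟨c, hc⟩ := hsub hs
  exact ⟨a, c, by rw [← ha, ← hc]; rfl⟩

end Field

/-- the coordinate ring is a domain -/
theorem coordRing_isDomain (hb : b ∈ BaseSet) : IsDomain (CoordRing b) := by
  obtain ⟨K, _, _, x, w, h⟩ := exists_functionField hb
  exact (toField_injective hb h).isDomain (toField h).toRingHom

/-- **The function field of `S_b` is the field of fractions of the coordinate ring.** -/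
theorem isFractionRing (hb : b ∈ BaseSet) {K : Type} [Field K] [Algebra ℂ K] {x w : Fin 3 → K}
    (h : IsFunctionField b K x w) :
    letI := (toField h).toRingHom.toAlgebra
    IsFractionRing (CoordRing b) K := by
  letI := (toField h).toRingHom.toAlgebra
  have hinj := toField_injective hb h
  haveI := coordRing_isDomain hb
  refine { map_units := ?_, surj := ?_, exists_of_eq := ?_ }
  · intro y
    have hy : (y : CoordRing b) ≠ 0 := nonZeroDivisors.ne_zero y.2
    exact IsUnit.mk0 _ fun h0 => hy (hinj (h0.trans (map_zero _).symm))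
  · intro z
    obtain ⟨a, c, hz⟩ := exists_div h z
    by_cases hc : c = 0
    · refine ⟨(0, 1), ?_⟩
      rw [hz, hc, map_zero, div_zero]
      simp
    · refine ⟨(a, ⟨c, mem_nonZeroDivisors_of_ne_zero hc⟩), ?_⟩
      have hc' : toField h c ≠ 0 := fun h0 => hc (hinj (h0.trans (map_zero _).symm))
      show z * toField h c = toField h a
      rw [hz, div_mul_cancel₀ _ hc']
  · intro a c hac
    exact ⟨1, by rw [hinj hac]⟩

/-- **The `ℂ`-points of the coordinate ring are the solutions of the equations.** -/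
def pointsEquiv (b : Param) : (CoordRing b →ₐ[ℂ] ℂ) ≃
    {v : (Fin 3 → ℂ) × (Fin 3 → ℂ) // Rel b v.1 v.2} where
  toFun φ := ⟨(fun i => φ (cx b i), fun i => φ (cw b i)), by
    rw [← relIdeal_le_ker_iff]
    intro P hP
    rw [RingHom.mem_ker]
    have h : MvPolynomial.aeval (R := ℂ) (Sum.elim (fun i => φ (cx b i)) (fun i => φ (cw b i))) =
        φ.comp (MvPolynomial.aeval (Sum.elim (cx b) (cw b))) := by
      apply MvPolynomial.algHom_ext
      intro i
      rcases i with i | i <;> simp
    show MvPolynomial.aeval (R := ℂ)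
      (Sum.elim (fun i => φ (cx b i)) (fun i => φ (cw b i))) P = 0
    rw [h, AlgHom.comp_apply, aeval_class, Ideal.Quotient.eq_zero_iff_mem.2 hP, map_zero]⟩
  invFun v := Ideal.Quotient.liftₐ (relIdeal b) (MvPolynomial.aeval (Sum.elim v.1.1 v.1.2))
    (fun P hP => (relIdeal_le_ker_iff v.1.1 v.1.2).2 v.2 hP)
  left_inv φ := by
    apply Ideal.Quotient.algHom_ext
    apply MvPolynomial.algHom_ext
    intro i
    rcases i with i | i
    · show MvPolynomial.aeval (R := ℂ) _ (MvPolynomial.X (Sum.inl i)) = φ (cx b i)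
      rw [MvPolynomial.aeval_X]
      rfl
    · show MvPolynomial.aeval (R := ℂ) _ (MvPolynomial.X (Sum.inr i)) = φ (cw b i)
      rw [MvPolynomial.aeval_X]
      rfl
  right_inv v := by
    apply Subtype.ext
    refine Prod.ext ?_ ?_
    · funext i
      show MvPolynomial.aeval (R := ℂ) (Sum.elim v.1.1 v.1.2) (MvPolynomial.X (Sum.inl i)) = v.1.1 i
      rw [MvPolynomial.aeval_X, Sum.elim_inl]
    · funext i
      show MvPolynomial.aeval (R := ℂ) (Sum.elim v.1.1 v.1.2) (MvPolynomial.X (Sum.inr i)) = v.1.2 i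
      rw [MvPolynomial.aeval_X, Sum.elim_inr]

end Pool.Agent.K3G
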