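import Pool.Agent.helper10.K3S.NoRatDef

/-!
# K3B: the surfaces `S_b` contain no rational curve

Every `ℂ(t)`-point of `S_b` is constant (comes from a `ℂ`-point); so `S_b` contains no rational curve, in
particular no `(-1)`-curve: it is a minimal surface.

* `reid`: if `p, q ∈ ℂ[t]` are coprime and `p - r_j q` is a square for four distinct `r_j ∈ ℂ` then `p, q`
  are constants (infinite descent).
* `poly_point`: `W_i, X_i ∈ ℂ[t]` coprime, `F_i F_j` a square, `X₀X₂W₁ = μX₁W₀W₂` ⟹ `W_i, X_i` constants.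
* `no_rational_curve`: every `ℂ(t)`-point (`IsRatPoint`: coordinates `W_i, X_i` and products
  `T_i = Y_{i+1} Y_{i+2}` in `ℂ(t)` with the equations of `S_b`) is, up to rescaling, a point of `Cone`.
-/

set_option autoImplicit false

namespace TripleBurger

open Polynomial

theorem IsRatPoint.sq {b : Param} {W V T : Fin 3 → RatFunc ℂ} (h : IsRatPoint b W V T) (i : Fin 3) :
    T i ^ 2 = quarticA b (i + 1) (W (i + 1)) (V (i + 1)) * quarticA b (i + 2) (W (i + 2)) (V (i + 2)) :=
  h.sq_eq i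

theorem IsRatPoint.mul {b : Param} {W V T : Fin 3 → RatFunc ℂ} (h : IsRatPoint b W V T) (i : Fin 3) :
    T (i + 1) * T (i + 2) = quarticA b i (W i) (V i) * T i := h.mul_eq i

theorem IsRatPoint.rel {b : Param} {W V T : Fin 3 → RatFunc ℂ} (h : IsRatPoint b W V T) :
    V 0 * V 2 * W 1 = algebraMap ℂ (RatFunc ℂ) (b 4) * V 1 * W 0 * W 2 := h.rel_eq

namespace NoRat

/-! ### Squares in `ℂ[t]` -/

theorem isSquare_complex (c : ℂ) : IsSquare c := by
  obtain ⟨z, hz⟩ := IsAlgClosed.exists_pow_nat_eq c (n := 2) two_pos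
  exact ⟨z, by rw [← hz, sq]⟩

theorem isSquare_C (c : ℂ) : IsSquare (C c : ℂ[X]) := (isSquare_complex c).map C

theorem isSquare_of_natDegree_zero {p : ℂ[X]} (h : p.natDegree = 0) : IsSquare p := by
  rw [eq_C_of_natDegree_eq_zero h]; exact isSquare_C _

/-- a divisor of a square which is coprime to the cofactor is a square -/
theorem isSquare_of_coprime_mul {a b c : ℂ[X]} (h : IsCoprime a b) (hc : a * b = c * c) :
    IsSquare a := by
  obtain ⟨d, hd⟩ := exists_associated_pow_of_mul_eq_pow' h (by rw [hc, sq] : a * b = c ^ 2)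
  obtain ⟨u, hu⟩ := hd
  rw [← hu]
  have h1 : IsSquare ((u : ℂ[X])) := by
    apply isSquare_of_natDegree_zero
    exact natDegree_eq_zero_of_isUnit u.isUnit
  exact (IsSquare.sq d).mul h1

theorem isSquare_of_C_mul {c : ℂ} (hc : c ≠ 0) {a : ℂ[X]} (h : IsSquare (C c * a)) : IsSquare a := by
  have h1 : a = C c⁻¹ * (C c * a) := by
    rw [← mul_assoc, ← C_mul, inv_mul_cancel₀ hc, C_1, one_mul]
  rw [h1]
  exact (isSquare_C _).mul h

/-- **Reid's lemma** -/
theorem reid (n : ℕ) : ∀ (p q : ℂ[X]), IsCoprime p q → ∀ r : Fin 4 → ℂ, Function.Injective r →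
    (∀ j, IsSquare (p - C (r j) * q)) → p.natDegree ≤ n → q.natDegree ≤ n →
    p.natDegree = 0 ∧ q.natDegree = 0 := by
  induction n using Nat.strong_induction_on with
  | _ n ih =>
  intro p q hpq r hr hsq hp hq
  rcases Nat.eq_zero_or_pos n with hn | hn
  · subst hn
    exact ⟨Nat.le_zero.1 hp, Nat.le_zero.1 hq⟩
  obtain ⟨A, hA⟩ := hsq 0
  obtain ⟨B, hB⟩ := hsq 1
  have d10 : r 1 - r 0 ≠ 0 := sub_ne_zero.2 fun h => by simpa using hr h
  have eq1 : C (r 1 - r 0) * q = A * A - B * B := by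
    rw [← hA, ← hB, C_sub]; ring
  have eq2 : C (r 1 - r 0) * p = C (r 1) * (A * A) - C (r 0) * (B * B) := by
    rw [← hA, ← hB, C_sub]; ring
  have hAB : IsCoprime A B := by
    obtain ⟨u, v, huv⟩ := hpq
    have h1 : IsCoprime (A * A) (B * B) := by
      refine ⟨C (r 1 - r 0)⁻¹ * (u * C (r 1) + v), C (r 1 - r 0)⁻¹ * (-u * C (r 0) - v), ?_⟩
      have h2 : C (r 1 - r 0)⁻¹ * C (r 1 - r 0) = (1 : ℂ[X]) := by
        rw [← C_mul, inv_mul_cancel₀ d10, C_1]
      calc _ = C (r 1 - r 0)⁻¹ * (u * (C (r 1) * (A * A) - C (r 0) * (B * B))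
            + v * (A * A - B * B)) := by ring
        _ = (C (r 1 - r 0)⁻¹ * C (r 1 - r 0)) * (u * p + v * q) := by
            rw [← eq1, ← eq2]; ring
        _ = 1 := by rw [h2, huv, one_mul]
    exact h1.of_mul_left_left.of_mul_right_left
  have hdeg : ∀ (D : ℂ[X]) (j : Fin 4), p - C (r j) * q = D * D → D.natDegree ≤ n / 2 := by
    intro D j hD
    have h1 : (D * D).natDegree ≤ n := by
      rw [← hD]
      refine (natDegree_sub_le _ _).trans (max_le hp ?_)
      exact (natDegree_C_mul_le _ _).trans hq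
    rw [← sq, natDegree_pow] at h1
    omega
  have hA' := hdeg A 0 hA
  have hB' := hdeg B 1 hB
  -- the two new pairs of squares
  have step : ∀ j : Fin 4, j ≠ 0 → j ≠ 1 → ∃ ρ : ℂ, ρ ≠ 0 ∧ ρ ^ 2 * (r 1 - r j) = r 0 - r j ∧
      IsSquare (A - C ρ * B) ∧ IsSquare (A - C (-ρ) * B) := by
    intro j hj0 hj1
    have d1 : r 1 - r j ≠ 0 := sub_ne_zero.2 fun h => hj1 (hr h).symm
    have d0 : r 0 - r j ≠ 0 := sub_ne_zero.2 fun h => hj0 (hr h).symm
    obtain ⟨ρ, hρ⟩ := isSquare_complex ((r 0 - r j) / (r 1 - r j))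
    have hρ0 : ρ ≠ 0 := by
      rintro rfl
      rw [mul_zero] at hρ
      exact div_ne_zero d0 d1 hρ
    have hρ' : ρ ^ 2 * (r 1 - r j) = r 0 - r j := by
      rw [sq, ← hρ, div_mul_cancel₀ _ d1]
    have key : C (r 1 - r 0) * (p - C (r j) * q)
        = C (r 1 - r j) * ((A - C ρ * B) * (A - C (-ρ) * B)) := by
      have h1 : C (r 0 - r j) = C ρ ^ 2 * C (r 1 - r j) := by
        rw [← C_pow, ← C_mul, hρ']
      calc C (r 1 - r 0) * (p - C (r j) * q)
          = C (r 1 - r 0) * p - C (r j) * (C (r 1 - r 0) * q) := by ring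
        _ = C (r 1 - r j) * (A * A) - C (r 0 - r j) * (B * B) := by
            rw [eq1, eq2, C_sub, C_sub]; ring
        _ = _ := by rw [h1, C_neg]; ring
    have hs : IsSquare ((A - C ρ * B) * (A - C (-ρ) * B)) := by
      apply isSquare_of_C_mul d1
      rw [← key]
      exact (isSquare_C _).mul (hsq j)
    obtain ⟨D, hD⟩ := hs
    have hcop : IsCoprime (A - C ρ * B) (A - C (-ρ) * B) := by
      obtain ⟨u, v, huv⟩ := hAB
      have h2 : C (2 * ρ)⁻¹ * (C 2 * C ρ) = (1 : ℂ[X]) := by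
        rw [← C_mul, ← C_mul, inv_mul_cancel₀ (mul_ne_zero two_ne_zero hρ0), C_1]
      refine ⟨C (2 * ρ)⁻¹ * (u * C ρ - v), C (2 * ρ)⁻¹ * (u * C ρ + v), ?_⟩
      calc _ = C (2 * ρ)⁻¹ * (C 2 * C ρ) * (u * A + v * B) := by
            rw [C_neg, show (C 2 : ℂ[X]) = 2 from rfl]; ring
        _ = 1 := by rw [h2, huv, one_mul]
    exact ⟨ρ, hρ0, hρ', isSquare_of_coprime_mul hcop hD,
      isSquare_of_coprime_mul hcop.symm (by rw [mul_comm, hD])⟩
  obtain ⟨ρ, hρ0, hρ, s1, s2⟩ := step 2 (by decide) (by decide)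
  obtain ⟨σ, hσ0, hσ, s3, s4⟩ := step 3 (by decide) (by decide)
  have hne : ρ ^ 2 ≠ σ ^ 2 := by
    intro h
    rw [← h] at hσ
    have h1 : (r 0 - r 1) * (r 2 - r 3) = 0 := by
      linear_combination -(r 1 - r 3) * hρ + (r 1 - r 2) * hσ
    rcases mul_eq_zero.1 h1 with h2 | h2
    · exact d10 (by rw [← neg_sub, h2, neg_zero])
    · have := hr (sub_eq_zero.1 h2)
      simp at this
  have h1 : ρ ≠ σ := fun h => hne (by rw [h])
  have h2 : ρ ≠ -σ := fun h => hne (by rw [h, neg_sq])
  have h3 : ρ ≠ -ρ := fun h => hρ0 (by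
    have : (2 : ℂ) * ρ = 0 := by linear_combination h
    exact (mul_eq_zero.1 this).resolve_left two_ne_zero)
  have h4 : σ ≠ -σ := fun h => hσ0 (by
    have : (2 : ℂ) * σ = 0 := by linear_combination h
    exact (mul_eq_zero.1 this).resolve_left two_ne_zero)
  have h5 : -ρ ≠ σ := fun h => h2 (by rw [← h, neg_neg])
  have h6 : -ρ ≠ -σ := fun h => h1 (neg_injective h)
  have hinj : Function.Injective ![ρ, -ρ, σ, -σ] := by
    intro i j hij
    fin_cases i <;> fin_cases j <;>
      first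
      | rfl
      | exact (h1 hij).elim
      | exact (h2 hij).elim
      | exact (h3 hij).elim
      | exact (h4 hij).elim
      | exact (h5 hij).elim
      | exact (h6 hij).elim
      | exact (h1 hij.symm).elim
      | exact (h2 hij.symm).elim
      | exact (h3 hij.symm).elim
      | exact (h4 hij.symm).elim
      | exact (h5 hij.symm).elim
      | exact (h6 hij.symm).elim
  have hsq' : ∀ j : Fin 4, IsSquare (A - C ((![ρ, -ρ, σ, -σ] : Fin 4 → ℂ) j) * B) := by
    intro j
    fin_cases j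
    · exact s1
    · exact s2
    · exact s3
    · exact s4
  obtain ⟨a0, b0⟩ := ih (n / 2) (Nat.div_lt_self hn one_lt_two) A B hAB _ hinj hsq' hA' hB'
  have z : ∀ E : ℂ[X], E.natDegree = 0 → (E * E).natDegree = 0 := by
    intro E hE
    rw [← sq, natDegree_pow, hE, mul_zero]
  constructor
  · have h7 : (C (r 1 - r 0) * p).natDegree = 0 := by
      rw [eq2]
      refine Nat.le_zero.1 ((natDegree_sub_le _ _).trans (max_le ?_ ?_))
      · exact (natDegree_C_mul_le _ _).trans (z A a0).le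
      · exact (natDegree_C_mul_le _ _).trans (z B b0).le
    rwa [natDegree_C_mul d10] at h7
  · have h7 : (C (r 1 - r 0) * q).natDegree = 0 := by
      rw [eq1]
      exact Nat.le_zero.1 ((natDegree_sub_le _ _).trans (max_le (z A a0).le (z B b0).le))
    rwa [natDegree_C_mul d10] at h7


/-- a polynomial with even multiplicities is a square -/
theorem isSquare_of_even (n : ℕ) : ∀ G : ℂ[X], G ≠ 0 → G.natDegree ≤ n →
    (∀ a, Even (G.rootMultiplicity a)) → IsSquare G := by
  induction n with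
  | zero =>
    intro G _ hG _
    exact isSquare_of_natDegree_zero (Nat.le_zero.1 hG)
  | succ n ih =>
    intro G hG hn hev
    by_cases hd : G.natDegree = 0
    · exact isSquare_of_natDegree_zero hd
    obtain ⟨a, ha⟩ := IsAlgClosed.exists_root G (by
      intro h
      exact hd (natDegree_eq_of_degree_eq_some h))
    have h1 : 0 < G.rootMultiplicity a := (rootMultiplicity_pos hG).2 ha
    have h2 : 2 ≤ G.rootMultiplicity a := by
      obtain ⟨m, hm⟩ := hev a
      omega
    obtain ⟨G', hG'⟩ := (le_rootMultiplicity_iff hG).1 h2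
    have hG0 : G' ≠ 0 := by
      rintro rfl
      exact hG (by rw [hG', mul_zero])
    have hX : (X - C a) ^ 2 ≠ 0 := pow_ne_zero 2 (X_sub_C_ne_zero a)
    have hdeg : G'.natDegree + 2 = G.natDegree := by
      rw [hG', natDegree_mul hX hG0, natDegree_pow, natDegree_X_sub_C]
      ring
    have hev' : ∀ b, Even (G'.rootMultiplicity b) := by
      intro b
      have h3 := hev b
      rw [hG', rootMultiplicity_mul (mul_ne_zero hX hG0), sq,
        rootMultiplicity_mul (mul_ne_zero (X_sub_C_ne_zero a) (X_sub_C_ne_zero a))] at h3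
      obtain ⟨m, hm⟩ := h3
      exact ⟨m - (X - C a).rootMultiplicity b, by omega⟩
    have h4 := ih G' hG0 (by omega) hev'
    rw [hG']
    exact (IsSquare.sq (X - C a)).mul h4

/-! ### The quartic forms over a `ℂ`-algebra -/

theorem eval_quarticA (b : Param) (i : Fin 3) (W V : ℂ[X]) (a : ℂ) :
    (quarticA b i W V).eval a = quartic b i (W.eval a) (V.eval a) := by
  unfold quarticA quartic
  rw [eval_prod]
  refine Finset.prod_congr rfl fun j _ => ?_
  rw [eval_sub, eval_mul, algebraMap_eq, eval_C]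

theorem coprime_factor {W V : ℂ[X]} (h : IsCoprime W V) {r r' : ℂ} (hr : r ≠ r') :
    IsCoprime (V - C r * W) (V - C r' * W) := by
  obtain ⟨u, v, huv⟩ := h
  have h2 : C (r' - r)⁻¹ * C (r' - r) = (1 : ℂ[X]) := by
    rw [← C_mul, inv_mul_cancel₀ (sub_ne_zero.2 hr.symm), C_1]
  refine ⟨C (r' - r)⁻¹ * (u + v * C r'), C (r' - r)⁻¹ * (-u - v * C r), ?_⟩
  calc _ = C (r' - r)⁻¹ * C (r' - r) * (u * W + v * V) := by rw [C_sub]; ring
    _ = 1 := by rw [h2, huv, one_mul]

theorem coprime_eval {W V : ℂ[X]} (h : IsCoprime W V) (a : ℂ) (h0 : W.eval a = 0)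
    (h1 : V.eval a = 0) : False := by
  obtain ⟨u, v, huv⟩ := h
  have := congrArg (eval a) huv
  rw [eval_add, eval_mul, eval_mul, h0, h1, eval_one] at this
  simp at this

/-- a point of `E_i` with coordinates `W, V ∈ ℂ[t]` coprime whose quartic value is a square is constant -/
theorem const_of_isSquare {b : Param} (hb : b ∈ BaseSet) (i : Fin 3) {W V : ℂ[X]}
    (h : IsCoprime W V) (hs : IsSquare (quarticA b i W V)) : W.natDegree = 0 ∧ V.natDegree = 0 := by
  have hsq : ∀ j, IsSquare (V - C (root b i j) * W) := by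
    intro j
    obtain ⟨c, hc⟩ := hs
    have h1 : quarticA b i W V = (V - C (root b i j) * W) *
        ∏ l ∈ Finset.univ.erase j, (V - C (root b i l) * W) := by
      unfold quarticA
      rw [← Finset.mul_prod_erase Finset.univ _ (Finset.mem_univ j)]
      rfl
    rw [h1] at hc
    refine isSquare_of_coprime_mul ?_ hc
    refine IsCoprime.prod_right fun l hl => coprime_factor h fun h0 => ?_
    exact Finset.ne_of_mem_erase hl (hb.1 i h0).symm
  have := reid (max V.natDegree W.natDegree) V W h.symm (root b i) (hb.1 i) hsq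
    (le_max_left _ _) (le_max_right _ _)
  exact ⟨this.2, this.1⟩

/-- **Polynomial points.** -/
theorem poly_point {b : Param} (hb : b ∈ BaseSet) {W V : Fin 3 → ℂ[X]}
    (hc : ∀ i, IsCoprime (W i) (V i))
    (hs : ∀ i j, i ≠ j → IsSquare (quarticA b i (W i) (V i) * quarticA b j (W j) (V j)))
    (hr : V 0 * V 2 * W 1 = C (b 4) * V 1 * W 0 * W 2) :
    ∀ i, (W i).natDegree = 0 ∧ (V i).natDegree = 0 := by
  -- the three quartic values have no common zero
  have hno : ∀ a : ℂ, ¬ ∀ i, (quarticA b i (W i) (V i)).eval a = 0 := by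
    intro a ha
    have h1 : ∀ i, (W i).eval a ≠ 0 ∧ ∃ j, (V i).eval a = root b i j * (W i).eval a := by
      intro i
      have h2 := ha i
      rw [eval_quarticA] at h2
      unfold quartic at h2
      obtain ⟨j, _, hj⟩ := Finset.prod_eq_zero_iff.1 h2
      have hj' : (V i).eval a = root b i j * (W i).eval a := sub_eq_zero.1 hj
      refine ⟨fun h0 => ?_, j, hj'⟩
      rw [h0, mul_zero] at hj'
      exact coprime_eval (hc i) a h0 hj'
    obtain ⟨w0, j, hj⟩ := h1 0
    obtain ⟨w1, k, hk⟩ := h1 1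
    obtain ⟨w2, l, hl⟩ := h1 2
    have h2 := congrArg (eval a) hr
    simp only [eval_mul, eval_C] at h2
    rw [hj, hk, hl] at h2
    have h3 : (root b 0 j * root b 2 l - b 4 * root b 1 k) *
        ((W 0).eval a * (W 1).eval a * (W 2).eval a) = 0 := by
      linear_combination h2
    rcases mul_eq_zero.1 h3 with h4 | h4
    · exact hb.2.2.2 j k l (sub_eq_zero.1 h4)
    · exact mul_ne_zero (mul_ne_zero w0 w1) w2 h4
  intro i
  by_cases hF : quarticA b i (W i) (V i) = 0
  · -- `V_i = r W_i`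
    refine const_of_isSquare hb i (hc i) ?_
    rw [hF]; exact IsSquare.zero
  · refine const_of_isSquare hb i (hc i) (isSquare_of_even _ _ hF le_rfl fun a => ?_)
    by_contra hodd
    apply hno a
    intro j
    by_cases hij : j = i
    · subst hij
      have h1 : 0 < (quarticA b j (W j) (V j)).rootMultiplicity a := by
        rcases Nat.eq_zero_or_pos ((quarticA b j (W j) (V j)).rootMultiplicity a) with h | h
        · exact absurd (by rw [h]; exact Even.zero) hodd
        · exact h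
      exact (rootMultiplicity_pos hF).1 h1
    · by_cases hFj : quarticA b j (W j) (V j) = 0
      · rw [hFj, eval_zero]
      · obtain ⟨T, hT⟩ := hs i j (Ne.symm hij)
        have hne := mul_ne_zero hF hFj
        have hT0 : T * T ≠ 0 := by rw [← hT]; exact hne
        have h1 := congrArg (rootMultiplicity a) hT
        rw [rootMultiplicity_mul hne, rootMultiplicity_mul hT0] at h1
        have h2 : 0 < (quarticA b j (W j) (V j)).rootMultiplicity a := by
          rcases Nat.eq_zero_or_pos ((quarticA b j (W j) (V j)).rootMultiplicity a) with h | h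
          · exfalso
            rw [h, add_zero] at h1
            exact hodd ⟨_, h1⟩
          · exact h
        exact (rootMultiplicity_pos hFj).1 h2

/-! ### `ℂ(t)`-points -/

theorem quarticA_smul {A : Type*} [CommRing A] [Algebra ℂ A] (b : Param) (i : Fin 3) (c W V : A) :
    quarticA b i (c * W) (c * V) = c ^ 4 * quarticA b i W V := by
  unfold quarticA
  rw [Fin.prod_univ_four, Fin.prod_univ_four]
  ring

theorem quarticA_map {A B : Type*} [CommRing A] [Algebra ℂ A] [CommRing B] [Algebra ℂ B]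
    (f : A →ₐ[ℂ] B) (b : Param) (i : Fin 3) (W V : A) :
    quarticA b i (f W) (f V) = f (quarticA b i W V) := by
  unfold quarticA
  rw [map_prod]
  refine Finset.prod_congr rfl fun j _ => ?_
  rw [map_sub, map_mul, f.commutes]

/-- the embedding `ℂ[t] → ℂ(t)` -/
noncomputable abbrev ι : ℂ[X] →ₐ[ℂ] RatFunc ℂ := IsScalarTower.toAlgHom ℂ ℂ[X] (RatFunc ℂ)

theorem ι_injective : Function.Injective ι := RatFunc.algebraMap_injective ℂ

/-- coprime representatives -/
theorem exists_coprime {w v : RatFunc ℂ} (h : w ≠ 0 ∨ v ≠ 0) :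
    ∃ (c : RatFunc ℂ) (W V : ℂ[X]), c ≠ 0 ∧ IsCoprime W V ∧ w = c * ι W ∧ v = c * ι V := by
  classical
  obtain ⟨⟨d, hd⟩, hd'⟩ := IsLocalization.exist_integer_multiples_of_finset (nonZeroDivisors ℂ[X])
    ({w, v} : Finset (RatFunc ℂ))
  obtain ⟨W₀, hW⟩ := hd' w (by simp)
  obtain ⟨V₀, hV⟩ := hd' v (by simp)
  have hd0 : ι d ≠ 0 := by
    intro h0
    have : d = 0 := ι_injective (by rw [h0, map_zero])
    exact nonZeroDivisors.ne_zero hd this
  have hW' : ι W₀ = ι d * w := by
    rw [show ι W₀ = algebraMap ℂ[X] (RatFunc ℂ) W₀ from rfl, hW]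
    show d • w = _
    rw [Algebra.smul_def]; rfl
  have hV' : ι V₀ = ι d * v := by
    rw [show ι V₀ = algebraMap ℂ[X] (RatFunc ℂ) V₀ from rfl, hV]
    show d • v = _
    rw [Algebra.smul_def]; rfl
  have hne : W₀ ≠ 0 ∨ V₀ ≠ 0 := by
    rcases h with h | h
    · left
      rintro rfl
      rw [map_zero] at hW'
      exact mul_ne_zero hd0 h hW'.symm
    · right
      rintro rfl
      rw [map_zero] at hV'
      exact mul_ne_zero hd0 h hV'.symm
  have hg : gcd W₀ V₀ ≠ 0 := by
    intro h0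
    have := (gcd_eq_zero_iff _ _).1 h0
    tauto
  obtain ⟨W, hW1⟩ := gcd_dvd_left W₀ V₀
  obtain ⟨V, hV1⟩ := gcd_dvd_right W₀ V₀
  have hg' : ι (gcd W₀ V₀) ≠ 0 := fun h0 => hg (ι_injective (by rw [h0, map_zero]))
  refine ⟨(ι d)⁻¹ * ι (gcd W₀ V₀), W, V, mul_ne_zero (inv_ne_zero hd0) hg', ?_, ?_, ?_⟩
  · obtain ⟨x, y, hxy⟩ := exists_gcd_eq_mul_add_mul W₀ V₀
    refine ⟨x, y, ?_⟩
    apply mul_left_cancel₀ hg
    calc gcd W₀ V₀ * (x * W + y * V) = (gcd W₀ V₀ * W) * x + (gcd W₀ V₀ * V) * y := by ring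
      _ = W₀ * x + V₀ * y := by rw [← hW1, ← hV1]
      _ = gcd W₀ V₀ * 1 := by rw [← hxy, mul_one]
  · rw [mul_assoc, ← map_mul, ← hW1, hW', ← mul_assoc, inv_mul_cancel₀ hd0, one_mul]
  · rw [mul_assoc, ← map_mul, ← hV1, hV', ← mul_assoc, inv_mul_cancel₀ hd0, one_mul]

/-- a polynomial which is a square in `ℂ(t)` is a square in `ℂ[t]` -/
theorem isSquare_of_ratFunc {G : ℂ[X]} {T : RatFunc ℂ} (h : T ^ 2 = ι G) :
    ∃ S : ℂ[X], ι S = T ∧ S ^ 2 = G := by
  obtain ⟨S, hS⟩ := IsIntegrallyClosed.exists_algebraMap_eq_of_isIntegral_pow (R := ℂ[X])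
    (K := RatFunc ℂ) (x := T) (n := 2) two_pos (by
      rw [h]; exact isIntegral_algebraMap)
  refine ⟨S, hS, ι_injective ?_⟩
  rw [map_pow, show ι S = T from hS, h]

theorem fin3_cases (k i : Fin 3) : i = k ∨ i = k + 1 ∨ i = k + 2 := by
  fin_cases k <;> fin_cases i <;> simp

/-- a point of `S_b` over `ℂ`, given by `W_i, X_i` and the products `t_i = Y_{i+1} Y_{i+2}`, comes from
the cone -/
theorem exists_cone {b : Param} (hb : b ∈ BaseSet) {w v t : Fin 3 → ℂ}
    (hne : ∀ i, w i ≠ 0 ∨ v i ≠ 0)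
    (hsq : ∀ i, t i ^ 2 = quartic b (i + 1) (w (i + 1)) (v (i + 1)) *
      quartic b (i + 2) (w (i + 2)) (v (i + 2)))
    (hmul : ∀ i, t (i + 1) * t (i + 2) = quartic b i (w i) (v i) * t i)
    (hr : v 0 * v 2 * w 1 = b 4 * v 1 * w 0 * w 2) :
    ∃ p : Cone, p.b = b ∧ p.W = w ∧ p.X = v ∧ ∀ i, t i = p.Y (i + 1) * p.Y (i + 2) := by
  obtain ⟨y, hy, hy'⟩ : ∃ y : Fin 3 → ℂ, (∀ i, y i ^ 2 = quartic b i (w i) (v i)) ∧
      ∀ i, t i = y (i + 1) * y (i + 2) := by
    by_cases hall : ∀ i, quartic b i (w i) (v i) = 0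
    · refine ⟨fun _ => 0, fun i => by rw [hall i]; ring, fun i => ?_⟩
      have := hsq i
      rw [hall (i + 1), zero_mul] at this
      rw [mul_zero]
      exact pow_eq_zero_iff two_ne_zero |>.1 this
    · push Not at hall
      obtain ⟨k, hk⟩ := hall
      obtain ⟨z, hz⟩ := IsAlgClosed.exists_pow_nat_eq (quartic b k (w k) (v k)) (n := 2) two_pos
      have hz0 : z ≠ 0 := by
        rintro rfl
        apply hk
        rw [← hz]; ring
      have e1 := hsq (k + 1)
      have e2 := hsq (k + 2)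
      have e0 := hmul k
      have f1 : k + 1 + 1 = k + 2 := by fin_cases k <;> rfl
      have f2 : k + 1 + 2 = k := by fin_cases k <;> rfl
      have f3 : k + 2 + 1 = k := by fin_cases k <;> rfl
      have f4 : k + 2 + 2 = k + 1 := by fin_cases k <;> rfl
      have n1 : k ≠ k + 1 := by fin_cases k <;> decide
      have n2 : k ≠ k + 2 := by fin_cases k <;> decide
      have n3 : k + 1 ≠ k + 2 := by fin_cases k <;> decide
      rw [f1, f2] at e1
      rw [f3, f4] at e2
      obtain ⟨y, y0, y1, y2⟩ : ∃ y : Fin 3 → ℂ, y k = z ∧ y (k + 1) = t (k + 2) / z ∧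
          y (k + 2) = t (k + 1) / z := by
        refine ⟨Function.update (Function.update (fun _ => z) (k + 1) (t (k + 2) / z)) (k + 2)
          (t (k + 1) / z), ?_, ?_, ?_⟩
        · rw [Function.update_of_ne n2, Function.update_of_ne n1]
        · rw [Function.update_of_ne n3, Function.update_self]
        · rw [Function.update_self]
      refine ⟨y, fun i => ?_, fun i => ?_⟩
      · rcases fin3_cases k i with rfl | rfl | rfl
        · rw [y0, hz]
        · rw [y1, div_pow, e2, hz]; field_simp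
        · rw [y2, div_pow, e1, hz]; field_simp
      · rcases fin3_cases k i with rfl | rfl | rfl
        · rw [y1, y2]
          field_simp
          rw [hz]; linear_combination -e0
        · rw [f1, f2, y0, y2]; field_simp
        · rw [f3, f4, y0, y1]; field_simp
  exact ⟨⟨(b, w, v, y), hb, hne, hy, hr⟩, rfl, rfl, rfl, hy'⟩

end NoRat

open NoRat in
/-- **`S_b` contains no rational curve**: every `ℂ(t)`-point of `S_b` is constant, i.e. up to rescaling
the coordinates of a `ℂ`-point. -/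
theorem no_rational_curve {b : Param} (hb : b ∈ BaseSet) {W V T : Fin 3 → RatFunc ℂ}
    (h : IsRatPoint b W V T) :
    ∃ p : Cone, p.b = b ∧ ∃ c : Fin 3 → RatFunc ℂ, (∀ i, c i ≠ 0) ∧
      ∀ i, W i = c i * algebraMap ℂ (RatFunc ℂ) (p.W i) ∧
        V i = c i * algebraMap ℂ (RatFunc ℂ) (p.X i) ∧
        T i = (c (i + 1) * c (i + 2)) ^ 2 *
          algebraMap ℂ (RatFunc ℂ) (p.Y (i + 1) * p.Y (i + 2)) := by
  choose c W₁ V₁ hc hcop hW hV using fun i => exists_coprime (h.ne i)
  have hF : ∀ i, quarticA b i (W i) (V i) = c i ^ 4 * ι (quarticA b i (W₁ i) (V₁ i)) := by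
    intro i
    rw [hW i, hV i, quarticA_smul, quarticA_map]
  -- the products `T_i` are polynomials after rescaling
  have hT : ∀ i, ∃ S : ℂ[X], ι S = T i * ((c (i + 1) * c (i + 2)) ^ 2)⁻¹ ∧
      S ^ 2 = quarticA b (i + 1) (W₁ (i + 1)) (V₁ (i + 1)) *
        quarticA b (i + 2) (W₁ (i + 2)) (V₁ (i + 2)) := by
    intro i
    apply isSquare_of_ratFunc
    rw [mul_pow, h.sq i, hF, hF, map_mul]
    have := hc (i + 1)
    have := hc (i + 2)
    field_simp
  choose S hS hS2 using hT
  have hrel : V₁ 0 * V₁ 2 * W₁ 1 = C (b 4) * V₁ 1 * W₁ 0 * W₁ 2 := by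
    apply ι_injective
    have h0 := h.rel
    rw [hW 0, hW 1, hW 2, hV 0, hV 1, hV 2] at h0
    have hcc : c 0 * c 1 * c 2 ≠ 0 := mul_ne_zero (mul_ne_zero (hc 0) (hc 1)) (hc 2)
    apply mul_left_cancel₀ hcc
    have e : ι (C (b 4)) = algebraMap ℂ (RatFunc ℂ) (b 4) := ι.commutes (b 4)
    simp only [map_mul, e]
    linear_combination h0
  have hsq : ∀ i j, i ≠ j → IsSquare (quarticA b i (W₁ i) (V₁ i) * quarticA b j (W₁ j) (V₁ j)) := by
    intro i j hij
    have key : ∀ l : Fin 3, IsSquare (quarticA b (l + 1) (W₁ (l + 1)) (V₁ (l + 1)) *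
        quarticA b (l + 2) (W₁ (l + 2)) (V₁ (l + 2))) := fun l => ⟨S l, by rw [← hS2 l, sq]⟩
    rcases fin3_cases i j with rfl | rfl | rfl
    · exact absurd rfl hij
    · have := key (i + 2)
      have f3 : i + 2 + 1 = i := by fin_cases i <;> rfl
      have f4 : i + 2 + 2 = i + 1 := by fin_cases i <;> rfl
      rwa [f3, f4] at this
    · have := key (i + 1)
      have f1 : i + 1 + 1 = i + 2 := by fin_cases i <;> rfl
      have f2 : i + 1 + 2 = i := by fin_cases i <;> rfl
      rw [f1, f2, mul_comm] at this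
      exact this
  have hconst := poly_point hb hcop hsq hrel
  -- constants
  have hWc : ∀ i, W₁ i = C ((W₁ i).coeff 0) := fun i => eq_C_of_natDegree_eq_zero (hconst i).1
  have hVc : ∀ i, V₁ i = C ((V₁ i).coeff 0) := fun i => eq_C_of_natDegree_eq_zero (hconst i).2
  set w : Fin 3 → ℂ := fun i => (W₁ i).coeff 0 with hw
  set v : Fin 3 → ℂ := fun i => (V₁ i).coeff 0 with hv
  have hq : ∀ i, quarticA b i (W₁ i) (V₁ i) = C (quartic b i (w i) (v i)) := by
    intro i
    rw [hWc i, hVc i]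
    unfold quarticA quartic
    rw [map_prod]
    refine Finset.prod_congr rfl fun j _ => ?_
    rw [C_sub, C_mul, algebraMap_eq]
  have hSc : ∀ i, S i = C ((S i).coeff 0) := by
    intro i
    apply eq_C_of_natDegree_eq_zero
    have h1 := congrArg natDegree (hS2 i)
    rw [hq, hq, ← C_mul, natDegree_C, natDegree_pow] at h1
    omega
  set s : Fin 3 → ℂ := fun i => (S i).coeff 0 with hs
  have hne : ∀ i, w i ≠ 0 ∨ v i ≠ 0 := by
    intro i
    by_contra h0
    push Not at h0
    apply coprime_eval (hcop i) 0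
    · rw [hWc i, eval_C]; exact h0.1
    · rw [hVc i, eval_C]; exact h0.2
  have hsq' : ∀ i, s i ^ 2 = quartic b (i + 1) (w (i + 1)) (v (i + 1)) *
      quartic b (i + 2) (w (i + 2)) (v (i + 2)) := by
    intro i
    have h1 := hS2 i
    rw [hq, hq, hSc i, ← C_pow, ← C_mul] at h1
    exact C_injective h1
  have hmul' : ∀ i, s (i + 1) * s (i + 2) = quartic b i (w i) (v i) * s i := by
    intro i
    have h1 := h.mul i
    have f1 : i + 1 + 1 = i + 2 := by fin_cases i <;> rfl
    have f2 : i + 1 + 2 = i := by fin_cases i <;> rfl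
    have f3 : i + 2 + 1 = i := by fin_cases i <;> rfl
    have f4 : i + 2 + 2 = i + 1 := by fin_cases i <;> rfl
    have t0 := hS i
    have t1 := hS (i + 1)
    have t2 := hS (i + 2)
    rw [f1, f2] at t1
    rw [f3, f4] at t2
    have c0 := hc i
    have c1 := hc (i + 1)
    have c2 := hc (i + 2)
    have t0' : T i = ι (S i) * (c (i + 1) * c (i + 2)) ^ 2 := by
      rw [t0]; field_simp
    have t1' : T (i + 1) = ι (S (i + 1)) * (c (i + 2) * c i) ^ 2 := by
      rw [t1]; field_simp
    have t2' : T (i + 2) = ι (S (i + 2)) * (c i * c (i + 1)) ^ 2 := by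
      rw [t2]; field_simp
    rw [t0', t1', t2', hF i] at h1
    have h2 : ι (S (i + 1) * S (i + 2)) = ι (quarticA b i (W₁ i) (V₁ i) * S i) := by
      rw [map_mul, map_mul]
      apply mul_left_cancel₀ (mul_ne_zero (pow_ne_zero 4 c0)
        (mul_ne_zero (pow_ne_zero 2 c1) (pow_ne_zero 2 c2)))
      linear_combination h1
    have h3 := ι_injective h2
    rw [hq, hSc i, hSc (i + 1), hSc (i + 2), ← C_mul, ← C_mul] at h3
    exact C_injective h3
  have hr' : v 0 * v 2 * w 1 = b 4 * v 1 * w 0 * w 2 := by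
    have h1 := hrel
    rw [hWc 0, hWc 1, hWc 2, hVc 0, hVc 1, hVc 2] at h1
    simp only [← C_mul] at h1
    exact C_injective h1
  obtain ⟨p, hpb, hpW, hpX, hpY⟩ := exists_cone hb hne hsq' hmul' hr'
  have eC : ∀ a : ℂ, ι (C a) = algebraMap ℂ (RatFunc ℂ) a := fun a => ι.commutes a
  refine ⟨p, hpb, c, hc, fun i => ⟨?_, ?_, ?_⟩⟩
  · rw [hW i, hpW, hWc i, eC]
  · rw [hV i, hpX, hVc i, eC]
  · have t0 := hS i
    have c1 := hc (i + 1)
    have c2 := hc (i + 2)
    rw [← hpY i, ← eC, ← hSc i, t0]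
    field_simp

theorem noRationalCurve {b : Param} (hb : b ∈ BaseSet) : NoRationalCurve b :=
  fun _ _ _ h => no_rational_curve hb h

end TripleBurger
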