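import Pool.Agent.helper10.K3B.Def

/-!
# Rational curves on `S_b` (definitions)

A `ℂ(t)`-point of `S_b` (a rational map `ℙ¹ ⇢ S_b`) has homogeneous coordinates `W_i, V_i` (`= X_i`) in `ℂ(t)` and
the values `T_i` of the products `Y_{i+1} Y_{i+2}` (these are the functions invariant under `-1`).
-/

set_option autoImplicit false

noncomputable section
namespace TripleBurger

/-- the quartic form of `E_i` over a `ℂ`-algebra -/
def quarticA {A : Type*} [CommRing A] [Algebra ℂ A] (b : Param) (i : Fin 3) (W V : A) :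
    A := ∏ j : Fin 4, (V - algebraMap ℂ A (root b i j) * W)

/-- the value of the quartic form of `E_i` at the `i`-th coordinates -/
def quarticR (b : Param) (W V : Fin 3 → RatFunc ℂ) (i : Fin 3) : RatFunc ℂ := quarticA b i (W i) (V i)

/-- `(Y_{i+1} Y_{i+2})² = F_{i+1} F_{i+2}` -/
def SqEq (b : Param) (W V T : Fin 3 → RatFunc ℂ) (i : Fin 3) : Prop :=
  T i ^ 2 = quarticR b W V (i + 1) * quarticR b W V (i + 2)

/-- `(Y_{i+2} Y_i) (Y_i Y_{i+1}) = F_i Y_{i+1} Y_{i+2}` -/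
def MulEq (b : Param) (W V T : Fin 3 → RatFunc ℂ) (i : Fin 3) : Prop :=
  T (i + 1) * T (i + 2) = quarticR b W V i * T i

/-- the constants in `ℂ(t)` -/
def cR (z : ℂ) : RatFunc ℂ := algebraMap ℂ (RatFunc ℂ) z

/-- `X₀ X₂ W₁ = b₄ X₁ W₀ W₂` -/
def RelEq (b : Param) (W V : Fin 3 → RatFunc ℂ) : Prop :=
  V 0 * V 2 * W 1 = cR (b 4) * V 1 * W 0 * W 2

/-- a `ℂ(t)`-point of the surface `S_b`, i.e. a rational map `ℙ¹ ⇢ S_b`; `T_i` stands for `Y_{i+1} Y_{i+2}` -/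
structure IsRatPoint (b : Param) (W V T : Fin 3 → RatFunc ℂ) : Prop where
  ne : ∀ i, W i ≠ 0 ∨ V i ≠ 0
  sq_eq : ∀ i, SqEq b W V T i
  mul_eq : ∀ i, MulEq b W V T i
  rel_eq : RelEq b W V

/-- the `ℂ(t)`-point `(W, V, T)` is, up to rescaling, the `ℂ`-point `p` -/
def IsConstant (p : Cone) (W V T : Fin 3 → RatFunc ℂ) : Prop :=
  ∃ c : Fin 3 → RatFunc ℂ, (∀ i, c i ≠ 0) ∧
    ∀ i, W i = c i * cR (p.W i) ∧ V i = c i * cR (p.X i) ∧
      T i = (c (i + 1) * c (i + 2)) ^ 2 * cR (p.Y (i + 1) * p.Y (i + 2))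

/-- **`S_b` contains no rational curve**: every `ℂ(t)`-point is constant. -/
def NoRationalCurve (b : Param) : Prop := ∀ W V T : Fin 3 → RatFunc ℂ, IsRatPoint b W V T →
  ∃ p : Cone, p.b = b ∧ IsConstant p W V T

end TripleBurger
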