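import Pool.Agent.helper10.K3B.Top

/-!
# K3S: the family `S → B` is proper, its total space is Hausdorff, the fibres are non-empty
-/

namespace TripleBurger

open Complex Topology

/-- the equations of the same point, with the sign `σ` -/
def SameEq (σ : ℂ) (p q : Cone) : Prop :=
  p.b = q.b ∧ ∀ i, p.W i * q.X i = p.X i * q.W i ∧ p.W i ^ 2 * q.Y i = σ * (q.W i ^ 2 * p.Y i) ∧
    p.X i ^ 2 * q.Y i = σ * (q.X i ^ 2 * p.Y i)

theorem cone_WX_ne (p : Cone) (i : Fin 3) : p.W i ≠ 0 ∨ p.X i ≠ 0 := p.2.2.1 i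

theorem cone_Y_sq_eq (p : Cone) (i : Fin 3) : p.Y i ^ 2 = quartic p.b i (p.W i) (p.X i) := p.2.2.2.1 i

theorem cone_tri_eq (p : Cone) : p.X 0 * p.X 2 * p.W 1 = p.b 4 * p.X 1 * p.W 0 * p.W 2 := p.2.2.2.2

theorem sameEq_of_act {p q : Cone} {c : Fin 3 → ℂ} {σ : ℂ} (hb : p.b = q.b)
    (h : ∀ i, q.W i = c i * p.W i ∧ q.X i = c i * p.X i ∧ q.Y i = σ * (c i ^ 2 * p.Y i)) :
    SameEq σ p q := by
  refine ⟨hb, fun i => ?_⟩
  obtain ⟨h1, h2, h3⟩ := h i
  refine ⟨?_, ?_, ?_⟩
  · rw [h1, h2]; ring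
  · rw [h1, h3]; ring
  · rw [h2, h3]; ring

theorem exists_scale {p q : Cone} {σ : ℂ} (i : Fin 3)
    (h : p.W i * q.X i = p.X i * q.W i ∧ p.W i ^ 2 * q.Y i = σ * (q.W i ^ 2 * p.Y i) ∧
      p.X i ^ 2 * q.Y i = σ * (q.X i ^ 2 * p.Y i)) :
    ∃ c : ℂ, c ≠ 0 ∧ q.W i = c * p.W i ∧ q.X i = c * p.X i ∧ q.Y i = σ * (c ^ 2 * p.Y i) := by
  obtain ⟨h1, h2, h3⟩ := h
  by_cases hW : p.W i = 0
  · have hX : p.X i ≠ 0 := (cone_WX_ne p i).resolve_left (fun h => h hW)
    have hqW : q.W i = 0 := by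
      rw [hW, zero_mul] at h1
      exact (mul_eq_zero.1 h1.symm).resolve_left hX
    have hqX : q.X i ≠ 0 := (cone_WX_ne q i).resolve_left (fun h => h hqW)
    refine ⟨q.X i / p.X i, div_ne_zero hqX hX, by rw [hW, hqW, mul_zero],
      by field_simp, ?_⟩
    field_simp
    linear_combination h3
  · have hqW : q.W i ≠ 0 := by
      intro h0
      rw [h0, mul_zero] at h1
      have h4 : q.X i = 0 := (mul_eq_zero.1 h1).resolve_left hW
      exact (cone_WX_ne q i).elim (fun h => h h0) (fun h => h h4)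
    refine ⟨q.W i / p.W i, div_ne_zero hqW hW, by field_simp, ?_, ?_⟩
    · field_simp
      linear_combination h1
    · field_simp
      linear_combination h2

theorem sameRel_iff (p q : Cone) : SameRel p q ↔ SameEq 1 p q ∨ SameEq (-1) p q := by
  constructor
  · rintro ⟨hb, c, σ, _, hσ, h⟩
    rcases hσ with rfl | rfl
    · exact Or.inl (sameEq_of_act hb h)
    · exact Or.inr (sameEq_of_act hb h)
  · have key : ∀ σ : ℂ, (σ = 1 ∨ σ = -1) → SameEq σ p q → SameRel p q := by
      rintro σ hσ ⟨hb, h⟩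
      choose c hc h1 h2 h3 using fun i => exists_scale i (h i)
      exact ⟨hb, c, σ, hc, hσ, fun i => ⟨h1 i, h2 i, h3 i⟩⟩
    rintro (h | h)
    · exact key 1 (Or.inl rfl) h
    · exact key (-1) (Or.inr rfl) h

theorem isClosed_sameEq (σ : ℂ) : IsClosed {q : Cone × Cone | SameEq σ q.1 q.2} := by
  have hb1 : Continuous fun q : Cone × Cone => q.1.b := cone_b_continuous.comp continuous_fst
  have hb2 : Continuous fun q : Cone × Cone => q.2.b := cone_b_continuous.comp continuous_snd
  have hW1 (i : Fin 3) : Continuous fun q : Cone × Cone => q.1.W i :=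
    (cone_W_continuous i).comp continuous_fst
  have hW2 (i : Fin 3) : Continuous fun q : Cone × Cone => q.2.W i :=
    (cone_W_continuous i).comp continuous_snd
  have hX1 (i : Fin 3) : Continuous fun q : Cone × Cone => q.1.X i :=
    (cone_X_continuous i).comp continuous_fst
  have hX2 (i : Fin 3) : Continuous fun q : Cone × Cone => q.2.X i :=
    (cone_X_continuous i).comp continuous_snd
  have hY1 (i : Fin 3) : Continuous fun q : Cone × Cone => q.1.Y i :=
    (cone_Y_continuous i).comp continuous_fst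
  have hY2 (i : Fin 3) : Continuous fun q : Cone × Cone => q.2.Y i :=
    (cone_Y_continuous i).comp continuous_snd
  have e : {q : Cone × Cone | SameEq σ q.1 q.2} = {q : Cone × Cone | q.1.b = q.2.b} ∩
      ⋂ i : Fin 3, ({q : Cone × Cone | q.1.W i * q.2.X i = q.1.X i * q.2.W i} ∩
        ({q : Cone × Cone | q.1.W i ^ 2 * q.2.Y i = σ * (q.2.W i ^ 2 * q.1.Y i)} ∩
        {q : Cone × Cone | q.1.X i ^ 2 * q.2.Y i = σ * (q.2.X i ^ 2 * q.1.Y i)})) := by
    ext q
    simp only [SameEq, Set.mem_inter_iff, Set.mem_iInter, Set.mem_ofPred_eq]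
  rw [e]
  exact (isClosed_eq hb1 hb2).inter (isClosed_iInter fun i =>
    (isClosed_eq ((hW1 i).mul (hX2 i)) ((hX1 i).mul (hW2 i))).inter
    ((isClosed_eq (((hW1 i).pow 2).mul (hY2 i))
      (continuous_const.mul (((hW2 i).pow 2).mul (hY1 i)))).inter
    (isClosed_eq (((hX1 i).pow 2).mul (hY2 i))
      (continuous_const.mul (((hX2 i).pow 2).mul (hY1 i))))))

theorem mk_isOpenQuotientMap : IsOpenQuotientMap Total.mk :=
  ⟨mk_surjective, mk_continuous, mk_isOpenMap⟩

theorem mk_eq_iff (p q : Cone) : Total.mk p = Total.mk q ↔ SameRel p q :=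
  ⟨fun h => Quotient.exact h, fun h => Quotient.sound h⟩

/-- **The total space is Hausdorff.** -/
instance total_t2 : T2Space Total := by
  rw [t2Space_iff_of_isOpenQuotientMap mk_isOpenQuotientMap]
  have e : {q : Cone × Cone | Total.mk q.1 = Total.mk q.2} =
      {q : Cone × Cone | SameEq 1 q.1 q.2} ∪ {q : Cone × Cone | SameEq (-1) q.1 q.2} := by
    ext q
    simp only [Set.mem_union, Set.mem_ofPred_eq]
    rw [mk_eq_iff, sameRel_iff]
  rw [e]
  exact (isClosed_sameEq 1).union (isClosed_sameEq (-1))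

theorem projB_continuous : Continuous projB := proj_continuous.subtype_mk _

theorem projB_mk (p : Cone) : (projB (Total.mk p) : Param) = p.b := rfl

/-- normalised homogeneous coordinates -/
def IsNormal (a : Ambient) : Prop := ∀ i, max ‖a.2.1 i‖ ‖a.2.2.1 i‖ = 1

theorem quartic_continuous (i : Fin 3) :
    Continuous fun z : Param × ℂ × ℂ => quartic z.1 i z.2.1 z.2.2 := by
  unfold quartic
  refine continuous_finsetProd _ fun j _ => ?_
  exact (continuous_snd.comp continuous_snd).sub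
    (((root_continuous i j).comp continuous_fst).mul (continuous_fst.comp continuous_snd))

/-- the points over `K` with normalised homogeneous coordinates -/
def normSet (K : Set Param) : Set Ambient :=
  {a | a.1 ∈ K ∧ IsNormal a ∧ (∀ i, a.2.2.2 i ^ 2 = quartic a.1 i (a.2.1 i) (a.2.2.1 i)) ∧
    a.2.2.1 0 * a.2.2.1 2 * a.2.1 1 = a.1 4 * a.2.2.1 1 * a.2.1 0 * a.2.1 2}

theorem isClosed_normSet {K : Set Param} (hK : IsClosed K) : IsClosed (normSet K) := by
  have hb : Continuous fun a : Ambient => a.1 := continuous_fst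
  have hb4 : Continuous fun a : Ambient => a.1 4 := (continuous_apply 4).comp hb
  have hW (i : Fin 3) : Continuous fun a : Ambient => a.2.1 i :=
    (continuous_apply i).comp (continuous_fst.comp continuous_snd)
  have hX (i : Fin 3) : Continuous fun a : Ambient => a.2.2.1 i :=
    (continuous_apply i).comp (continuous_fst.comp (continuous_snd.comp continuous_snd))
  have hY (i : Fin 3) : Continuous fun a : Ambient => a.2.2.2 i :=
    (continuous_apply i).comp (continuous_snd.comp (continuous_snd.comp continuous_snd))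
  have e : normSet K = ((fun a : Ambient => a.1) ⁻¹' K) ∩
      ((⋂ i : Fin 3, {a : Ambient | max ‖a.2.1 i‖ ‖a.2.2.1 i‖ = 1}) ∩
      ((⋂ i : Fin 3, {a : Ambient | a.2.2.2 i ^ 2 = quartic a.1 i (a.2.1 i) (a.2.2.1 i)}) ∩
      {a : Ambient | a.2.2.1 0 * a.2.2.1 2 * a.2.1 1 =
        a.1 4 * a.2.2.1 1 * a.2.1 0 * a.2.1 2})) := by
    ext a
    simp only [normSet, IsNormal, Set.mem_inter_iff, Set.mem_iInter, Set.mem_ofPred_eq,
      Set.mem_preimage]
  rw [e]
  refine (hK.preimage hb).inter ((isClosed_iInter fun i => ?_).inter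
    ((isClosed_iInter fun i => ?_).inter ?_))
  · exact isClosed_eq ((hW i).norm.max (hX i).norm) continuous_const
  · exact isClosed_eq ((hY i).pow 2) ((quartic_continuous i).comp (hb.prodMk ((hW i).prodMk (hX i))))
  · exact isClosed_eq (((hX 0).mul (hX 2)).mul (hW 1)) (((hb4.mul (hX 1)).mul (hW 0)).mul (hW 2))

theorem isCompact_normSet {K : Set Param} (hK : IsCompact K) : IsCompact (normSet K) := by
  have hB : IsCompact (Metric.closedBall (0 : ℂ) 1) := isCompact_closedBall _ _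
  have hM : ∀ i : Fin 3, ∃ M : ℝ, ∀ z ∈ K ×ˢ (Metric.closedBall (0 : ℂ) 1 ×ˢ
      Metric.closedBall (0 : ℂ) 1), ‖quartic z.1 i z.2.1 z.2.2‖ ≤ M := fun i =>
    (hK.prod (hB.prod hB)).exists_bound_of_continuousOn (quartic_continuous i).continuousOn
  choose M hM using hM
  have hsub : normSet K ⊆ K ×ˢ ((Set.univ.pi fun _ => Metric.closedBall (0 : ℂ) 1) ×ˢ
      ((Set.univ.pi fun _ => Metric.closedBall (0 : ℂ) 1) ×ˢ
      (Set.univ.pi fun i => Metric.closedBall (0 : ℂ) (M i + 1)))) := by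
    rintro ⟨b, W, X, Y⟩ ⟨hb, hn, hY, -⟩
    have hW1 : ∀ i, ‖W i‖ ≤ 1 := fun i => (le_max_left _ _).trans (hn i).le
    have hX1 : ∀ i, ‖X i‖ ≤ 1 := fun i => (le_max_right _ _).trans (hn i).le
    refine ⟨hb, ⟨fun i _ => ?_, fun i _ => ?_, fun i _ => ?_⟩⟩
    · rw [mem_closedBall_zero_iff]; exact hW1 i
    · rw [mem_closedBall_zero_iff]; exact hX1 i
    · rw [mem_closedBall_zero_iff]
      have h1 : ‖Y i‖ ^ 2 ≤ M i := by
        rw [← norm_pow, hY i]
        exact hM i (b, W i, X i) ⟨hb, by simpa using hW1 i, by simpa using hX1 i⟩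
      show ‖Y i‖ ≤ M i + 1
      nlinarith [norm_nonneg (Y i), sq_nonneg (‖Y i‖ - 1)]
  exact (hK.prod ((isCompact_univ_pi fun _ => hB).prod ((isCompact_univ_pi fun _ => hB).prod
    (isCompact_univ_pi fun i => isCompact_closedBall _ _)))).of_isClosed_subset
    (isClosed_normSet hK.isClosed) hsub

theorem normSet_subset_range {K : Set Param} (hK : K ⊆ BaseSet) :
    normSet K ⊆ Set.range (Subtype.val : Cone → Ambient) := by
  rintro a ⟨hb, hn, hY, h4⟩
  refine ⟨⟨a, hK hb, fun i => ?_, hY, h4⟩, rfl⟩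
  by_contra h
  push Not at h
  have h1 := hn i
  rw [h.1, h.2, norm_zero, max_self] at h1
  exact zero_ne_one h1

/-- every point of `S` has normalised homogeneous coordinates -/
theorem exists_normal (P : Total) : ∃ p : Cone, Total.mk p = P ∧ IsNormal p.1 := by
  obtain ⟨p, rfl⟩ := mk_surjective P
  have hpos : ∀ i, 0 < max ‖p.W i‖ ‖p.X i‖ := by
    intro i
    rcases cone_WX_ne p i with h | h
    · exact lt_max_of_lt_left (norm_pos_iff.2 h)
    · exact lt_max_of_lt_right (norm_pos_iff.2 h)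
  let c : Fin 3 → ℂ := fun i => ((max ‖p.W i‖ ‖p.X i‖)⁻¹ : ℝ)
  have hc : ∀ i, c i ≠ 0 := fun i => by
    simp only [c, ne_eq, Complex.ofReal_eq_zero]
    exact inv_ne_zero (hpos i).ne'
  refine ⟨act c 1 hc (Or.inl rfl) p, (Quotient.sound (act_rel c 1 hc (Or.inl rfl) p)).symm, ?_⟩
  intro i
  show max ‖c i * p.W i‖ ‖c i * p.X i‖ = 1
  have hci : ‖c i‖ = (max ‖p.W i‖ ‖p.X i‖)⁻¹ := by
    simp only [c, Complex.norm_real]
    rw [Real.norm_of_nonneg (inv_nonneg.2 (hpos i).le)]
  rw [norm_mul, norm_mul, hci, ← mul_max_of_nonneg _ _ (inv_nonneg.2 (hpos i).le)]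
  exact inv_mul_cancel₀ (hpos i).ne'

theorem isCompact_preimage_projB {K : Set {b : Param // b ∈ BaseSet}} (hK : IsCompact K) :
    IsCompact (projB ⁻¹' K) := by
  have hK' : IsCompact (Subtype.val '' K : Set Param) := hK.image continuous_subtype_val
  have hsub : (Subtype.val '' K : Set Param) ⊆ BaseSet := by
    rintro _ ⟨b, _, rfl⟩
    exact b.2
  have h1 : IsCompact ((Subtype.val : Cone → Ambient) ⁻¹' normSet (Subtype.val '' K)) := by
    rw [Topology.IsInducing.isCompact_iff (f := (Subtype.val : Cone → Ambient)) ⟨rfl⟩,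
      Set.image_preimage_eq_of_subset (normSet_subset_range hsub)]
    exact isCompact_normSet hK'
  have h2 : projB ⁻¹' K =
      Total.mk '' ((Subtype.val : Cone → Ambient) ⁻¹' normSet (Subtype.val '' K)) := by
    ext P
    constructor
    · intro hP
      obtain ⟨p, rfl, hn⟩ := exists_normal P
      exact ⟨p, ⟨⟨projB (Total.mk p), hP, rfl⟩, hn, p.2.2.2.1, p.2.2.2.2⟩, rfl⟩
    · rintro ⟨p, ⟨⟨b, hb, hbp⟩, -⟩, rfl⟩
      have h3 : projB (Total.mk p) = b := Subtype.ext hbp.symm
      rw [Set.mem_preimage, h3]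
      exact hb
  rw [h2]
  exact h1.image mk_continuous

/-- **The family is proper.** -/
theorem projB_isProperMap : IsProperMap projB := by
  have : LocallyCompactSpace {b : Param // b ∈ BaseSet} := base_isOpen.locallyCompactSpace
  rw [isProperMap_iff_isCompact_preimage]
  exact ⟨projB_continuous, fun K hK => isCompact_preimage_projB hK⟩

/-- **The fibres are compact.** -/
theorem isCompact_fibre (b : {b : Param // b ∈ BaseSet}) : IsCompact (projB ⁻¹' {b}) :=
  isCompact_preimage_projB isCompact_singleton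

/-- **The fibres are non-empty.** -/
theorem projB_surjective : Function.Surjective projB := by
  rintro ⟨b, hb⟩
  choose Y hY using fun i : Fin 3 =>
    IsAlgClosed.exists_pow_nat_eq (quartic b i 1 (![0, 0, 1] i)) (n := 2) two_pos
  refine ⟨Total.mk ⟨(b, fun _ => 1, ![0, 0, 1], Y), hb, fun i => Or.inl one_ne_zero, hY, ?_⟩, rfl⟩
  simp

end TripleBurger
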