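import Pool.Agent.helper10.K3B.Rad

/-!
# K3S: the base is a Zariski open subset of `ℂ⁵` and is (path) connected
-/

namespace TripleBurger

open Complex

theorem baseP_ne_zero : baseP ≠ 0 := by
  intro h
  have h1 := (eval_baseP bStar).2 bStar_mem
  rw [h, map_zero] at h1
  exact h1 rfl

/-- `B = {baseP ≠ 0}` is the complement of a hypersurface in `ℂ⁵` -/
theorem baseSet_eq : BaseSet = {b | MvPolynomial.eval b baseP ≠ 0} := by
  ext b
  exact (eval_baseP b).symm

/-- the complement of a hypersurface in `ℂⁿ` is path connected -/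
theorem isPathConnected_nonvanishing {n : ℕ} (G : MvPolynomial (Fin n) ℂ) (hG : G ≠ 0) :
    IsPathConnected {b : Fin n → ℂ | MvPolynomial.eval b G ≠ 0} := by
  obtain ⟨a, ha⟩ : ∃ a : Fin n → ℂ, MvPolynomial.eval a G ≠ 0 := by
    by_contra h
    push Not at h
    exact hG (MvPolynomial.funext fun x => by rw [h x, map_zero])
  refine ⟨a, ha, fun {c} hc => ?_⟩
  -- the polynomial on the complex line through `a` and `c`
  obtain ⟨g, hg⟩ : ∃ g : Polynomial ℂ, g = MvPolynomial.aeval
    (fun i => Polynomial.C (a i) + Polynomial.X * Polynomial.C (c i - a i)) G := ⟨_, rfl⟩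
  have hev : ∀ t : ℂ, g.eval t = MvPolynomial.eval (fun i => a i + t * (c i - a i)) G := by
    intro t
    rw [hg, ← Polynomial.coe_evalRingHom, MvPolynomial.aeval_def, MvPolynomial.hom_eval₂,
      MvPolynomial.eval, MvPolynomial.coe_eval₂Hom]
    congr 1
    · ext z
      simp
    · funext i
      simp
  have hg0 : g ≠ 0 := by
    intro h0
    apply ha
    have h1 := hev 0
    rw [h0, Polynomial.eval_zero] at h1
    have h2 : (fun i => a i + 0 * (c i - a i)) = a := by
      funext i
      ring
    rw [h2] at h1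
    exact h1.symm
  have hfin : {t : ℂ | g.eval t = 0}.Countable := by
    have h1 : {t : ℂ | g.eval t = 0} = (g.roots.toFinset : Set ℂ) := by
      ext t
      simp [Polynomial.mem_roots hg0]
    rw [h1]
    exact (Finset.finite_toSet _).countable
  have hpc : IsPathConnected {t : ℂ | g.eval t = 0}ᶜ :=
    hfin.isPathConnected_compl_of_one_lt_rank (by
      rw [Complex.rank_real_complex]
      exact Cardinal.one_lt_two)
  have h0 : (0 : ℂ) ∈ {t : ℂ | g.eval t = 0}ᶜ := by
    show ¬ g.eval 0 = 0
    rw [hev]
    have h2 : (fun i => a i + 0 * (c i - a i)) = a := by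
      funext i
      ring
    rw [h2]
    exact ha
  have h1 : (1 : ℂ) ∈ {t : ℂ | g.eval t = 0}ᶜ := by
    show ¬ g.eval 1 = 0
    rw [hev]
    have h2 : (fun i => a i + 1 * (c i - a i)) = c := by
      funext i
      ring
    rw [h2]
    exact hc
  obtain ⟨γ, hγ⟩ := hpc.joinedIn 0 h0 1 h1
  have hcont : Continuous fun t : ℂ => (fun i => a i + t * (c i - a i) : Fin n → ℂ) := by
    fun_prop
  refine ⟨((γ.map hcont).cast ?_ ?_), fun t => ?_⟩
  · funext i
    ring
  · funext i
    ring
  · have h3 := hγ t
    show MvPolynomial.eval (fun i => a i + γ t * (c i - a i)) G ≠ 0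
    rw [← hev]
    exact h3

/-- **the base is path connected** -/
theorem baseSet_isPathConnected : IsPathConnected BaseSet := by
  rw [baseSet_eq]
  exact isPathConnected_nonvanishing baseP baseP_ne_zero

end TripleBurger
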