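import Pool.Agent.helper10.K3S.Proper

/-!
# K3S: the fibres of the family `S → B` are connected

The map from `S_b` to the surface `Z : X₀ X₂ W₁ = μ X₁ W₀ W₂` is open and closed, `Z` is connected,
and one point of `Z` has only one preimage.
-/

namespace TripleBurger

open Complex Topology Filter

/-- the homogeneous coordinates `(W, X)` of the points of `Z` -/
def ZSet (b : Param) : Set ((Fin 3 → ℂ) × (Fin 3 → ℂ)) :=
  {z | (∀ i, z.1 i ≠ 0 ∨ z.2 i ≠ 0) ∧ z.2 0 * z.2 2 * z.1 1 = b 4 * z.2 1 * z.1 0 * z.1 2}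

/-- the parametrisation of the dense torus in `Z` -/
noncomputable def torusMap (b : Param) (x : Fin 2 → ℂ) (l : Fin 3 → ℂ) :
    (Fin 3 → ℂ) × (Fin 3 → ℂ) :=
  (l, ![l 0 * x 0, l 1 * (x 0 * x 1 / b 4), l 2 * x 1])

theorem torusMap_mem {b : Param} (h4 : b 4 ≠ 0) {x : Fin 2 → ℂ} {l : Fin 3 → ℂ}
    (hl : ∀ i, l i ≠ 0) : torusMap b x l ∈ ZSet b := by
  refine ⟨fun i => Or.inl (hl i), ?_⟩
  show (l 0 * x 0) * (l 2 * x 1) * l 1 = b 4 * (l 1 * (x 0 * x 1 / b 4)) * l 0 * l 2
  field_simp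

/-- the dense torus -/
def TorusSet (b : Param) : Set ((Fin 3 → ℂ) × (Fin 3 → ℂ)) :=
  {z | z ∈ ZSet b ∧ (∀ i, z.1 i ≠ 0) ∧ z.2 0 ≠ 0 ∧ z.2 2 ≠ 0}

theorem isPreconnected_ne_zero : IsPreconnected {z : ℂ | z ≠ 0} := by
  have h := (isConnected_compl_singleton_of_one_lt_rank (E := ℂ)
    (by rw [Complex.rank_real_complex]; norm_num) 0).isPreconnected
  exact h

theorem isPreconnected_torusSet {b : Param} (h4 : b 4 ≠ 0) : IsPreconnected (TorusSet b) := by
  have h1 : IsPreconnected ((Set.univ.pi fun _ : Fin 2 => {z : ℂ | z ≠ 0}) ×ˢ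
      (Set.univ.pi fun _ : Fin 3 => {z : ℂ | z ≠ 0})) :=
    (isPreconnected_univ_pi fun _ => isPreconnected_ne_zero).prod
      (isPreconnected_univ_pi fun _ => isPreconnected_ne_zero)
  have hcont : Continuous fun a : (Fin 2 → ℂ) × (Fin 3 → ℂ) => torusMap b a.1 a.2 := by
    unfold torusMap
    refine Continuous.prodMk continuous_snd (continuous_pi fun i => ?_)
    fin_cases i
    · show Continuous fun a : (Fin 2 → ℂ) × (Fin 3 → ℂ) => a.2 0 * a.1 0
      fun_prop
    · show Continuous fun a : (Fin 2 → ℂ) × (Fin 3 → ℂ) => a.2 1 * (a.1 0 * a.1 1 / b 4)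
      fun_prop
    · show Continuous fun a : (Fin 2 → ℂ) × (Fin 3 → ℂ) => a.2 2 * a.1 1
      fun_prop
  have h2 := h1.image _ hcont.continuousOn
  convert h2 using 1
  ext z
  constructor
  · rintro ⟨⟨-, hz⟩, hW, hX0, hX2⟩
    refine ⟨(![z.2 0 / z.1 0, z.2 2 / z.1 2], z.1), ⟨?_, ?_⟩, ?_⟩
    · intro i _
      fin_cases i
      · exact div_ne_zero hX0 (hW 0)
      · exact div_ne_zero hX2 (hW 2)
    · intro i _
      exact hW i
    · have hW0 := hW 0
      have hW1 := hW 1
      have hW2 := hW 2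
      refine Prod.ext rfl ?_
      funext i
      fin_cases i
      · show z.1 0 * (z.2 0 / z.1 0) = z.2 0
        field_simp
      · show z.1 1 * ((z.2 0 / z.1 0) * (z.2 2 / z.1 2) / b 4) = z.2 1
        field_simp
        linear_combination hz
      · show z.1 2 * (z.2 2 / z.1 2) = z.2 2
        field_simp
  · rintro ⟨⟨x, l⟩, ⟨hx, hl⟩, rfl⟩
    have hx' : ∀ i, x i ≠ 0 := fun i => hx i (Set.mem_univ i)
    have hl' : ∀ i, l i ≠ 0 := fun i => hl i (Set.mem_univ i)
    exact ⟨torusMap_mem h4 hl', hl', mul_ne_zero (hl' 0) (hx' 0), mul_ne_zero (hl' 2) (hx' 1)⟩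

/-- perturbation of a number to a non-zero number -/
noncomputable def pert (w : ℂ) (t : ℝ) : ℂ := if w = 0 then (t : ℂ) else w

theorem pert_zero (w : ℂ) : pert w 0 = w := by
  unfold pert
  split_ifs with h
  · rw [h]; norm_num
  · rfl

theorem pert_ne (w : ℂ) {t : ℝ} (ht : 0 < t) : pert w t ≠ 0 := by
  unfold pert
  split_ifs with h
  · exact_mod_cast ht.ne'
  · exact h

theorem pert_continuous (w : ℂ) : Continuous (pert w) := by
  unfold pert
  split_ifs with h
  · exact Complex.continuous_ofReal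
  · exact continuous_const

theorem mem_closure_of_path {z : (Fin 3 → ℂ) × (Fin 3 → ℂ)}
    {S : Set ((Fin 3 → ℂ) × (Fin 3 → ℂ))} (g : ℝ → (Fin 3 → ℂ) × (Fin 3 → ℂ))
    (hg : Continuous g) (h0 : g 0 = z) (hS : ∀ t, 0 < t → g t ∈ S) : z ∈ closure S := by
  have h1 : Tendsto g (𝓝[>] 0) (𝓝 z) := by
    rw [← h0]
    exact (hg.tendsto 0).mono_left nhdsWithin_le_nhds
  exact mem_closure_of_tendsto h1 (eventually_nhdsWithin_of_forall fun t ht => hS t ht)

theorem zset_subset_closure {b : Param} (h4 : b 4 ≠ 0) : ZSet b ⊆ closure (TorusSet b) := by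
  rintro ⟨W, X⟩ ⟨hne, hz⟩
  simp only at hne hz
  by_cases hA : X 0 = 0 ∧ W 2 = 0
  · -- `X₀ = 0`, `W₂ = 0`
    obtain ⟨hX0, hW2⟩ := hA
    have hW0 : W 0 ≠ 0 := (hne 0).resolve_right (fun h => h hX0)
    have hX2 : X 2 ≠ 0 := (hne 2).resolve_left (fun h => h hW2)
    refine mem_closure_of_path (fun t => (![W 0, pert (W 1) t,
      t * (X 2 * pert (W 1) t / (b 4 * W 0))], ![t * pert (X 1) t, pert (X 1) t, X 2])) ?_ ?_ ?_
    · have c1 := pert_continuous (W 1)
      have c2 := pert_continuous (X 1)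
      refine Continuous.prodMk (continuous_pi fun i => ?_) (continuous_pi fun i => ?_)
      · fin_cases i
        · exact continuous_const
        · exact c1
        · show Continuous fun t : ℝ => (t : ℂ) * (X 2 * pert (W 1) t / (b 4 * W 0))
          fun_prop
      · fin_cases i
        · show Continuous fun t : ℝ => (t : ℂ) * pert (X 1) t
          fun_prop
        · exact c2
        · exact continuous_const
    · refine Prod.ext ?_ ?_
      · funext i
        fin_cases i
        · rfl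
        · exact pert_zero _
        · show ((0 : ℝ) : ℂ) * (X 2 * pert (W 1) 0 / (b 4 * W 0)) = W 2
          rw [hW2]; simp
      · funext i
        fin_cases i
        · show ((0 : ℝ) : ℂ) * pert (X 1) 0 = X 0
          rw [hX0]; simp
        · exact pert_zero _
        · rfl
    · intro t ht
      have ht' : (t : ℂ) ≠ 0 := by exact_mod_cast ht.ne'
      have p1 := pert_ne (W 1) ht
      have p2 := pert_ne (X 1) ht
      have hW2' : (t : ℂ) * (X 2 * pert (W 1) t / (b 4 * W 0)) ≠ 0 :=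
        mul_ne_zero ht' (div_ne_zero (mul_ne_zero hX2 p1) (mul_ne_zero h4 hW0))
      have hW : ∀ i : Fin 3, (![W 0, pert (W 1) t,
          t * (X 2 * pert (W 1) t / (b 4 * W 0))] : Fin 3 → ℂ) i ≠ 0 := by
        intro i
        fin_cases i
        · exact hW0
        · exact p1
        · exact hW2'
      refine ⟨⟨fun i => Or.inl (hW i), ?_⟩, hW, mul_ne_zero ht' p2, hX2⟩
      show (t * pert (X 1) t) * X 2 * pert (W 1) t = b 4 * pert (X 1) t * W 0 *
        (t * (X 2 * pert (W 1) t / (b 4 * W 0)))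
      field_simp
  by_cases hB : X 2 = 0 ∧ W 0 = 0
  · obtain ⟨hX2, hW0⟩ := hB
    have hW2 : W 2 ≠ 0 := (hne 2).resolve_right (fun h => h hX2)
    have hX0 : X 0 ≠ 0 := (hne 0).resolve_left (fun h => h hW0)
    refine mem_closure_of_path (fun t => (![t * (X 0 * pert (W 1) t / (b 4 * W 2)),
      pert (W 1) t, W 2], ![X 0, pert (X 1) t, t * pert (X 1) t])) ?_ ?_ ?_
    · have c1 := pert_continuous (W 1)
      have c2 := pert_continuous (X 1)
      refine Continuous.prodMk (continuous_pi fun i => ?_) (continuous_pi fun i => ?_)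
      · fin_cases i
        · show Continuous fun t : ℝ => (t : ℂ) * (X 0 * pert (W 1) t / (b 4 * W 2))
          fun_prop
        · exact c1
        · exact continuous_const
      · fin_cases i
        · exact continuous_const
        · exact c2
        · show Continuous fun t : ℝ => (t : ℂ) * pert (X 1) t
          fun_prop
    · refine Prod.ext ?_ ?_
      · funext i
        fin_cases i
        · show ((0 : ℝ) : ℂ) * (X 0 * pert (W 1) 0 / (b 4 * W 2)) = W 0
          rw [hW0]; simp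
        · exact pert_zero _
        · rfl
      · funext i
        fin_cases i
        · rfl
        · exact pert_zero _
        · show ((0 : ℝ) : ℂ) * pert (X 1) 0 = X 2
          rw [hX2]; simp
    · intro t ht
      have ht' : (t : ℂ) ≠ 0 := by exact_mod_cast ht.ne'
      have p1 := pert_ne (W 1) ht
      have p2 := pert_ne (X 1) ht
      have hW0' : (t : ℂ) * (X 0 * pert (W 1) t / (b 4 * W 2)) ≠ 0 :=
        mul_ne_zero ht' (div_ne_zero (mul_ne_zero hX0 p1) (mul_ne_zero h4 hW2))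
      have hW : ∀ i : Fin 3, (![t * (X 0 * pert (W 1) t / (b 4 * W 2)),
          pert (W 1) t, W 2] : Fin 3 → ℂ) i ≠ 0 := by
        intro i
        fin_cases i
        · exact hW0'
        · exact p1
        · exact hW2
      refine ⟨⟨fun i => Or.inl (hW i), ?_⟩, hW, hX0, mul_ne_zero ht' p2⟩
      show X 0 * (t * pert (X 1) t) * pert (W 1) t = b 4 * pert (X 1) t *
        (t * (X 0 * pert (W 1) t / (b 4 * W 2))) * W 2
      field_simp
  · -- `(X₀X₂, W₀W₂) ≠ 0`
    have hnz : X 0 * X 2 ≠ 0 ∨ W 0 * W 2 ≠ 0 := by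
      by_contra hcon
      push Not at hcon
      obtain ⟨h1, h2⟩ := hcon
      rcases mul_eq_zero.1 h1 with h0 | h0
      · have hW0 : W 0 ≠ 0 := (hne 0).resolve_right (fun h => h h0)
        exact hA ⟨h0, (mul_eq_zero.1 h2).resolve_left hW0⟩
      · have hW2 : W 2 ≠ 0 := (hne 2).resolve_right (fun h => h h0)
        exact hB ⟨h0, (mul_eq_zero.1 h2).resolve_right hW2⟩
    obtain ⟨k, hk, hk1, hk2⟩ : ∃ k : ℂ, k ≠ 0 ∧ W 1 = k * (b 4 * (W 0 * W 2)) ∧
        X 1 = k * (X 0 * X 2) := by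
      by_cases hXX : X 0 * X 2 = 0
      · have hWW : W 0 * W 2 ≠ 0 := hnz.resolve_left (fun h => h hXX)
        have hX1 : X 1 = 0 := by
          rw [hXX, zero_mul] at hz
          have h5 : b 4 * (W 0 * W 2) * X 1 = 0 := by linear_combination -hz
          exact (mul_eq_zero.1 h5).resolve_left (mul_ne_zero h4 hWW)
        have hW1 : W 1 ≠ 0 := (hne 1).resolve_right (fun h => h hX1)
        have h6 : b 4 * (W 0 * W 2) ≠ 0 := mul_ne_zero h4 hWW
        exact ⟨W 1 / (b 4 * (W 0 * W 2)), div_ne_zero hW1 h6, (div_mul_cancel₀ _ h6).symm,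
          by rw [hXX, hX1, mul_zero]⟩
      · have hX1 : X 1 ≠ 0 := by
          intro h0
          rw [h0] at hz
          have h5 : X 0 * X 2 * W 1 = 0 := by rw [hz]; ring
          have h6 : W 1 = 0 := (mul_eq_zero.1 h5).resolve_left hXX
          exact (hne 1).elim (fun h => h h6) (fun h => h h0)
        refine ⟨X 1 / (X 0 * X 2), div_ne_zero hX1 hXX, ?_, (div_mul_cancel₀ _ hXX).symm⟩
        rw [div_mul_eq_mul_div, eq_div_iff hXX]
        linear_combination hz
    refine mem_closure_of_path (fun t => (![pert (W 0) t,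
      k * (b 4 * (pert (W 0) t * pert (W 2) t)), pert (W 2) t],
      ![pert (X 0) t, k * (pert (X 0) t * pert (X 2) t), pert (X 2) t])) ?_ ?_ ?_
    · have c1 := pert_continuous (W 0)
      have c2 := pert_continuous (X 0)
      have c3 := pert_continuous (W 2)
      have c4 := pert_continuous (X 2)
      refine Continuous.prodMk (continuous_pi fun i => ?_) (continuous_pi fun i => ?_)
      · fin_cases i
        · exact c1
        · show Continuous fun t : ℝ => k * (b 4 * (pert (W 0) t * pert (W 2) t))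
          fun_prop
        · exact c3
      · fin_cases i
        · exact c2
        · show Continuous fun t : ℝ => k * (pert (X 0) t * pert (X 2) t)
          fun_prop
        · exact c4
    · refine Prod.ext ?_ ?_
      · funext i
        fin_cases i
        · exact pert_zero _
        · show k * (b 4 * (pert (W 0) 0 * pert (W 2) 0)) = W 1
          rw [pert_zero, pert_zero, hk1]
        · exact pert_zero _
      · funext i
        fin_cases i
        · exact pert_zero _
        · show k * (pert (X 0) 0 * pert (X 2) 0) = X 1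
          rw [pert_zero, pert_zero, hk2]
        · exact pert_zero _
    · intro t ht
      have p1 := pert_ne (W 0) ht
      have p2 := pert_ne (X 0) ht
      have p3 := pert_ne (W 2) ht
      have p4 := pert_ne (X 2) ht
      have hW : ∀ i : Fin 3, (![pert (W 0) t, k * (b 4 * (pert (W 0) t * pert (W 2) t)),
          pert (W 2) t] : Fin 3 → ℂ) i ≠ 0 := by
        intro i
        fin_cases i
        · exact p1
        · exact mul_ne_zero hk (mul_ne_zero h4 (mul_ne_zero p1 p3))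
        · exact p3
      refine ⟨⟨fun i => Or.inl (hW i), ?_⟩, hW, p2, p4⟩
      show pert (X 0) t * pert (X 2) t * (k * (b 4 * (pert (W 0) t * pert (W 2) t))) =
        b 4 * (k * (pert (X 0) t * pert (X 2) t)) * pert (W 0) t * pert (W 2) t
      ring

theorem isPreconnected_zset {b : Param} (h4 : b 4 ≠ 0) : IsPreconnected (ZSet b) :=
  (isPreconnected_torusSet h4).subset_closure (fun _ hz => hz.1) (zset_subset_closure h4)

/-! ### square roots near a given one -/

open Classical in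
/-- the square root of `w` which is nearest to `y` -/
noncomputable def nearRoot (y w : ℂ) : ℂ :=
  if ‖w ^ (1 / 2 : ℂ) - y‖ ≤ ‖w ^ (1 / 2 : ℂ) + y‖ then w ^ (1 / 2 : ℂ) else -w ^ (1 / 2 : ℂ)

theorem cpow_half_sq (w : ℂ) : (w ^ (1 / 2 : ℂ)) ^ 2 = w := by
  rw [← Complex.cpow_nat_mul]
  norm_num

theorem nearRoot_sq (y w : ℂ) : nearRoot y w ^ 2 = w := by
  unfold nearRoot
  split_ifs
  · exact cpow_half_sq w
  · rw [neg_sq, cpow_half_sq]

theorem nearRoot_le (y w : ℂ) : ‖nearRoot y w - y‖ ≤ ‖nearRoot y w + y‖ := by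
  unfold nearRoot
  split_ifs with h
  · exact h
  · push Not at h
    calc ‖-w ^ (1 / 2 : ℂ) - y‖ = ‖w ^ (1 / 2 : ℂ) + y‖ := by
          rw [← norm_neg]; congr 1; ring
      _ ≤ ‖w ^ (1 / 2 : ℂ) - y‖ := h.le
      _ = ‖-w ^ (1 / 2 : ℂ) + y‖ := by rw [← norm_neg]; congr 1; ring

theorem nearRoot_dist (y w : ℂ) : ‖nearRoot y w - y‖ ^ 2 ≤ ‖w - y ^ 2‖ := by
  have h1 : w - y ^ 2 = (nearRoot y w - y) * (nearRoot y w + y) := by
    linear_combination -nearRoot_sq y w
  rw [h1, norm_mul, sq]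
  exact mul_le_mul_of_nonneg_left (nearRoot_le y w) (norm_nonneg _)

theorem nearRoot_tendsto {α : Type*} {l : Filter α} {w : α → ℂ} {y : ℂ}
    (hw : Tendsto w l (𝓝 (y ^ 2))) : Tendsto (fun a => nearRoot y (w a)) l (𝓝 y) := by
  rw [tendsto_iff_norm_sub_tendsto_zero]
  have h1 : Tendsto (fun a => ‖w a - y ^ 2‖) l (𝓝 0) := by
    rwa [← tendsto_iff_norm_sub_tendsto_zero]
  have h2 : Tendsto (fun a => ‖nearRoot y (w a) - y‖ ^ 2) l (𝓝 0) :=
    squeeze_zero (fun _ => sq_nonneg _) (fun a => nearRoot_dist y (w a)) h1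
  have h3 := (Real.continuous_sqrt.tendsto 0).comp h2
  rw [Real.sqrt_zero] at h3
  refine h3.congr fun a => ?_
  show Real.sqrt (‖nearRoot y (w a) - y‖ ^ 2) = _
  exact Real.sqrt_sq (norm_nonneg _)

/-! ### the fibre -/

variable {b : Param} (hb : b ∈ BaseSet)

/-- the point of `Cone` over `z ∈ Z` with given `Y` -/
def toCone (z : ZSet b) (Y : Fin 3 → ℂ) (hY : ∀ i, Y i ^ 2 = quartic b i (z.1.1 i) (z.1.2 i)) :
    Cone :=
  ⟨(b, z.1.1, z.1.2, Y), hb, z.2.1, hY, z.2.2⟩

/-- the value `F_i(z)` -/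
noncomputable def Fz (b : Param) (i : Fin 3) (z : ZSet b) : ℂ := quartic b i (z.1.1 i) (z.1.2 i)

theorem Fz_continuous (i : Fin 3) : Continuous (Fz b i) := by
  have h1 : Continuous fun z : ZSet b => z.1.1 i :=
    (continuous_apply i).comp (continuous_fst.comp continuous_subtype_val)
  have h2 : Continuous fun z : ZSet b => z.1.2 i :=
    (continuous_apply i).comp (continuous_snd.comp continuous_subtype_val)
  exact (quartic_continuous i).comp (continuous_const.prodMk (h1.prodMk h2))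

/-- the sign of a Boolean -/
def sg (e : Bool) : ℂ := if e then 1 else -1

theorem sg_sq (e : Bool) : sg e ^ 2 = 1 := by
  unfold sg
  split_ifs <;> norm_num

/-- the lift of `z'` near `(z, Y)`, with signs -/
noncomputable def nearLift (Y : Fin 3 → ℂ) (e : Fin 3 → Bool) (z : ZSet b) : Cone :=
  toCone hb z (fun i => sg (e i) * nearRoot (Y i) (Fz b i z)) (fun i => by
    rw [mul_pow, sg_sq, one_mul, nearRoot_sq]; rfl)

theorem nearLift_tendsto {z : ZSet b} {Y : Fin 3 → ℂ} (hY : ∀ i, Y i ^ 2 = Fz b i z)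
    (e : Fin 3 → Bool) :
    Tendsto (nearLift hb Y e) (𝓝 z) (𝓝 (toCone hb z (fun i => sg (e i) * Y i) (fun i => by
      rw [mul_pow, sg_sq, one_mul]; exact hY i))) := by
  refine (⟨rfl⟩ : Topology.IsInducing (Subtype.val : Cone → Ambient)).tendsto_nhds_iff.2 ?_
  have h1 : Tendsto (fun z' : ZSet b => z'.1.1) (𝓝 z) (𝓝 z.1.1) :=
    (continuous_fst.comp continuous_subtype_val).tendsto z
  have h2 : Tendsto (fun z' : ZSet b => z'.1.2) (𝓝 z) (𝓝 z.1.2) :=
    (continuous_snd.comp continuous_subtype_val).tendsto z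
  have h3 : Tendsto (fun z' : ZSet b => fun i => sg (e i) * nearRoot (Y i) (Fz b i z')) (𝓝 z)
      (𝓝 (fun i => sg (e i) * Y i)) := by
    rw [tendsto_pi_nhds]
    intro i
    refine tendsto_const_nhds.mul (nearRoot_tendsto ?_)
    rw [hY i]
    exact (Fz_continuous i).tendsto z
  exact tendsto_const_nhds.prodMk_nhds (h1.prodMk_nhds (h2.prodMk_nhds h3))

/-- any lift of `z` is one of the eight near lifts -/
theorem exists_nearLift (Y : Fin 3 → ℂ) (z : ZSet b) (Y' : Fin 3 → ℂ)
    (hY' : ∀ i, Y' i ^ 2 = quartic b i (z.1.1 i) (z.1.2 i)) :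
    ∃ e, toCone hb z Y' hY' = nearLift hb Y e z := by
  have h1 : ∀ i, ∃ e : Bool, Y' i = sg e * nearRoot (Y i) (Fz b i z) := by
    intro i
    have h2 : Y' i ^ 2 = nearRoot (Y i) (Fz b i z) ^ 2 := by
      rw [nearRoot_sq]; exact hY' i
    rcases sq_eq_sq_iff_eq_or_eq_neg.1 h2 with h | h
    · exact ⟨true, by simp [sg, h]⟩
    · exact ⟨false, by simp [sg, h]⟩
  choose e he using h1
  refine ⟨e, Subtype.ext ?_⟩
  refine Prod.ext rfl (Prod.ext rfl (Prod.ext rfl ?_))
  funext i
  exact he i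

/-- the points of `Z` with a preimage in `t` -/
def Img (t : Set Total) : Set (ZSet b) :=
  {z | ∃ (Y : Fin 3 → ℂ) (hY : ∀ i, Y i ^ 2 = quartic b i (z.1.1 i) (z.1.2 i)),
    Total.mk (toCone hb z Y hY) ∈ t}

theorem exists_lift (z : ZSet b) :
    ∃ Y : Fin 3 → ℂ, ∀ i, Y i ^ 2 = quartic b i (z.1.1 i) (z.1.2 i) := by
  choose Y hY using fun i : Fin 3 =>
    IsAlgClosed.exists_pow_nat_eq (quartic b i (z.1.1 i) (z.1.2 i)) (n := 2) two_pos
  exact ⟨Y, hY⟩

theorem isClosed_img {t : Set Total} (ht : IsClosed t) : IsClosed (Img hb t) := by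
  rw [← isOpen_compl_iff, isOpen_iff_eventually]
  intro z hz
  obtain ⟨Y, hY⟩ := exists_lift z
  have h1 : ∀ e : Fin 3 → Bool, ∀ᶠ z' in 𝓝 z, Total.mk (nearLift hb Y e z') ∉ t := by
    intro e
    have h2 := (mk_continuous.tendsto _).comp (nearLift_tendsto hb hY e)
    refine h2.eventually (ht.isOpen_compl.mem_nhds ?_)
    intro h3
    exact hz ⟨_, _, h3⟩
  filter_upwards [eventually_all.2 h1] with z' hz'
  rintro ⟨Y', hY', h⟩
  obtain ⟨e, he⟩ := exists_nearLift hb Y z' Y' hY'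
  rw [he] at h
  exact hz' e h

theorem isOpen_img {t t' : Set Total} (ht' : IsClosed t')
    (hcov : ∀ P : Total, P.proj = b → P ∈ t ∨ P ∈ t')
    (hdis : ∀ P : Total, P.proj = b → P ∈ t → P ∉ t') : IsOpen (Img hb t) := by
  rw [isOpen_iff_eventually]
  rintro z ⟨Y, hY, hP⟩
  have h2 := (mk_continuous.tendsto _).comp (nearLift_tendsto hb hY (fun _ => true))
  have h3 : toCone hb z (fun i => sg true * Y i) (fun i => by
      rw [mul_pow, sg_sq, one_mul]; exact hY i) = toCone hb z Y hY := by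
    refine Subtype.ext (Prod.ext rfl (Prod.ext rfl (Prod.ext rfl ?_)))
    funext i
    show sg true * Y i = Y i
    simp [sg]
  rw [h3] at h2
  have h4 : Total.mk (toCone hb z Y hY) ∉ t' := hdis _ rfl hP
  filter_upwards [h2.eventually (ht'.isOpen_compl.mem_nhds h4)] with z' hz'
  exact ⟨_, _, (hcov _ rfl).resolve_right hz'⟩

/-- the point `x₀ = 1`, `x₂ = 1` of `Z` -/
noncomputable def zOne (h4 : b 4 ≠ 0) : ZSet b :=
  ⟨(fun _ => 1, ![1, 1 / b 4, 1]), fun _ => Or.inl one_ne_zero, by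
    show (1 : ℂ) * 1 * 1 = b 4 * (1 / b 4) * 1 * 1
    field_simp⟩

theorem quartic0_at_one : quartic b 0 1 1 = 0 := by
  unfold quartic
  rw [Fin.prod_univ_four]
  simp [root]

theorem quartic2_at_one : quartic b 2 1 1 = 0 := by
  unfold quartic
  rw [Fin.prod_univ_four]
  simp [root]

/-- **The fibres of `S → B` are connected.** -/
theorem isPreconnected_fibre (β : {b : Param // b ∈ BaseSet}) :
    IsPreconnected (projB ⁻¹' {β}) := by
  obtain ⟨b, hb⟩ := β
  have h4 : b 4 ≠ 0 := hb.2.2.1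
  rw [isPreconnected_closed_iff]
  intro t t' ht ht' hcov hnt hnt'
  by_contra hcon
  have hmem : ∀ P : Total, P ∈ projB ⁻¹' {(⟨b, hb⟩ : {b : Param // b ∈ BaseSet})} ↔
      P.proj = b := by
    intro P
    exact ⟨fun h => congrArg Subtype.val h, fun h => Subtype.ext h⟩
  have hcov' : ∀ P : Total, P.proj = b → P ∈ t ∨ P ∈ t' := fun P hP => hcov ((hmem P).2 hP)
  have hdis : ∀ P : Total, P.proj = b → P ∈ t → P ∉ t' := fun P hP h1 h2 =>
    hcon ⟨P, (hmem P).2 hP, h1, h2⟩
  have hcov2 : ∀ P : Total, P.proj = b → P ∈ t' ∨ P ∈ t := fun P hP => (hcov' P hP).symm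
  have hdis2 : ∀ P : Total, P.proj = b → P ∈ t' → P ∉ t := fun P hP h1 h2 => hdis P hP h2 h1
  have hZ : PreconnectedSpace (ZSet b) := isPreconnected_iff_preconnectedSpace.1
    (isPreconnected_zset h4)
  have hne : ∀ s : Set Total, (projB ⁻¹' {(⟨b, hb⟩ : {b : Param // b ∈ BaseSet})} ∩ s).Nonempty →
      (Img hb s).Nonempty := by
    rintro s ⟨P, hP, hPs⟩
    obtain ⟨p, rfl⟩ := mk_surjective P
    have hpb : p.b = b := (hmem _).1 hP
    subst hpb
    exact ⟨⟨(p.W, p.X), p.2.2.1, p.2.2.2.2⟩, p.Y, p.2.2.2.1, hPs⟩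
  have c1 : IsClopen (Img hb t) := ⟨isClosed_img hb ht, isOpen_img hb ht' hcov' hdis⟩
  have c2 : IsClopen (Img hb t') := ⟨isClosed_img hb ht', isOpen_img hb ht hcov2 hdis2⟩
  have e1 : Img hb t = Set.univ := c1.eq_univ (hne t hnt)
  have e2 : Img hb t' = Set.univ := c2.eq_univ (hne t' hnt')
  obtain ⟨Y, hY, hPt⟩ : zOne h4 ∈ Img hb t := by rw [e1]; trivial
  obtain ⟨Y', hY', hPt'⟩ : zOne h4 ∈ Img hb t' := by rw [e2]; trivial
  have hY0 : Y 0 = 0 := by
    have h := hY 0
    have h5 : quartic b 0 ((zOne h4).1.1 0) ((zOne h4).1.2 0) = 0 := quartic0_at_one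
    rw [h5] at h
    exact pow_eq_zero_iff two_ne_zero |>.1 h
  have hY0' : Y' 0 = 0 := by
    have h := hY' 0
    have h5 : quartic b 0 ((zOne h4).1.1 0) ((zOne h4).1.2 0) = 0 := quartic0_at_one
    rw [h5] at h
    exact pow_eq_zero_iff two_ne_zero |>.1 h
  have hY2 : Y 2 = 0 := by
    have h := hY 2
    have h5 : quartic b 2 ((zOne h4).1.1 2) ((zOne h4).1.2 2) = 0 := quartic2_at_one
    rw [h5] at h
    exact pow_eq_zero_iff two_ne_zero |>.1 h
  have hY2' : Y' 2 = 0 := by
    have h := hY' 2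
    have h5 : quartic b 2 ((zOne h4).1.1 2) ((zOne h4).1.2 2) = 0 := quartic2_at_one
    rw [h5] at h
    exact pow_eq_zero_iff two_ne_zero |>.1 h
  have hY1 : Y' 1 = Y 1 ∨ Y' 1 = -Y 1 := by
    apply sq_eq_sq_iff_eq_or_eq_neg.1
    rw [hY 1, hY' 1]
  have hsame : SameRel (toCone hb (zOne h4) Y hY) (toCone hb (zOne h4) Y' hY') := by
    rcases hY1 with h | h
    · refine ⟨rfl, fun _ => 1, 1, fun _ => one_ne_zero, Or.inl rfl, fun i => ?_⟩
      refine ⟨(one_mul _).symm, (one_mul _).symm, ?_⟩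
      show Y' i = 1 * (1 ^ 2 * Y i)
      fin_cases i
      · show Y' 0 = 1 * (1 ^ 2 * Y 0)
        rw [hY0, hY0']; ring
      · show Y' 1 = 1 * (1 ^ 2 * Y 1)
        rw [h]; ring
      · show Y' 2 = 1 * (1 ^ 2 * Y 2)
        rw [hY2, hY2']; ring
    · refine ⟨rfl, fun _ => 1, -1, fun _ => one_ne_zero, Or.inr rfl, fun i => ?_⟩
      refine ⟨(one_mul _).symm, (one_mul _).symm, ?_⟩
      show Y' i = -1 * (1 ^ 2 * Y i)
      fin_cases i
      · show Y' 0 = -1 * (1 ^ 2 * Y 0)
        rw [hY0, hY0']; ring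
      · show Y' 1 = -1 * (1 ^ 2 * Y 1)
        rw [h]; ring
      · show Y' 2 = -1 * (1 ^ 2 * Y 2)
        rw [hY2, hY2']; ring
  have heq : Total.mk (toCone hb (zOne h4) Y hY) = Total.mk (toCone hb (zOne h4) Y' hY') :=
    (mk_eq_iff _ _).2 hsame
  exact hdis _ rfl hPt (heq ▸ hPt')

theorem isConnected_fibre (β : {b : Param // b ∈ BaseSet}) : IsConnected (projB ⁻¹' {β}) :=
  ⟨let ⟨P, hP⟩ := projB_surjective β; ⟨P, hP⟩, isPreconnected_fibre β⟩

end TripleBurger
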