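import Pool.Agent.helper10.K3S.ProjDef

/-!
# The three commuting involutions of the family (definitions)
-/

set_option autoImplicit false

noncomputable section
namespace TripleBurger.Invol

open TripleBurger Pool.Agent.K3G TripleBurger.Proj

/-- `-1` in place `j`, `1` in the other places -/
def sg (j i : Fin 3) : ℂ := if i = j then -1 else 1

theorem sg_mul_self (j i : Fin 3) : sg j i * sg j i = 1 := by
  unfold sg; split_ifs <;> norm_num

/-- change the sign of `Y_j` in the homogeneous coordinates -/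
def flipA (j : Fin 3) (a : Ambient) : Ambient := (a.1, a.2.1, a.2.2.1, fun i => sg j i * a.2.2.2 i)

theorem flipA_pt (j : Fin 3) (p : Cone) : IsPt (flipA j p.1) := by
  refine ⟨p.2.1, p.2.2.1, fun i => ?_, p.2.2.2.2⟩
  have h1 : p.Y i ^ 2 = quartic p.b i (p.W i) (p.X i) := p.2.2.2.1 i
  have h2 := sg_mul_self j i
  change (sg j i * p.Y i) ^ 2 = quartic p.b i (p.W i) (p.X i)
  rw [← h1]
  linear_combination p.Y i ^ 2 * h2

/-- change the sign of `Y_j` -/
def flip (j : Fin 3) (p : Cone) : Cone := ⟨flipA j p.1, flipA_pt j p⟩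

theorem flip_rel (j : Fin 3) (p q : Cone) (h : SameRel p q) : SameRel (flip j p) (flip j q) := by
  obtain ⟨hb, c, σ, hc, hσ, h⟩ := h
  refine ⟨hb, c, σ, hc, hσ, fun i => ⟨(h i).1, (h i).2.1, ?_⟩⟩
  change sg j i * q.Y i = σ * (c i ^ 2 * (sg j i * p.Y i))
  rw [(h i).2.2]
  ring

/-- **The involution** `Y_j ↦ -Y_j` of the total space. -/
def sig (j : Fin 3) : Total → Total := Quotient.map (flip j) (flip_rel j)

/-- `Y_j ↦ -Y_j` is induced by a diagonal linear map of `ℙ³⁵` (so it is algebraic) -/
def IsDiagonal (j : Fin 3) : Prop :=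
  ∃ ε : Idx → ℂ, ∀ (p : Cone) (l : Idx), mon (coord (flip j p)) l = ε l * mon (coord p) l

/-- `Y_j ↦ -Y_j` is an involution over the base, and not the identity on any fibre -/
def IsInvolution (j : Fin 3) : Prop := Continuous (sig j) ∧ (∀ P, (sig j P).proj = P.proj ∧ sig j (sig j P) = P) ∧
  ∀ b ∈ BaseSet, ∃ P : Total, P.proj = b ∧ sig j P ≠ P

/-- **the three commuting involutions of the family** -/
def HasInvolutions : Prop := ∀ j : Fin 3, IsInvolution j ∧ IsDiagonal j ∧ ∀ k P, sig j (sig k P) = sig k (sig j P)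

end TripleBurger.Invol
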