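import Pool.Agent.helper10.K3B.Top
import Pool.Agent.helper10.K3S.Canon
import Pool.Agent.helper10.K3S.InvolDef

/-!
# K3S: the three commuting involutions of the family

`sig j : S → S` changes the sign of `Y_j`.  The `sig j` are commuting involutions of the total space over the base,
`sig (j + 1) ∘ sig (j + 2) = sig j` (since `-1` acts trivially on `S`), none is the identity on any fibre.
They are the restrictions of diagonal linear maps of `ℙ³⁵` (`mon_flip`), so they are algebraic.  They map the regular
differentials `η_i` to `± η_i` (`isEta_flip`), so the form `η_{j+1} ∧ η_{j+2}` is `sig j`-invariant and the two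
others change sign, and they act on the canonical image by signs (`isCanonicalImage_flip`).
-/

set_option autoImplicit false

noncomputable section
namespace TripleBurger.Invol

open TripleBurger Pool.Agent.K3G TripleBurger.Proj TripleBurger.Canon

theorem sg_self (j : Fin 3) : sg j j = -1 := by simp [sg]

theorem sg_of_ne {j i : Fin 3} (h : i ≠ j) : sg j i = 1 := by simp [sg, h]

theorem sg_ne_zero (j i : Fin 3) : sg j i ≠ 0 := by
  unfold sg; split_ifs <;> norm_num

@[simp] theorem flip_b (j : Fin 3) (p : Cone) : (flip j p).b = p.b := rfl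
@[simp] theorem flip_W (j : Fin 3) (p : Cone) (i : Fin 3) : (flip j p).W i = p.W i := rfl
@[simp] theorem flip_X (j : Fin 3) (p : Cone) (i : Fin 3) : (flip j p).X i = p.X i := rfl
@[simp] theorem flip_Y (j : Fin 3) (p : Cone) (i : Fin 3) : (flip j p).Y i = sg j i * p.Y i := rfl

theorem flip_flip (j : Fin 3) (p : Cone) : flip j (flip j p) = p := by
  refine Subtype.ext (Prod.ext rfl (Prod.ext rfl (Prod.ext rfl ?_)))
  funext i
  change sg j i * (sg j i * p.Y i) = p.Y i
  rw [← mul_assoc, sg_mul_self, one_mul]

theorem flip_comm (j k : Fin 3) (p : Cone) : flip j (flip k p) = flip k (flip j p) := by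
  refine Subtype.ext (Prod.ext rfl (Prod.ext rfl (Prod.ext rfl ?_)))
  funext i
  change sg j i * (sg k i * p.Y i) = sg k i * (sg j i * p.Y i)
  ring

/-- two sign changes are the third one, up to `-1` -/
theorem flip_mul (j : Fin 3) (p : Cone) : SameRel (flip (j + 1) (flip (j + 2) p)) (flip j p) := by
  refine ⟨rfl, fun _ => 1, -1, fun _ => one_ne_zero, Or.inr rfl, fun i => ⟨by simp, by simp, ?_⟩⟩
  have h : sg j i = -(sg (j + 1) i * sg (j + 2) i) := by
    revert j i
    intro j i
    fin_cases j <;> fin_cases i <;> simp [sg]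
  rw [flip_Y, flip_Y, flip_Y, h]
  ring

theorem sig_mk (j : Fin 3) (p : Cone) : sig j (Total.mk p) = Total.mk (flip j p) := rfl

theorem flip_continuous (j : Fin 3) : Continuous (flip j) := by
  refine Continuous.subtype_mk (Continuous.prodMk cone_b_continuous (Continuous.prodMk
    (continuous_pi cone_W_continuous) (Continuous.prodMk (continuous_pi cone_X_continuous)
      (continuous_pi fun i => continuous_const.mul (cone_Y_continuous i))))) _

theorem sig_continuous (j : Fin 3) : Continuous (sig j) :=
  (mk_continuous.comp (flip_continuous j)).quotient_lift _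

/-- the involutions are over the base -/
theorem proj_sig (j : Fin 3) (P : Total) : (sig j P).proj = P.proj := by
  obtain ⟨p, rfl⟩ := mk_surjective P
  rfl

theorem sig_sig (j : Fin 3) (P : Total) : sig j (sig j P) = P := by
  obtain ⟨p, rfl⟩ := mk_surjective P
  rw [sig_mk, sig_mk, flip_flip]

theorem sig_comm (j k : Fin 3) (P : Total) : sig j (sig k P) = sig k (sig j P) := by
  obtain ⟨p, rfl⟩ := mk_surjective P
  rw [sig_mk, sig_mk, sig_mk, sig_mk, flip_comm]

theorem sig_mul (j : Fin 3) (P : Total) : sig (j + 1) (sig (j + 2) P) = sig j P := by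
  obtain ⟨p, rfl⟩ := mk_surjective P
  rw [sig_mk, sig_mk, sig_mk]
  exact Quotient.sound (flip_mul j p)

/-- the involution as homeomorphism -/
def homeo (j : Fin 3) : Total ≃ₜ Total where
  toFun := sig j
  invFun := sig j
  left_inv := sig_sig j
  right_inv := sig_sig j
  continuous_toFun := sig_continuous j
  continuous_invFun := sig_continuous j

/-- no involution is the identity on a fibre -/
theorem exists_sig_ne (j : Fin 3) {b : Param} (hb : b ∈ BaseSet) : ∃ P : Total, P.proj = b ∧ sig j P ≠ P := by
  have hsq : ∀ z : ℂ, ∃ y : ℂ, y ^ 2 = z := fun z => IsAlgClosed.exists_pow_nat_eq z two_pos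
  choose r hr using hsq
  let p : Cone := ⟨(b, fun _ => 1, fun _ => 0, fun i => r (quartic b i 1 0)), hb, fun _ => Or.inl one_ne_zero,
    fun i => hr _, by simp⟩
  have hY : ∀ i, p.Y i ≠ 0 := by
    intro i h0
    have h1 : p.Y i ^ 2 = quartic b i 1 0 := hr _
    rw [h0] at h1
    exact quartic_one_zero_ne hb i (by rw [← h1]; norm_num)
  refine ⟨Total.mk p, rfl, fun h => ?_⟩
  rw [sig_mk] at h
  obtain ⟨-, c, σ, -, -, h⟩ : SameRel (flip j p) p := Quotient.exact h
  have hc : ∀ i, c i = 1 := by
    intro i
    have h1 := (h i).1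
    rw [flip_W] at h1
    have h2 : p.W i = 1 := rfl
    rw [h2, mul_one] at h1
    exact h1.symm
  have hs : ∀ i, σ * sg j i = 1 := by
    intro i
    have h1 := (h i).2.2
    rw [flip_Y, hc i, one_pow, one_mul] at h1
    apply mul_right_cancel₀ (hY i)
    linear_combination -h1
  have h1 := hs j
  have h2 := hs (j + 1)
  rw [sg_self] at h1
  rw [sg_of_ne (ne1 j)] at h2
  have : (2 : ℂ) = 0 := by linear_combination -h1 - h2
  norm_num at this

/-! ### The involutions are algebraic -/

/-- the signs of the monomials -/
def eps (j : Fin 3) : Idx → ℂ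
  | Sum.inl _ => 1
  | Sum.inr (k, _) => if k = j then 1 else -1

/-- the involutions are induced by diagonal linear maps of `ℙ³⁵` -/
theorem mon_flip (j : Fin 3) (p : Cone) (l : Idx) : mon (coord (flip j p)) l = eps j l * mon (coord p) l := by
  rcases l with e | ⟨k, a⟩
  · simp only [mon, coord, eps, one_mul, flip_W, flip_X]
  · have h : sg j (k + 1) * sg j (k + 2) = if k = j then 1 else -1 := by
      fin_cases j <;> fin_cases k <;> simp [sg]
    simp only [mon, coord, eps, flip_W, flip_X, flip_Y]
    rw [← h]
    ring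

/-! ### The action on differential forms -/

/-- the action on tangent vectors -/
def flipV (j : Fin 3) (u : V9) : V9 := (u.1, u.2.1, fun i => sg j i * u.2.2 i)

theorem mem_Tan_flip (j : Fin 3) {p : Cone} {u : V9} (hu : u ∈ Tan p) : flipV j u ∈ Tan (flip j p) := by
  rw [mem_Tan] at hu ⊢
  have h0 := congrArg Prod.snd hu
  refine Prod.ext ?_ h0
  funext i
  have h1 := congrFun (congrArg Prod.fst hu) i
  have h2 := sg_mul_self j i
  simp only [deqs, coord, flipV, flip_b, flip_W, flip_X, flip_Y, Prod.fst_zero, Pi.zero_apply] at h1 ⊢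
  linear_combination h1 + 2 * p.Y i * u.2.2 i * h2

theorem isEta_flip (j : Fin 3) {p : Cone} {i : Fin 3} {u : V9} {t : ℂ} (h : IsEta p i u t) :
    IsEta (flip j p) i (flipV j u) (sg j i * t) := by
  obtain ⟨h1, h2, h3⟩ := h
  have h4 := sg_mul_self j i
  refine ⟨?_, ?_, ?_⟩
  · simp only [flipV, flip_W, flip_X, flip_Y]
    linear_combination h1 + p.Y i * t * h4
  · simp only [flipV, flip_b, flip_W, flip_X, flip_Y]
    linear_combination sg j i * h2
  · simp only [flipV, flip_b, flip_W, flip_X, flip_Y]
    linear_combination sg j i * h3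

/-- the canonical map is equivariant: `sig j` acts on `ℙ²` by the sign change of the `j`-th coordinate -/
theorem isCanonicalImage_flip (j : Fin 3) {p : Cone} {v : Fin 3 → ℂ} (h' : IsCanonicalImage p v) :
    IsCanonicalImage (flip j p) (fun i => sg j i * v i) := by
  have h := isCanonicalImage_iff.mp h'
  refine isCanonicalImage_iff.mpr ?_
  intro u hu w hw s t hs ht
  have e : flip j (flip j p) = p := flip_flip j p
  have hu' := mem_Tan_flip j hu
  have hw' := mem_Tan_flip j hw
  have hs' := fun i => isEta_flip j (hs i)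
  have ht' := fun i => isEta_flip j (ht i)
  rw [e] at hu' hw' hs' ht'
  obtain ⟨k, hk⟩ := h _ hu' _ hw' _ _ hs' ht'
  refine ⟨-k, fun i => ?_⟩
  have h1 := hk i
  have h2 : sg j (i + 1) * sg j (i + 2) = -sg j i := by
    fin_cases j <;> fin_cases i <;> simp [sg]
  have h3 := sg_mul_self j i
  linear_combination (-sg j i) * h1 + (s (i + 1) * t (i + 2) - s (i + 2) * t (i + 1)) * sg j i * h2
    - (s (i + 1) * t (i + 2) - s (i + 2) * t (i + 1)) * h3

/-- **The three commuting involutions of the family** -/
theorem hasInvolutions : HasInvolutions := fun j =>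
  ⟨⟨sig_continuous j, fun P => ⟨proj_sig j P, sig_sig j P⟩, fun _ hb => exists_sig_ne j hb⟩,
    ⟨eps j, fun p l => mon_flip j p l⟩, fun k P => sig_comm j k P⟩

end TripleBurger.Invol
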