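import Pool.Agent.helper10.K3B.Def

/-!
# K3S: finiteness of the fibres of the canonical map, algebraic part

For `b ∈ BaseSet` and every `v` there are only finitely many `x = (x₀, x₁, x₂)` with `x₀ x₂ = b₄ x₁` for which
`q_i(x_i) = g v_i² x_i²` for one common `g`.  The algebra `A` over `ℂ[g]` defined by these equations is finite
(`q_i` is monic), and its fibre over `g = 0` is zero (no three branch points satisfy the relation), so by
Nakayama's lemma it is killed by a polynomial `r(g)` with `r(0) = 1`.
-/

set_option autoImplicit false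

noncomputable section
namespace TripleBurger.Canon

open TripleBurger

section
variable (b : Param) (v : Fin 3 → ℂ)

/-- the solutions in the torus part -/
def Z : Set (Fin 3 → ℂ) :=
  {x | (∃ g : ℂ, ∀ i, quartic b i 1 (x i) = g * (v i ^ 2 * x i ^ 2)) ∧ x 0 * x 2 = b 4 * x 1}

open Polynomial in
/-- `q_i(X) - g v_i² X²` as polynomial in `X` over `ℂ[g]` -/
def qp (i : Fin 3) : Polynomial (Polynomial ℂ) :=
  ∏ j : Fin 4, (X - C (C (root b i j))) - C (C (v i ^ 2) * X) * X ^ 2

open Polynomial in
theorem qp_monic (i : Fin 3) : (qp b v i).Monic := by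
  have h1 : (∏ j : Fin 4, (X - C (C (root b i j)) : Polynomial (Polynomial ℂ))).Monic :=
    monic_prod_of_monic _ _ (fun j _ => monic_X_sub_C _)
  have h2 : (∏ j : Fin 4, (X - C (C (root b i j)) : Polynomial (Polynomial ℂ))).degree = 4 := by
    rw [degree_eq_natDegree h1.ne_zero, natDegree_prod_of_monic _ _ (fun j _ => monic_X_sub_C _)]
    simp only [natDegree_X_sub_C]
    simp
  refine h1.sub_of_left ?_
  rw [h2]
  refine (degree_C_mul_X_pow_le 2 _).trans_lt ?_
  norm_num

/-- the ring of polynomials in `x₀, x₁, x₂` over `ℂ[g]` -/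
abbrev R : Type := MvPolynomial (Fin 3) (Polynomial ℂ)

/-- the constants -/
def cst : ℂ →+* R := MvPolynomial.C.comp Polynomial.C

/-- the equation `q_i(x_i) = g v_i² x_i²` -/
def Q (i : Fin 3) : R :=
  ∏ j : Fin 4, (MvPolynomial.X i - cst (root b i j)) -
    cst (v i ^ 2) * MvPolynomial.C Polynomial.X * MvPolynomial.X i ^ 2

/-- the relation -/
def rel : R := MvPolynomial.X 0 * MvPolynomial.X 2 - cst (b 4) * MvPolynomial.X 1

theorem aeval_qp (i : Fin 3) : Polynomial.aeval (MvPolynomial.X i : R) (qp b v i) = Q b v i := by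
  simp only [qp, Q, map_sub, map_prod, Polynomial.aeval_X, Polynomial.aeval_C, map_mul, map_pow, cst,
    RingHom.comp_apply, MvPolynomial.algebraMap_eq]

/-- the ideal of the equations -/
def I : Ideal R := Ideal.span (Set.range (Q b v) ∪ {rel b})

theorem Q_mem (i : Fin 3) : Q b v i ∈ I b v := Ideal.subset_span (Or.inl ⟨i, rfl⟩)
theorem rel_mem : rel b ∈ I b v := Ideal.subset_span (Or.inr rfl)

/-- the algebra of the equations over `ℂ[g]` -/
def A : Type := R ⧸ I b v

instance : CommRing (A b v) := inferInstanceAs (CommRing (R ⧸ I b v))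

/-- the quotient map -/
def mk : R →+* A b v := Ideal.Quotient.mk (I b v)

theorem mk_surjective : Function.Surjective (mk b v) := Ideal.Quotient.mk_surjective

theorem mk_eq_zero {f : R} (h : f ∈ I b v) : mk b v f = 0 := Ideal.Quotient.eq_zero_iff_mem.mpr h

instance algA : Algebra (Polynomial ℂ) (A b v) := ((mk b v).comp MvPolynomial.C).toAlgebra

theorem algebraMap_A (s : Polynomial ℂ) : algebraMap (Polynomial ℂ) (A b v) s = mk b v (MvPolynomial.C s) := rfl

/-- the quotient map as homomorphism of algebras -/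
def mkA : R →ₐ[Polynomial ℂ] A b v := { mk b v with commutes' := fun _ => rfl }

theorem isIntegral_X (i : Fin 3) : IsIntegral (Polynomial ℂ) (mkA b v (MvPolynomial.X i)) := by
  refine ⟨qp b v i, qp_monic b v i, ?_⟩
  rw [← Polynomial.aeval_def, Polynomial.aeval_algHom_apply, aeval_qp]
  exact mk_eq_zero b v (Q_mem b v i)

instance isIntegral_A : Algebra.IsIntegral (Polynomial ℂ) (A b v) := by
  refine ⟨fun a => ?_⟩
  obtain ⟨r, rfl⟩ : ∃ r, mkA b v r = a := mk_surjective b v a
  induction r using MvPolynomial.induction_on with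
  | C s => exact isIntegral_algebraMap (R := Polynomial ℂ) (A := A b v) (x := s)
  | add p q hp hq =>
    rw [map_add]
    exact hp.add hq
  | mul_X p i hp =>
    rw [map_mul]
    exact hp.mul (isIntegral_X b v i)

instance finiteType_A : Algebra.FiniteType (Polynomial ℂ) (A b v) :=
  Algebra.FiniteType.of_surjective (mkA b v) (mk_surjective b v)

instance finite_A : Module.Finite (Polynomial ℂ) (A b v) := Algebra.IsIntegral.finite

variable {b}

/-- the fibre over `g = 0` is empty -/
theorem isUnit_g (hb : b ∈ BaseSet) : IsUnit (algebraMap (Polynomial ℂ) (A b v) Polynomial.X) := by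
  by_contra h
  obtain ⟨M, hM, hmem⟩ := exists_max_ideal_of_mem_nonunits (mem_nonunits_iff.mpr h)
  have : M.IsPrime := hM.isPrime
  let ρ : R →+* (A b v) ⧸ M := (Ideal.Quotient.mk M).comp (mk b v)
  have hg : ρ (MvPolynomial.C Polynomial.X) = 0 := Ideal.Quotient.eq_zero_iff_mem.mpr hmem
  have hI : ∀ f ∈ I b v, ρ f = 0 := by
    intro f hf
    simp only [ρ, RingHom.comp_apply, mk_eq_zero b v hf, map_zero]
  have hinj : Function.Injective (ρ.comp cst) := RingHom.injective _
  have hroot : ∀ i, ∃ j, ρ (MvPolynomial.X i) = ρ (cst (root b i j)) := by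
    intro i
    have h1 := hI _ (Q_mem b v i)
    simp only [Q, map_sub, map_prod, map_mul, hg, mul_zero, zero_mul, sub_zero] at h1
    obtain ⟨j, -, hj⟩ := Finset.prod_eq_zero_iff.mp h1
    exact ⟨j, sub_eq_zero.mp hj⟩
  obtain ⟨j, hj⟩ := hroot 0
  obtain ⟨k, hk⟩ := hroot 1
  obtain ⟨l, hl⟩ := hroot 2
  have h2 := hI _ (rel_mem b v)
  simp only [rel, map_sub, map_mul, hj, hk, hl] at h2
  have h3 : (ρ.comp cst) (root b 0 j * root b 2 l) = (ρ.comp cst) (b 4 * root b 1 k) := by
    simp only [map_mul, RingHom.comp_apply]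
    exact sub_eq_zero.mp h2
  exact hb.2.2.2 j k l (hinj h3)

/-- Nakayama -/
theorem nakayama {B : Type} [CommRing B] [Algebra (Polynomial ℂ) B] [Module.Finite (Polynomial ℂ) B]
    (hu : IsUnit (algebraMap (Polynomial ℂ) B Polynomial.X)) : ∃ r : Polynomial ℂ, r.eval 0 = 1 ∧
    algebraMap (Polynomial ℂ) B r = 0 := by
  obtain ⟨r, hr, h⟩ := Submodule.exists_sub_one_mem_and_smul_eq_zero_of_fg_of_le_smul
    (Ideal.span {(Polynomial.X : Polynomial ℂ)}) (⊤ : Submodule (Polynomial ℂ) B)
    (Module.Finite.fg_top) (by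
      intro a _
      obtain ⟨t, ht⟩ := hu.exists_right_inv
      have h1 : a = (Polynomial.X : Polynomial ℂ) • (t * a) := by
        rw [Algebra.smul_def, ← mul_assoc, ht, one_mul]
      rw [h1]
      exact Submodule.smul_mem_smul (Ideal.mem_span_singleton_self _) Submodule.mem_top)
  refine ⟨r, ?_, ?_⟩
  · obtain ⟨s, hs⟩ := Ideal.mem_span_singleton'.mp hr
    have h2 := congrArg (Polynomial.eval 0) hs
    simp only [Polynomial.eval_mul, Polynomial.eval_X, mul_zero, Polynomial.eval_sub, Polynomial.eval_one] at h2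
    linear_combination -h2
  · have h3 := h 1 Submodule.mem_top
    rw [Algebra.smul_def, mul_one] at h3
    exact h3

/-- there is a polynomial `r` with `r(0) = 1` that vanishes at `g` for every solution -/
theorem exists_r (hb : b ∈ BaseSet) : ∃ r : Polynomial ℂ, r.eval 0 = 1 ∧
    mk b v (MvPolynomial.C r) = 0 := nakayama (isUnit_g v hb)

theorem Z_finite (hb : b ∈ BaseSet) : (Z b v).Finite := by
  obtain ⟨r, hr0, hr⟩ := exists_r v hb
  have hrne : r ≠ 0 := by
    rintro rfl
    simp at hr0
  -- the values of `g`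
  have hG : {g : ℂ | r.IsRoot g}.Finite := Polynomial.finite_setOfPred_isRoot hrne
  have hroots : ∀ (g : ℂ) (i : Fin 3), {x : ℂ | ((qp b v i).map (Polynomial.evalRingHom g)).IsRoot x}.Finite :=
    fun g i => Polynomial.finite_setOfPred_isRoot ((qp_monic b v i).map _).ne_zero
  have heval : ∀ (g : ℂ) (i : Fin 3) (x : ℂ), ((qp b v i).map (Polynomial.evalRingHom g)).eval x =
      quartic b i 1 x - g * (v i ^ 2 * x ^ 2) := by
    intro g i x
    simp only [qp, Polynomial.map_sub, Polynomial.map_prod, Polynomial.map_mul, Polynomial.map_X, Polynomial.map_C,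
      Polynomial.map_pow, Polynomial.coe_evalRingHom, Polynomial.eval_sub, Polynomial.eval_prod, Polynomial.eval_X,
      Polynomial.eval_C, Polynomial.eval_mul, Polynomial.eval_pow, quartic, mul_one]
    ring
  refine (hG.biUnion fun g _ => Set.Finite.pi' fun i => hroots g i).subset ?_
  rintro x ⟨⟨g, hg⟩, hrel⟩
  simp only [Set.mem_iUnion, Set.mem_ofPred_eq, exists_prop]
  refine ⟨g, ?_, fun i => ?_⟩
  · -- evaluation at the solution
    let φ : R →+* ℂ := MvPolynomial.eval₂Hom (Polynomial.evalRingHom g) x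
    have hφX : ∀ i, φ (MvPolynomial.X i) = x i := fun i => by simp [φ]
    have hφC : ∀ s : Polynomial ℂ, φ (MvPolynomial.C s) = s.eval g := fun s => by simp [φ]
    have hφc : ∀ c : ℂ, φ (cst c) = c := fun c => by simp [φ, cst]
    have hI : ∀ f ∈ I b v, φ f = 0 := by
      intro f hf
      have h1 : I b v ≤ RingHom.ker φ := by
        refine Ideal.span_le.mpr ?_
        rintro f (⟨i, rfl⟩ | rfl)
        · simp only [SetLike.mem_coe, RingHom.mem_ker, Q, map_sub, map_prod, map_mul, map_pow, hφX, hφc, hφC,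
            Polynomial.eval_X]
          have := hg i
          simp only [quartic, mul_one] at this
          rw [this]; ring
        · simp only [SetLike.mem_coe, RingHom.mem_ker, rel, map_sub, map_mul, hφX, hφc]
          rw [hrel]; ring
      exact h1 hf
    have h2 : MvPolynomial.C r ∈ I b v := Ideal.Quotient.eq_zero_iff_mem.mp hr
    have h3 := hI _ h2
    rw [hφC] at h3
    exact h3
  · rw [Polynomial.IsRoot.def, heval, hg i, sub_self]

end

end TripleBurger.Canon
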