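import Pool.Agent.helper10.K3S.LinkTop
import Pool.Agent.helper10.K3S.LinkAlg

/-!
# K3S: the chart of `S_b` and its coordinate ring

For `b` in the base, the points of `S_b` with all `W_i ≠ 0`, with their classical topology, are the
`ℂ`-points of the coordinate ring `CoordRing b`, whose field of fractions is the function field
of `S_b`.
-/

set_option autoImplicit false

noncomputable section

namespace TripleBurger

open Pool.Agent.K3G Pool.Agent.K3G.Exist Topology

theorem rel_iff_mem_affSet (b : Param) (x w : Fin 3 → ℂ) :
    Rel b x w ↔ Sum.elim x w ∈ affSet b := by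
  constructor
  · rintro ⟨h1, h2, h3⟩
    refine ⟨fun i => ?_, fun i => ?_, h1⟩
    · show w i ^ 2 = quartic b (i + 1) 1 (x (i + 1)) * quartic b (i + 2) 1 (x (i + 2))
      rw [quartic_eq, quartic_eq]
      exact h2 i
    · show w (i + 1) * w (i + 2) = quartic b i 1 (x i) * w i
      rw [quartic_eq]
      exact h3 i
  · rintro ⟨h1, h2, h3⟩
    refine ⟨h3, fun i => ?_, fun i => ?_⟩
    · have h := h1 i
      rw [quartic_eq, quartic_eq] at h
      exact h
    · have h := h2 i
      rw [quartic_eq] at h
      exact h

/-- the solutions of the equations, as functions on `Fin 3 ⊕ Fin 3` and as pairs -/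
def affHomeo (b : Param) :
    affSet b ≃ₜ {v : (Fin 3 → ℂ) × (Fin 3 → ℂ) // Rel b v.1 v.2} where
  toFun v := ⟨(fun i => v.1 (Sum.inl i), fun i => v.1 (Sum.inr i)), by
    rw [rel_iff_mem_affSet]
    have h : (Sum.elim (fun i => v.1 (Sum.inl i)) (fun i => v.1 (Sum.inr i)) :
        Fin 3 ⊕ Fin 3 → ℂ) = v.1 := by
      funext k
      rcases k with k | k <;> rfl
    rw [h]
    exact v.2⟩
  invFun v := ⟨Sum.elim v.1.1 v.1.2, (rel_iff_mem_affSet b v.1.1 v.1.2).1 v.2⟩
  left_inv v := by
    apply Subtype.ext
    funext k
    rcases k with k | k <;> rfl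
  right_inv v := rfl
  continuous_toFun := by
    refine Continuous.subtype_mk ?_ _
    exact (continuous_pi fun i => (continuous_apply _).comp continuous_subtype_val).prodMk
      (continuous_pi fun i => (continuous_apply _).comp continuous_subtype_val)
  continuous_invFun := by
    refine Continuous.subtype_mk ?_ _
    refine continuous_pi ?_
    rintro (i | i)
    · exact (continuous_apply i).comp (continuous_fst.comp continuous_subtype_val)
    · exact (continuous_apply i).comp (continuous_snd.comp continuous_subtype_val)

/-- **the chart of `S_b`** is homeomorphic to the set of solutions of the equations -/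
def chartRelHomeo (b : Param) (hb : b ∈ BaseSet) :
    chart b ≃ₜ {v : (Fin 3 → ℂ) × (Fin 3 → ℂ) // Rel b v.1 v.2} :=
  (chartHomeo b hb).trans (affHomeo b)

/-- **the points of the chart of `S_b` are the `ℂ`-points of the coordinate ring** -/
def chartPoints (b : Param) (hb : b ∈ BaseSet) : chart b ≃ (CoordRing b →ₐ[ℂ] ℂ) :=
  (chartRelHomeo b hb).toEquiv.trans (pointsEquiv b).symm

theorem chartPoints_cx (b : Param) (hb : b ∈ BaseSet) (P : chart b) (i : Fin 3) :
    chartPoints b hb P (cx b i) = P.1.coord (Sum.inl i) := by
  have h : (pointsEquiv b (chartPoints b hb P)).1.1 i = (chartRelHomeo b hb P).1.1 i := by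
    rw [chartPoints, Equiv.trans_apply, Equiv.apply_symm_apply]
    rfl
  exact h

theorem chartPoints_cw (b : Param) (hb : b ∈ BaseSet) (P : chart b) (i : Fin 3) :
    chartPoints b hb P (cw b i) = P.1.coord (Sum.inr i) := by
  have h : (pointsEquiv b (chartPoints b hb P)).1.2 i = (chartRelHomeo b hb P).1.2 i := by
    rw [chartPoints, Equiv.trans_apply, Equiv.apply_symm_apply]
    rfl
  exact h

/-- the value of a polynomial at a point of the chart -/
theorem chartPoints_mk (b : Param) (hb : b ∈ BaseSet) (P : chart b) (F : P6) :
    chartPoints b hb P (Ideal.Quotient.mk (relIdeal b) F) = MvPolynomial.eval P.1.coord F := by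
  have h : ((chartPoints b hb P).comp (Ideal.Quotient.mkₐ ℂ (relIdeal b)) : P6 →ₐ[ℂ] ℂ) =
      MvPolynomial.aeval P.1.coord := by
    apply MvPolynomial.algHom_ext
    rintro (i | i)
    · rw [MvPolynomial.aeval_X]
      exact chartPoints_cx b hb P i
    · rw [MvPolynomial.aeval_X]
      exact chartPoints_cw b hb P i
  exact DFunLike.congr_fun h F

/-- regular functions are continuous for the classical topology, and they determine it: a map to
the chart is continuous if and only if its composition with every regular function is. -/
theorem continuous_iff_regular (b : Param) (hb : b ∈ BaseSet) {T : Type*} [TopologicalSpace T]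
    (g : T → chart b) :
    Continuous g ↔ ∀ a : CoordRing b, Continuous fun t => chartPoints b hb (g t) a := by
  constructor
  · intro hg a
    obtain ⟨F, rfl⟩ := Ideal.Quotient.mk_surjective a
    have h1 : (fun t => chartPoints b hb (g t) (Ideal.Quotient.mk (relIdeal b) F)) =
        fun t => MvPolynomial.eval (g t).1.coord F := by
      funext t
      rw [chartPoints_mk]
    rw [h1]
    have h2 : Continuous fun t => ((chartHomeo b hb (g t)).1 : Fin 3 ⊕ Fin 3 → ℂ) :=
      continuous_subtype_val.comp ((chartHomeo b hb).continuous.comp hg)
    exact (MvPolynomial.continuous_eval F).comp h2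
  · intro h
    rw [← (chartHomeo b hb).comp_continuous_iff]
    refine Continuous.subtype_mk (continuous_pi ?_) _
    rintro (i | i)
    · have h1 := h (cx b i)
      simp only [chartPoints_cx] at h1
      exact h1
    · have h1 := h (cw b i)
      simp only [chartPoints_cw] at h1
      exact h1

end TripleBurger
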