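import Pool.Agent.helper10.K3B.Top

/-!
# K3S: the affine chart of the surfaces `S_b` (topological half)

For `b` in the base, the points of the fibre `S_b` of `Total` with all `W_i ≠ 0` correspond, by
`x_i = X_i / W_i`, `w_i = y_{i+1} y_{i+2}`, `y_i = Y_i / W_i²`, to the solutions in `ℂ³⁺³` of
`w_i² = f_{i+1}(x_{i+1}) f_{i+2}(x_{i+2})`, `w_{i+1} w_{i+2} = f_i(x_i) w_i`, `x₀ x₂ = μ x₁`;
the correspondence is a homeomorphism.
-/

set_option autoImplicit false

noncomputable section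

namespace TripleBurger

open Complex Topology Filter

/-- the affine variety `x₀ x₂ = μ x₁`, `w_i² = f_{i+1} f_{i+2}`, `w_{i+1} w_{i+2} = f_i w_i` -/
def affSet (b : Param) : Set (Fin 3 ⊕ Fin 3 → ℂ) :=
  {v | (∀ i : Fin 3, v (Sum.inr i) ^ 2 =
      quartic b (i + 1) 1 (v (Sum.inl (i + 1))) * quartic b (i + 2) 1 (v (Sum.inl (i + 2)))) ∧
    (∀ i : Fin 3, v (Sum.inr (i + 1)) * v (Sum.inr (i + 2)) =
      quartic b i 1 (v (Sum.inl i)) * v (Sum.inr i)) ∧
    v (Sum.inl 0) * v (Sum.inl 2) = b 4 * v (Sum.inl 1)}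

/-- the affine part of `D_b` -/
def affD (b : Param) : Set ((Fin 3 → ℂ) × (Fin 3 → ℂ)) :=
  {z | (∀ i, z.2 i ^ 2 = quartic b i 1 (z.1 i)) ∧ z.1 0 * z.1 2 = b 4 * z.1 1}

/-- affine coordinates `x_i = X_i / W_i`, `w_i = (Y_{i+1} / W_{i+1}²) (Y_{i+2} / W_{i+2}²)` -/
def Cone.coord (p : Cone) : Fin 3 ⊕ Fin 3 → ℂ :=
  Sum.elim (fun i => p.X i / p.W i)
    (fun i => (p.Y (i + 1) / p.W (i + 1) ^ 2) * (p.Y (i + 2) / p.W (i + 2) ^ 2))

theorem Cone.coord_rel {p q : Cone} (h : SameRel p q) : p.coord = q.coord := by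
  obtain ⟨-, c, σ, hc, hσ, h⟩ := h
  have hx : ∀ i, q.X i / q.W i = p.X i / p.W i := by
    intro i
    rw [(h i).1, (h i).2.1, mul_div_mul_left _ _ (hc i)]
  have hy : ∀ i, q.Y i / q.W i ^ 2 = σ * (p.Y i / p.W i ^ 2) := by
    intro i
    rw [(h i).1, (h i).2.2, mul_pow, mul_div_assoc, mul_div_mul_left _ _ (pow_ne_zero 2 (hc i))]
  have hσ2 : σ * σ = 1 := by rcases hσ with rfl | rfl <;> norm_num
  funext k
  rcases k with i | i
  · exact (hx i).symm
  · show (p.Y (i + 1) / p.W (i + 1) ^ 2) * (p.Y (i + 2) / p.W (i + 2) ^ 2) =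
      (q.Y (i + 1) / q.W (i + 1) ^ 2) * (q.Y (i + 2) / q.W (i + 2) ^ 2)
    rw [hy, hy]
    linear_combination (-(p.Y (i + 1) / p.W (i + 1) ^ 2) * (p.Y (i + 2) / p.W (i + 2) ^ 2)) * hσ2

/-- affine coordinates on `Total` -/
def Total.coord : Total → (Fin 3 ⊕ Fin 3 → ℂ) :=
  Quotient.lift (fun p : Cone => p.coord) (fun _ _ h => Cone.coord_rel h)

theorem coord_mk (p : Cone) : (Total.mk p).coord = p.coord := rfl

/-- all `W_i ≠ 0` -/
def Total.Finite (P : Total) : Prop :=
  Quotient.lift (fun p : Cone => ∀ i, p.W i ≠ 0) (fun p q h => by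
    obtain ⟨-, c, σ, hc, -, h⟩ := h
    apply propext
    refine forall_congr' fun i => ?_
    rw [(h i).1]
    constructor
    · exact fun h1 => mul_ne_zero (hc i) h1
    · exact fun h1 => right_ne_zero_of_mul h1) P

theorem finite_mk (p : Cone) : (Total.mk p).Finite ↔ ∀ i, p.W i ≠ 0 := Iff.rfl

/-- the points of `S_b` with all `W_i ≠ 0` -/
def chart (b : Param) : Set Total := {P | P.proj = b ∧ P.Finite}

/-- the finite points form an open set -/
theorem isOpen_finite : IsOpen {P : Total | P.Finite} := by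
  have h1 : {P : Total | P.Finite} = Total.mk '' {p : Cone | ∀ i, p.W i ≠ 0} := by
    ext P
    constructor
    · intro h
      obtain ⟨p, rfl⟩ := mk_surjective P
      exact ⟨p, h, rfl⟩
    · rintro ⟨p, hp, rfl⟩
      exact hp
  rw [h1]
  apply mk_isOpenMap
  have h2 : {p : Cone | ∀ i, p.W i ≠ 0} = ⋂ i : Fin 3, {p : Cone | p.W i ≠ 0} := by
    ext p
    simp
  rw [h2]
  exact isOpen_iInter_of_finite fun i => isOpen_ne_fun (cone_W_continuous i) continuous_const

theorem Cone.continuousAt_coord {p : Cone} (hp : ∀ i, p.W i ≠ 0) :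
    ContinuousAt Cone.coord p := by
  rw [continuousAt_pi]
  rintro (i | i)
  · exact (cone_X_continuous i).continuousAt.div (cone_W_continuous i).continuousAt (hp i)
  · exact ((cone_Y_continuous _).continuousAt.div ((cone_W_continuous _).continuousAt.pow 2)
      (pow_ne_zero 2 (hp _))).mul ((cone_Y_continuous _).continuousAt.div
        ((cone_W_continuous _).continuousAt.pow 2) (pow_ne_zero 2 (hp _)))

theorem continuousAt_coord {P : Total} (hP : P.Finite) : ContinuousAt Total.coord P := by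
  obtain ⟨p, rfl⟩ := mk_surjective P
  have h1 : Tendsto (Total.coord ∘ Total.mk) (𝓝 p) (𝓝 (Total.mk p).coord) :=
    Cone.continuousAt_coord hP
  rw [← tendsto_map'_iff] at h1
  exact h1.mono_left (mk_isOpenMap.nhds_le p)

/-! ## equations -/

theorem Cone.y_sq (p : Cone) (hp : ∀ i, p.W i ≠ 0) (i : Fin 3) :
    (p.Y i / p.W i ^ 2) ^ 2 = quartic p.b i 1 (p.X i / p.W i) := by
  have h1 : p.Y i ^ 2 = quartic p.b i (p.W i) (p.X i) := p.2.2.2.1 i
  have h2 := quartic_rescale p.b i (p.W i) 1 (p.X i / p.W i)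
  rw [mul_one, mul_div_cancel₀ _ (hp i), ← h1] at h2
  rw [div_pow, h2, ← pow_mul, mul_div_cancel_left₀ _ (pow_ne_zero 4 (hp i))]

theorem Cone.x_rel (p : Cone) (hp : ∀ i, p.W i ≠ 0) :
    (p.X 0 / p.W 0) * (p.X 2 / p.W 2) = p.b 4 * (p.X 1 / p.W 1) := by
  have h1 : p.X 0 * p.X 2 * p.W 1 = p.b 4 * p.X 1 * p.W 0 * p.W 2 := p.2.2.2.2
  have h0 := hp 0
  have h3 := hp 1
  have h2 := hp 2
  field_simp
  linear_combination h1

/-- if `y_i² = f_i(x_i)`, then `(x, y_{i+1} y_{i+2})` satisfies the equations -/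
theorem mem_affSet_of_mem_affD {b : Param} {z : (Fin 3 → ℂ) × (Fin 3 → ℂ)} (hz : z ∈ affD b) :
    Sum.elim z.1 (fun i => z.2 (i + 1) * z.2 (i + 2)) ∈ affSet b := by
  obtain ⟨h1, h2⟩ := hz
  refine ⟨fun i => ?_, fun i => ?_, h2⟩
  · show (z.2 (i + 1) * z.2 (i + 2)) ^ 2 =
      quartic b (i + 1) 1 (z.1 (i + 1)) * quartic b (i + 2) 1 (z.1 (i + 2))
    rw [← h1, ← h1, mul_pow]
  · show (z.2 (i + 1 + 1) * z.2 (i + 1 + 2)) * (z.2 (i + 2 + 1) * z.2 (i + 2 + 2)) =
      quartic b i 1 (z.1 i) * (z.2 (i + 1) * z.2 (i + 2))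
    rw [← h1]
    have e1 : i + 1 + 1 = i + 2 := by rw [add_assoc]; rfl
    have e2 : i + 1 + 2 = i := by rw [add_assoc]; exact add_zero i
    have e3 : i + 2 + 1 = i := by rw [add_assoc]; exact add_zero i
    have e4 : i + 2 + 2 = i + 1 := by rw [add_assoc]; rfl
    rw [e1, e2, e3, e4]
    ring

theorem Cone.mem_affD (p : Cone) (hp : ∀ i, p.W i ≠ 0) :
    ((fun i => p.X i / p.W i, fun i => p.Y i / p.W i ^ 2) : (Fin 3 → ℂ) × (Fin 3 → ℂ)) ∈
      affD p.b :=
  ⟨p.y_sq hp, p.x_rel hp⟩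

theorem coord_mem {b : Param} {P : Total} (hP : P ∈ chart b) : P.coord ∈ affSet b := by
  obtain ⟨p, rfl⟩ := mk_surjective P
  obtain ⟨h1, h2⟩ := hP
  have h3 : p.b = b := h1
  rw [← h3]
  exact mem_affSet_of_mem_affD (p.mem_affD h2)

/-- a point of `D_b` given by affine coordinates -/
def conePt (b : Param) (hb : b ∈ BaseSet) (z : affD b) : Cone :=
  ⟨(b, fun _ => 1, z.1.1, z.1.2), hb, fun _ => Or.inl one_ne_zero, z.2.1, by
    have h := z.2.2
    show z.1.1 0 * z.1.1 2 * 1 = b 4 * z.1.1 1 * 1 * 1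
    rw [mul_one, mul_one, mul_one]
    exact h⟩

theorem conePt_coord (b : Param) (hb : b ∈ BaseSet) (z : affD b) :
    (conePt b hb z).coord = Sum.elim z.1.1 (fun i => z.1.2 (i + 1) * z.1.2 (i + 2)) := by
  funext k
  rcases k with i | i
  · show z.1.1 i / 1 = z.1.1 i
    exact div_one _
  · show (z.1.2 (i + 1) / 1 ^ 2) * (z.1.2 (i + 2) / 1 ^ 2) = z.1.2 (i + 1) * z.1.2 (i + 2)
    rw [one_pow, div_one, div_one]

/-- not all three values `f_i(x_i)` vanish -/
theorem exists_quartic_ne_zero {b : Param} (hb : b ∈ BaseSet) {x : Fin 3 → ℂ}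
    (hx : x 0 * x 2 = b 4 * x 1) : ∃ i, quartic b i 1 (x i) ≠ 0 := by
  by_contra h
  push Not at h
  have h1 : ∀ i, ∃ j, x i = root b i j := by
    intro i
    have h2 := h i
    unfold quartic at h2
    rw [Finset.prod_eq_zero_iff] at h2
    obtain ⟨j, -, hj⟩ := h2
    exact ⟨j, by linear_combination hj⟩
  obtain ⟨j, hj⟩ := h1 0
  obtain ⟨k, hk⟩ := h1 1
  obtain ⟨l, hl⟩ := h1 2
  apply hb.2.2.2 j k l
  rw [← hj, ← hk, ← hl]
  exact hx

/-- every solution `(x, w)` comes from a point `(x, y)` of `D_b` -/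
theorem exists_affD {b : Param} (hb : b ∈ BaseSet) {v : Fin 3 ⊕ Fin 3 → ℂ} (hv : v ∈ affSet b) :
    ∃ z : affD b, Sum.elim z.1.1 (fun i => z.1.2 (i + 1) * z.1.2 (i + 2)) = v := by
  obtain ⟨h1, h2, h3⟩ := hv
  obtain ⟨i, hi⟩ := exists_quartic_ne_zero hb (x := fun i => v (Sum.inl i)) h3
  obtain ⟨r, hr⟩ : ∃ r : ℂ, r ^ 2 = quartic b i 1 (v (Sum.inl i)) :=
    IsAlgClosed.exists_pow_nat_eq _ two_pos
  have hr0 : r ≠ 0 := by
    rintro rfl
    apply hi
    show quartic b i 1 (v (Sum.inl i)) = 0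
    rw [← hr]
    norm_num
  obtain ⟨y, hy⟩ : ∃ y : Fin 3 → ℂ, y = fun k => if k = i then r else
      if k = i + 1 then v (Sum.inr (i + 2)) / r else v (Sum.inr (i + 1)) / r := ⟨_, rfl⟩
  have hyi : y i = r := by rw [hy]; simp
  have e0 : (i + 1 = i) = False := by fin_cases i <;> decide
  have e0' : (i + 2 = i) = False := by fin_cases i <;> decide
  have e0'' : (i + 2 = i + 1) = False := by fin_cases i <;> decide
  have hy1 : y (i + 1) = v (Sum.inr (i + 2)) / r := by
    rw [hy]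
    simp only [e0, if_false, if_true]
  have hy2 : y (i + 2) = v (Sum.inr (i + 1)) / r := by
    rw [hy]
    simp only [e0', e0'', if_false]
  have e1 : i + 1 + 1 = i + 2 := by rw [add_assoc]; rfl
  have e2 : i + 1 + 2 = i := by rw [add_assoc]; exact add_zero i
  have e3 : i + 2 + 1 = i := by rw [add_assoc]; exact add_zero i
  have e4 : i + 2 + 2 = i + 1 := by rw [add_assoc]; rfl
  have a1 := h1 (i + 1)
  have a2 := h1 (i + 2)
  have a3 := h2 i
  rw [e1, e2] at a1
  rw [e3, e4] at a2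
  have hcases : ∀ k : Fin 3, k = i ∨ k = i + 1 ∨ k = i + 2 := by
    intro k
    fin_cases i <;> fin_cases k <;> decide
  have hsq : ∀ k, y k ^ 2 = quartic b k 1 (v (Sum.inl k)) := by
    intro k
    rcases hcases k with rfl | rfl | rfl
    · rw [hyi, hr]
    · rw [hy1, div_pow, hr, a2, mul_div_cancel_left₀ _ hi]
    · rw [hy2, div_pow, hr, a1, mul_comm, mul_div_cancel_left₀ _ hi]
  refine ⟨⟨(fun k => v (Sum.inl k), y), hsq, h3⟩, ?_⟩
  funext k
  rcases k with k | k
  · rfl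
  · show y (k + 1) * y (k + 2) = v (Sum.inr k)
    rcases hcases k with rfl | rfl | rfl
    · rw [hy1, hy2, div_mul_div_comm, ← pow_two, hr, mul_comm (v (Sum.inr (k + 2))), a3,
        mul_div_cancel_left₀ _ hi]
    · rw [e1, e2, hyi, hy2, div_mul_cancel₀ _ hr0]
    · rw [e3, e4, hyi, hy1, mul_div_cancel₀ _ hr0]

/-- two points `(x, y)`, `(x, y')` of `D_b` with the same `(x, w)` differ by a sign -/
theorem sign_of_eq {b : Param} (hb : b ∈ BaseSet) {z z' : (Fin 3 → ℂ) × (Fin 3 → ℂ)}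
    (hz : z ∈ affD b) (hz' : z' ∈ affD b) (hx : z.1 = z'.1)
    (hw : ∀ i, z.2 (i + 1) * z.2 (i + 2) = z'.2 (i + 1) * z'.2 (i + 2)) :
    ∃ σ : ℂ, (σ = 1 ∨ σ = -1) ∧ ∀ i, z'.2 i = σ * z.2 i := by
  obtain ⟨i, hi⟩ := exists_quartic_ne_zero hb hz.2
  have hyi : z.2 i ≠ 0 := by
    intro h
    apply hi
    rw [← hz.1 i, h]
    norm_num
  have hsq : z'.2 i ^ 2 = z.2 i ^ 2 := by
    rw [hz.1 i, hz'.1 i, hx]
  have e1 : i + 1 + 1 = i + 2 := by rw [add_assoc]; rfl
  have e2 : i + 1 + 2 = i := by rw [add_assoc]; exact add_zero i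
  have e3 : i + 2 + 1 = i := by rw [add_assoc]; exact add_zero i
  have e4 : i + 2 + 2 = i + 1 := by rw [add_assoc]; rfl
  have a1 := hw (i + 1)
  have a2 := hw (i + 2)
  rw [e1, e2] at a1
  rw [e3, e4] at a2
  have hcases : ∀ k : Fin 3, k = i ∨ k = i + 1 ∨ k = i + 2 := by
    intro k
    fin_cases i <;> fin_cases k <;> decide
  rcases sq_eq_sq_iff_eq_or_eq_neg.1 hsq with h | h
  · refine ⟨1, Or.inl rfl, fun k => ?_⟩
    rcases hcases k with rfl | rfl | rfl
    · rw [h, one_mul]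
    · rw [h] at a2
      rw [one_mul]
      exact (mul_left_cancel₀ hyi a2).symm
    · rw [h] at a1
      rw [one_mul]
      exact (mul_right_cancel₀ hyi a1).symm
  · refine ⟨-1, Or.inr rfl, fun k => ?_⟩
    rcases hcases k with rfl | rfl | rfl
    · rw [h]; ring
    · rw [h] at a2
      apply mul_left_cancel₀ hyi
      linear_combination a2
    · rw [h] at a1
      apply mul_left_cancel₀ hyi
      linear_combination a1

theorem coord_injOn {b : Param} (hb : b ∈ BaseSet) : Set.InjOn Total.coord (chart b) := by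
  intro P hP Q hQ h
  obtain ⟨p, rfl⟩ := mk_surjective P
  obtain ⟨q, rfl⟩ := mk_surjective Q
  have hpb : p.b = b := hP.1
  have hqb : q.b = b := hQ.1
  have hp : ∀ i, p.W i ≠ 0 := hP.2
  have hq : ∀ i, q.W i ≠ 0 := hQ.2
  have h' : p.coord = q.coord := h
  have hx : ∀ i, p.X i / p.W i = q.X i / q.W i := fun i => congrFun h' (Sum.inl i)
  have hw : ∀ i, (p.Y (i + 1) / p.W (i + 1) ^ 2) * (p.Y (i + 2) / p.W (i + 2) ^ 2) =
      (q.Y (i + 1) / q.W (i + 1) ^ 2) * (q.Y (i + 2) / q.W (i + 2) ^ 2) :=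
    fun i => congrFun h' (Sum.inr i)
  have m1 := p.mem_affD hp
  have m2 := q.mem_affD hq
  rw [hpb] at m1
  rw [hqb] at m2
  obtain ⟨σ, hσ, hs⟩ := sign_of_eq hb m1 m2 (funext hx) hw
  apply Quotient.sound
  refine ⟨hpb.trans hqb.symm, fun i => q.W i / p.W i, σ, fun i => div_ne_zero (hq i) (hp i), hσ,
    fun i => ⟨?_, ?_, ?_⟩⟩
  · rw [div_mul_cancel₀ _ (hp i)]
  · have h1 := hx i
    have hpi := hp i
    have hqi := hq i
    field_simp at h1 ⊢
    linear_combination -h1
  · have h1 : q.Y i / q.W i ^ 2 = σ * (p.Y i / p.W i ^ 2) := hs i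
    have hpi := hp i
    have hqi := hq i
    rw [div_eq_iff (pow_ne_zero 2 hqi)] at h1
    rw [h1]
    field_simp

theorem mk_conePt_mem (b : Param) (hb : b ∈ BaseSet) (z : affD b) :
    Total.mk (conePt b hb z) ∈ chart b :=
  ⟨rfl, fun _ => one_ne_zero⟩

/-- `coord` is a bijection from the chart of `S_b` to the affine variety -/
theorem coord_bijOn {b : Param} (hb : b ∈ BaseSet) :
    Set.BijOn Total.coord (chart b) (affSet b) := by
  refine ⟨fun P hP => coord_mem hP, coord_injOn hb, fun v hv => ?_⟩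
  obtain ⟨z, hz⟩ := exists_affD hb hv
  refine ⟨Total.mk (conePt b hb z), mk_conePt_mem b hb z, ?_⟩
  rw [coord_mk, conePt_coord, hz]

/-! ## the inverse is continuous -/

theorem continuous_quartic (b : Param) (i : Fin 3) : Continuous fun x : ℂ => quartic b i 1 x := by
  unfold quartic
  fun_prop

theorem isClosed_affD (b : Param) : IsClosed (affD b) := by
  have h1 : affD b = (⋂ i : Fin 3, {z : (Fin 3 → ℂ) × (Fin 3 → ℂ) |
      z.2 i ^ 2 = quartic b i 1 (z.1 i)}) ∩
      {z : (Fin 3 → ℂ) × (Fin 3 → ℂ) | z.1 0 * z.1 2 = b 4 * z.1 1} := by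
    ext z
    simp [affD]
  rw [h1]
  refine IsClosed.inter (isClosed_iInter fun i => ?_) ?_
  · exact isClosed_eq (by fun_prop) ((continuous_quartic b i).comp (by fun_prop))
  · exact isClosed_eq (by fun_prop) (by fun_prop)

/-- the map `(x, y) ↦ (x, (y_{i+1} y_{i+2})_i)` -/
def gmap (b : Param) (z : affD b) : Fin 3 ⊕ Fin 3 → ℂ :=
  Sum.elim z.1.1 (fun i => z.1.2 (i + 1) * z.1.2 (i + 2))

theorem continuous_gmap (b : Param) : Continuous (gmap b) := by
  refine continuous_pi ?_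
  rintro (i | i)
  · show Continuous fun z : affD b => z.1.1 i
    exact (continuous_apply i).comp (continuous_fst.comp continuous_subtype_val)
  · show Continuous fun z : affD b => z.1.2 (i + 1) * z.1.2 (i + 2)
    exact ((continuous_apply _).comp (continuous_snd.comp continuous_subtype_val)).mul
      ((continuous_apply _).comp (continuous_snd.comp continuous_subtype_val))

theorem isCompact_preimage_gmap (b : Param) {K : Set (Fin 3 ⊕ Fin 3 → ℂ)} (hK : IsCompact K) :
    IsCompact (gmap b ⁻¹' K) := by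
  -- a bound for the values of the quartics
  have hb1 : ∀ i : Fin 3, ∃ C : ℝ, ∀ v ∈ K, ‖quartic b i 1 (v (Sum.inl i))‖ ≤ C := by
    intro i
    exact hK.exists_bound_of_continuousOn
      (((continuous_quartic b i).comp (continuous_apply (Sum.inl i))).continuousOn)
  choose C hC using hb1
  obtain ⟨L, hL⟩ : ∃ L : Set ((Fin 3 → ℂ) × (Fin 3 → ℂ)), L =
      ((fun (v : Fin 3 ⊕ Fin 3 → ℂ) (i : Fin 3) => v (Sum.inl i)) '' K) ×ˢ
        Set.pi Set.univ (fun i : Fin 3 => Metric.closedBall (0 : ℂ) (1 + C i)) := ⟨_, rfl⟩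
  have hLc : IsCompact L := by
    rw [hL]
    refine IsCompact.prod (hK.image (by fun_prop)) ?_
    exact isCompact_univ_pi fun i => isCompact_closedBall _ _
  refine ((isClosed_affD b).isClosedEmbedding_subtypeVal.isCompact_preimage hLc).of_isClosed_subset
    (hK.isClosed.preimage (continuous_gmap b)) ?_
  intro z hz
  show z.1 ∈ L
  rw [hL]
  refine ⟨⟨gmap b z, hz, rfl⟩, fun i _ => ?_⟩
  rw [mem_closedBall_zero_iff]
  have h1 : ‖z.1.2 i‖ ^ 2 ≤ C i := by
    rw [← norm_pow, z.2.1 i]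
    exact hC i (gmap b z) hz
  nlinarith [norm_nonneg (z.1.2 i), sq_nonneg (‖z.1.2 i‖ - 1)]

theorem isClosedMap_gmap (b : Param) : IsClosedMap (gmap b) :=
  (isProperMap_iff_isCompact_preimage.2
    ⟨continuous_gmap b, fun _ hK => isCompact_preimage_gmap b hK⟩).isClosedMap

/-- `(x, y) ↦ (x, w)` as a map to the affine variety -/
def gmap' (b : Param) (z : affD b) : affSet b := ⟨gmap b z, mem_affSet_of_mem_affD z.2⟩

theorem isQuotientMap_gmap' {b : Param} (hb : b ∈ BaseSet) : IsQuotientMap (gmap' b) := by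
  have hc : Continuous (gmap' b) := (continuous_gmap b).subtype_mk _
  refine IsClosedMap.isQuotientMap ?_ hc ?_
  · intro S hS
    have h1 : gmap' b '' S = Subtype.val ⁻¹' (gmap b '' S) := by
      ext v
      constructor
      · rintro ⟨z, hz, rfl⟩
        exact ⟨z, hz, rfl⟩
      · rintro ⟨z, hz, h⟩
        exact ⟨z, hz, Subtype.ext h⟩
    rw [h1]
    exact (isClosedMap_gmap b S hS).preimage continuous_subtype_val
  · intro v
    obtain ⟨z, hz⟩ := exists_affD hb v.2
    exact ⟨z, Subtype.ext hz⟩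

theorem continuous_conePt (b : Param) (hb : b ∈ BaseSet) : Continuous (conePt b hb) := by
  unfold conePt
  refine Continuous.subtype_mk (Continuous.prodMk continuous_const (Continuous.prodMk
    continuous_const (Continuous.prodMk ?_ ?_))) _
  · exact continuous_fst.comp continuous_subtype_val
  · exact continuous_snd.comp continuous_subtype_val

/-- the bijection -/
def chartEquiv (b : Param) (hb : b ∈ BaseSet) : chart b ≃ affSet b :=
  Equiv.ofBijective (fun P => ⟨P.1.coord, coord_mem P.2⟩) ⟨by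
    intro P Q h
    exact Subtype.ext (coord_injOn hb P.2 Q.2 (congrArg Subtype.val h)), by
    intro v
    obtain ⟨P, hP, h⟩ := (coord_bijOn hb).2.2 v.2
    exact ⟨⟨P, hP⟩, Subtype.ext h⟩⟩

/-- **the chart**: the points of `S_b` with all `W_i ≠ 0` are homeomorphic, by
`x_i = X_i / W_i`, `w_i = (Y_{i+1} / W_{i+1}²) (Y_{i+2} / W_{i+2}²)`, to the affine variety -/
def chartHomeo (b : Param) (hb : b ∈ BaseSet) : chart b ≃ₜ affSet b where
  toEquiv := chartEquiv b hb
  continuous_toFun := by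
    show Continuous fun P : chart b => (⟨P.1.coord, coord_mem P.2⟩ : affSet b)
    refine Continuous.subtype_mk ?_ _
    rw [continuous_iff_continuousAt]
    intro P
    exact (continuousAt_coord P.2.2).comp continuous_subtype_val.continuousAt
  continuous_invFun := by
    show Continuous (chartEquiv b hb).symm
    rw [(isQuotientMap_gmap' hb).continuous_iff]
    have h1 : (chartEquiv b hb).symm ∘ gmap' b =
        fun z => (⟨Total.mk (conePt b hb z), mk_conePt_mem b hb z⟩ : chart b) := by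
      funext z
      rw [Function.comp_apply, Equiv.symm_apply_eq]
      apply Subtype.ext
      show gmap b z = (conePt b hb z).coord
      rw [conePt_coord]
      rfl
    rw [h1]
    exact (mk_continuous.comp (continuous_conePt b hb)).subtype_mk _

theorem chartHomeo_apply (b : Param) (hb : b ∈ BaseSet) (P : chart b) :
    (chartHomeo b hb P).1 = P.1.coord := rfl

end TripleBurger
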