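import Pool.Agent.helper10.K3B.Def
import Pool.Agent.helper84.K3B.Smooth

/-!
# K3S: the surfaces `S_b` are smooth

`defEqs b` are the four equations of the points over `b` in the homogeneous coordinates
`(W, X, Y) ∈ ℂ⁹`; at every point their differential `ℂ⁹ → ℂ⁴` is surjective, and the group
`(ℂ*)³ × {±1}` acts freely.
-/

namespace TripleBurger

open Complex

/-- the four equations of the fibre over `b` -/
def defEqs (b : Param) (v : (Fin 3 → ℂ) × (Fin 3 → ℂ) × (Fin 3 → ℂ)) : Fin 4 → ℂ :=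
  ![v.2.2 0 ^ 2 - quartic b 0 (v.1 0) (v.2.1 0),
    v.2.2 1 ^ 2 - quartic b 1 (v.1 1) (v.2.1 1),
    v.2.2 2 ^ 2 - quartic b 2 (v.1 2) (v.2.1 2),
    v.2.1 0 * v.2.1 2 * v.1 1 - b 4 * v.2.1 1 * v.1 0 * v.1 2]

/-- rearrangement of the values -/
noncomputable def rearr : ((Fin 3 → ℂ) × ℂ) →L[ℂ] (Fin 4 → ℂ) :=
  ContinuousLinearMap.pi ![(ContinuousLinearMap.proj 0).comp (ContinuousLinearMap.fst ℂ _ _),
    (ContinuousLinearMap.proj 1).comp (ContinuousLinearMap.fst ℂ _ _),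
    (ContinuousLinearMap.proj 2).comp (ContinuousLinearMap.fst ℂ _ _),
    ContinuousLinearMap.snd ℂ _ _]

theorem rearr_apply (u : (Fin 3 → ℂ) × ℂ) : rearr u = ![u.1 0, u.1 1, u.1 2, u.2] := by
  funext i
  fin_cases i <;> rfl

theorem rearr_surjective : Function.Surjective rearr := by
  intro w
  refine ⟨(![w 0, w 1, w 2], w 3), ?_⟩
  rw [rearr_apply]
  funext i
  fin_cases i <;> rfl

theorem defEqs_eq (b : Param) : defEqs b = fun v => rearr (eqs b v) := by
  funext v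
  rw [rearr_apply]
  rfl

/-- the points of the family are the solutions of the equations -/
theorem defEqs_eq_zero_iff (b : Param) (v : (Fin 3 → ℂ) × (Fin 3 → ℂ) × (Fin 3 → ℂ)) :
    defEqs b v = 0 ↔ (∀ i, v.2.2 i ^ 2 = quartic b i (v.1 i) (v.2.1 i)) ∧
      v.2.1 0 * v.2.1 2 * v.1 1 = b 4 * v.2.1 1 * v.1 0 * v.1 2 := by
  constructor
  · intro h
    have h0 := congrFun h 0
    have h1 := congrFun h 1
    have h2 := congrFun h 2
    have h3 := congrFun h 3
    refine ⟨fun i => ?_, sub_eq_zero.1 h3⟩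
    fin_cases i
    · exact sub_eq_zero.1 h0
    · exact sub_eq_zero.1 h1
    · exact sub_eq_zero.1 h2
  · rintro ⟨h, h3⟩
    funext i
    fin_cases i
    · exact sub_eq_zero.2 (h 0)
    · exact sub_eq_zero.2 (h 1)
    · exact sub_eq_zero.2 (h 2)
    · exact sub_eq_zero.2 h3

theorem defEqs_cone (p : Cone) : defEqs p.b (p.W, p.X, p.Y) = 0 :=
  (defEqs_eq_zero_iff p.b _).2 ⟨p.2.2.2.1, p.2.2.2.2⟩

/-- **smoothness** -/
theorem smooth (p : Cone) : Function.Surjective (fderiv ℂ (defEqs p.b) (p.W, p.X, p.Y)) := by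
  have h := hasFDerivAt_eqs p.b (p.W, p.X, p.Y)
  have h2 : HasFDerivAt (defEqs p.b) (rearr.comp (dEqs p.b (p.W, p.X, p.Y)))
      (p.W, p.X, p.Y) := by
    rw [defEqs_eq]
    exact rearr.hasFDerivAt.comp _ h
  rw [h2.fderiv]
  exact rearr_surjective.comp (dEqs_surjective p)

/-- **the group acts freely**: if the weighted rescaling `c` together with the sign `σ` fixes a
point, then `c = 1` and `σ = 1`. -/
theorem free (p : Cone) (c : Fin 3 → ℂ) (σ : ℂ)
    (h : ∀ i, p.W i = c i * p.W i ∧ p.X i = c i * p.X i ∧ p.Y i = σ * (c i ^ 2 * p.Y i)) :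
    c = 1 ∧ σ = 1 := by
  have hc : ∀ i, c i = 1 := by
    intro i
    obtain ⟨h1, h2, -⟩ := h i
    rcases p.2.2.1 i with hW | hX
    · have h3 : (c i - 1) * p.W i = 0 := by linear_combination -h1
      exact sub_eq_zero.1 ((mul_eq_zero.1 h3).resolve_right hW)
    · have h3 : (c i - 1) * p.X i = 0 := by linear_combination -h2
      exact sub_eq_zero.1 ((mul_eq_zero.1 h3).resolve_right hX)
  refine ⟨funext hc, ?_⟩
  obtain ⟨i, hi⟩ := exists_Y_ne_zero p
  obtain ⟨-, -, h3⟩ := h i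
  rw [hc i, one_pow, one_mul] at h3
  have h4 : (σ - 1) * p.Y i = 0 := by linear_combination -h3
  exact sub_eq_zero.1 ((mul_eq_zero.1 h4).resolve_right hi)

end TripleBurger
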